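import Pool.Agent.Lib.Pf720ae.Aff.Phase

/-!
# Freezing the inactive coordinates
-/

set_option autoImplicit false
set_option linter.unusedSectionVars false

open Finset Filter Topology
open scoped ComplexConjugate
open Pool.Agent.Lib.Pf720ae
open Pool.Agent.Lib.Pf720ae.Alg (cz)
open Pool.Agent.Lib.Pf720ae.Aff

namespace Pool.Agent.Lib.Pf720ca

variable {κ : Type} [Fintype κ] [DecidableEq κ]

/-- partial averages over the coordinates outside `L` -/
noncomputable def pav (L : Finset κ) (w : (κ → ℕ) → ℂ) (M m : κ → ℕ) : ℂ :=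
  cavg M fun m' => w (mix L m m')

lemma cavg_comm (M M' : κ → ℕ) (Φ : (κ → ℕ) → (κ → ℕ) → ℂ) :
    (cavg M fun m => cavg M' fun m' => Φ m m') = cavg M' fun m' => cavg M fun m => Φ m m' := by
  unfold cavg
  rw [← Finset.mul_sum, ← Finset.mul_sum, Finset.sum_comm]
  ring

lemma cavg_triple (L : Finset κ) (w : (κ → ℕ) → ℂ) (M M₁ M₂ : κ → ℕ) :
    (cavg (Sum.elim M (Sum.elim M₁ M₂) : κ ⊕ (κ ⊕ κ) → ℕ) fun ν =>
      w (mix L (fun l => ν (Sum.inl l)) (fun l => ν (Sum.inr (Sum.inl l)))) *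
      conj (w (mix L (fun l => ν (Sum.inl l)) (fun l => ν (Sum.inr (Sum.inr l)))))) =
    cavg M fun m => pav L w M₁ m * conj (pav L w M₂ m) := by
  rw [cavg_sum_type]
  congr 1
  funext m
  rw [cavg_sum_type]
  simp only [Sum.elim_inl, Sum.elim_inr, cavg_smul, cavg_conj, cavg_mul_const]
  rfl

theorem freeze (L : Finset κ) {a w : (κ → ℕ) → ℂ} (ha : ∀ m, ‖a m‖ ≤ 1)
    (haL : ∀ m m', a (mix L m m') = a m)
    (h1 : ∀ s : κ → ℕ, Tendsto (fun M : κ → ℕ => cavg M fun m => a m * w (mix L m s)) atTop (𝓝 0))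
    {c : ℂ} (h2 : Tendsto (fun M : κ ⊕ (κ ⊕ κ) → ℕ => cavg M fun ν =>
      w (mix L (fun l => ν (Sum.inl l)) (fun l => ν (Sum.inr (Sum.inl l)))) *
      conj (w (mix L (fun l => ν (Sum.inl l)) (fun l => ν (Sum.inr (Sum.inr l))))))
      atTop (𝓝 c)) :
    Tendsto (fun M : κ → ℕ => cavg M fun m => a m * w m) atTop (𝓝 0) := by
  rw [Metric.tendsto_nhds]
  intro δ hδ
  have hε : 0 < δ ^ 2 / 32 := by positivity
  obtain ⟨B, hB⟩ := ((Metric.tendsto_nhds.1 h2) _ hε).exists_forall_of_atTop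
  obtain ⟨N, hN⟩ : ∃ N : ℕ, ∀ l, B l ≤ N :=
    ⟨Finset.univ.sup B, fun l => Finset.le_sup (Finset.mem_univ l)⟩
  set N₀ : κ → ℕ := fun _ => N + 1 with hN₀
  have hA : ∀ M M₁ M₂ : κ → ℕ, N₀ ≤ M → N₀ ≤ M₁ → N₀ ≤ M₂ →
      dist (cavg M fun m => pav L w M₁ m * conj (pav L w M₂ m)) c < δ ^ 2 / 32 := by
    intro M M₁ M₂ hM hM₁ hM₂
    rw [← cavg_triple]
    refine hB _ ?_
    rintro (l | l | l)
    · exact (hN _).trans ((Nat.le_succ N).trans (hM l))
    · exact (hN _).trans ((Nat.le_succ N).trans (hM₁ l))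
    · exact (hN _).trans ((Nat.le_succ N).trans (hM₂ l))
  have hfix : Tendsto (fun M : κ → ℕ => cavg M fun m => a m * pav L w N₀ m) atTop (𝓝 0) := by
    have e : ∀ M : κ → ℕ, (cavg M fun m => a m * pav L w N₀ m) =
        cavg N₀ fun s => cavg M fun m => a m * w (mix L m s) := by
      intro M
      rw [← cavg_comm]
      congr 1
      funext m
      rw [cavg_smul]
      rfl
    simp only [e]
    unfold cavg
    have h3 : Tendsto (fun M : κ → ℕ => (∏ l, (N₀ l : ℂ))⁻¹ * ∑ s ∈ box N₀,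
        ((∏ l, (M l : ℂ))⁻¹ * ∑ m ∈ box M, a m * w (mix L m s))) atTop
        (𝓝 ((∏ l, (N₀ l : ℂ))⁻¹ * ∑ _s ∈ box N₀, 0)) :=
      Tendsto.const_mul _ (tendsto_finsetSum _ fun s _ => h1 s)
    rw [Finset.sum_const_zero, mul_zero] at h3
    exact h3
  filter_upwards [eventually_ge_atTop N₀, (Metric.tendsto_nhds.1 hfix) (δ / 2) (by positivity)]
    with M hM hMfix
  have hMpos : ∀ l, 0 < M l := fun l => (Nat.succ_pos N).trans_le (hM l)
  rw [dist_zero_right] at hMfix ⊢
  -- the mean square of the difference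
  have hsq : avg M (fun m => ‖pav L w M m - pav L w N₀ m‖ ^ 2) ≤ δ ^ 2 / 8 := by
    have e1 : (avg M fun m => ‖pav L w M m - pav L w N₀ m‖ ^ 2) =
        ((((cavg M fun m => pav L w M m * conj (pav L w M m)) - c) -
          ((cavg M fun m => pav L w M m * conj (pav L w N₀ m)) - c)) -
          (((cavg M fun m => pav L w N₀ m * conj (pav L w M m)) - c) -
          ((cavg M fun m => pav L w N₀ m * conj (pav L w N₀ m)) - c))).re := by
      have e2 : ((((cavg M fun m => pav L w M m * conj (pav L w M m)) - c) -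
          ((cavg M fun m => pav L w M m * conj (pav L w N₀ m)) - c)) -
          (((cavg M fun m => pav L w N₀ m * conj (pav L w M m)) - c) -
          ((cavg M fun m => pav L w N₀ m * conj (pav L w N₀ m)) - c))) =
          cavg M fun m => (pav L w M m - pav L w N₀ m) * conj (pav L w M m - pav L w N₀ m) := by
        have e3 : (fun m => (pav L w M m - pav L w N₀ m) * conj (pav L w M m - pav L w N₀ m)) =
            fun m => (pav L w M m * conj (pav L w M m) - pav L w M m * conj (pav L w N₀ m)) -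
              (pav L w N₀ m * conj (pav L w M m) - pav L w N₀ m * conj (pav L w N₀ m)) := by
          funext m
          rw [map_sub]
          ring
        rw [e3, cavg_sub, cavg_sub, cavg_sub]
        ring
      rw [e2, cavg_re]
      congr 1
      funext m
      rw [Complex.mul_conj, Complex.normSq_eq_norm_sq, Complex.ofReal_re]
    rw [e1]
    refine (Complex.re_le_norm _).trans ?_
    have d1 := hA M M M hM hM hM
    have d2 := hA M M N₀ hM hM le_rfl
    have d3 := hA M N₀ M hM le_rfl hM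
    have d4 := hA M N₀ N₀ hM le_rfl le_rfl
    rw [dist_eq_norm] at d1 d2 d3 d4
    refine (norm_sub_le _ _).trans ((add_le_add (norm_sub_le _ _) (norm_sub_le _ _)).trans ?_)
    linarith
  have hdec : (cavg M fun m => a m * w m) =
      (cavg M fun m => a m * (pav L w M m - pav L w N₀ m)) +
        cavg M fun m => a m * pav L w N₀ m := by
    rw [← cavg_add, cavg_mix L hMpos]
    congr 1
    funext m
    have e1 : ∀ m' : κ → ℕ, a (mix L m m') * w (mix L m m') = a m * w (mix L m m') := by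
      intro m'
      rw [haL]
    simp only [e1]
    rw [cavg_smul]
    unfold pav
    ring
  rw [hdec]
  refine (norm_add_le _ _).trans_lt ?_
  have h3 : ‖cavg M fun m => a m * (pav L w M m - pav L w N₀ m)‖ ^ 2 ≤ δ ^ 2 / 8 := by
    refine (norm_cavg_sq_le hMpos _).trans ((avg_mono M fun m => ?_).trans hsq)
    rw [norm_mul, mul_pow]
    have h4 : ‖a m‖ ^ 2 ≤ 1 := pow_le_one₀ (norm_nonneg _) (ha m)
    nlinarith [sq_nonneg ‖pav L w M m - pav L w N₀ m‖]
  have h4 : ‖cavg M fun m => a m * (pav L w M m - pav L w N₀ m)‖ < δ / 2 := by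
    have h5 : ‖cavg M fun m => a m * (pav L w M m - pav L w N₀ m)‖ ^ 2 < (δ / 2) ^ 2 := by
      refine h3.trans_lt ?_
      nlinarith [sq_nonneg δ, mul_pos hδ hδ]
    exact lt_of_pow_lt_pow_left₀ 2 (by positivity) h5
  linarith

end Pool.Agent.Lib.Pf720ca
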