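import Pool.Agent.Lib.Pf720ae.Aff.Orth
import Pool.Agent.Lib.Pf720ae.Alg.Seq
import Pool.Agent.Lib.Pf720ae.Aff.Phase

/-!
# Orthogonal functions with the line property in some of the coordinates
-/

set_option autoImplicit false
set_option linter.unusedSectionVars false

open Finset MeasureTheory Filter Topology
open scoped ENNReal ComplexConjugate
open Pool.Agent.Lib.Pf720ae
open Pool.Agent.Lib.Pf720ae.Alg (HasCube LP cz avg_restrict)
open Pool.Agent.Lib.Pf720ae.Aff

namespace Pool.Agent.Lib.Pf720ca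

variable {κ : Type} [Fintype κ] [DecidableEq κ] {X : Type*} [MeasurableSpace X] {μ : Measure X}
  [IsProbabilityMeasure μ]

theorem active_sub {N : Type*} {L : Finset κ} (hL : L.Nonempty) {e : (κ → ℤ) → X → ℂ}
    (he : ∀ n, Measurable (e n)) (he1 : ∀ n x, ‖e n x‖ ≤ 1) (G : (κ → ℤ) → N)
    (horth : ∀ n n', G n ≠ G n' → ∫ x, e n x * conj (e n' x) ∂μ = 0) (D : ℕ)
    (h1 : ∀ ψ, LP (D + 1) {n | G n = ψ})
    (h2 : ∀ l t₀, LP (D + 1) {n | G (Function.update n l (n l + t₀)) = G n})
    (hact : ∀ l ∈ L, ∃ (n : κ → ℤ) (t : ℤ), G (Function.update n l t) ≠ G n)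
    (hred : ∀ n n' : κ → ℤ, G (mix L n n') = G n) (s : κ → ℕ)
    {T : ℂ → ℝ} (hT : T = Complex.re ∨ T = Complex.im) :
    ∀ᵐ x ∂μ, Tendsto (fun M : κ → ℕ => avg M fun m => T (e (cz (mix L m s)) x)) atTop (𝓝 0) := by
  classical
  set ex : ({l // l ∈ L} → ℤ) → κ → ℤ := fun n l => if h : l ∈ L then n ⟨l, h⟩ else cz s l with hex
  have hexup : ∀ (n : {l // l ∈ L} → ℤ) (l : {l // l ∈ L}) (t : ℤ),
      ex (Function.update n l t) = Function.update (ex n) (l : κ) t := by
    intro n l t
    funext l'
    by_cases h : l' = l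
    · subst h
      simp [hex]
    · rw [Function.update_of_ne h]
      simp only [hex]
      by_cases hl' : l' ∈ L
      · rw [dif_pos hl', dif_pos hl', Function.update_of_ne]
        intro h'
        exact h (congrArg Subtype.val h')
      · rw [dif_neg hl', dif_neg hl']
  have hexl : ∀ (n : {l // l ∈ L} → ℤ) (l : {l // l ∈ L}), ex n l = n l := by
    intro n l
    simp [hex]
  set G' : ({l // l ∈ L} → ℤ) → N := fun n => G (ex n) with hG'
  have h1' : ∀ ψ, LP (D + 1) {n | G' n = ψ} := by
    intro ψ n l hc t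
    have := h1 ψ (ex n) l (by
      refine hc.mono fun t ht => ?_
      simp only [Set.mem_ofPred_eq, hG', hexup] at ht ⊢
      exact ht) t
    simp only [Set.mem_ofPred_eq, hG', hexup] at this ⊢
    exact this
  have hiff : ∀ (n : {l // l ∈ L} → ℤ) (l₀ : {l // l ∈ L}) (t₀ : ℤ),
      (G' (Function.update n l₀ (n l₀ + t₀)) = G' n) ↔
        (G (Function.update (ex n) l₀ (ex n l₀ + t₀)) = G (ex n)) := by
    intro n l₀ t₀
    simp only [hG', hexup, hexl]
  have h2' : ∀ l t₀, LP (D + 1) {n | G' (Function.update n l (n l + t₀)) = G' n} := by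
    intro l₀ t₀ n l hc t
    have h3 := h2 l₀ t₀ (ex n) l (by
      refine hc.mono fun t ht => ?_
      simp only [Set.mem_ofPred_eq] at ht ⊢
      rw [hiff, hexup] at ht
      exact ht) t
    simp only [Set.mem_ofPred_eq] at h3 ⊢
    rw [hiff, hexup]
    exact h3
  have hexmix : ∀ n : κ → ℤ, ex (fun l => n l) = mix L n (cz s) := by
    intro n
    funext l
    simp only [hex, mix]
    by_cases hl : l ∈ L
    · rw [dif_pos hl, if_pos hl]
    · rw [dif_neg hl, if_neg hl]
  have hact' : ∀ l : {l // l ∈ L}, ∃ t₀ : ℤ, ∃ n, G' (Function.update n l (n l + t₀)) ≠ G' n := by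
    intro l
    obtain ⟨n, t, hnt⟩ := hact l l.2
    refine ⟨t - n l, fun l => n l, ?_⟩
    rw [add_sub_cancel]
    intro h
    apply hnt
    simp only [hG'] at h
    have h3 : (fun l' : {l // l ∈ L} => Function.update n (l : κ) t l') =
        Function.update (fun l' : {l // l ∈ L} => n l') l t := by
      funext l'
      by_cases hl : l' = l
      · subst hl; simp
      · rw [Function.update_of_ne hl, Function.update_of_ne]
        intro h'
        exact hl (Subtype.ext h')
    rw [← hred (Function.update n l t) (cz s), ← hred n (cz s), ← hexmix, ← hexmix, ← h, h3]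
  choose t₀ ht₀ using hact'
  have hne : Nonempty {l // l ∈ L} := hL.to_subtype
  have h3 := orth_ae' (μ := μ) (e := fun v x => e (ex v) x) (fun v => he _) (fun v x => he1 _ x) G'
    (fun v v' hv => horth _ _ hv) D h1' t₀ (fun l => h2' l (t₀ l)) ht₀ hT
  filter_upwards [h3] with x hx
  have h4 : Tendsto (fun M : κ → ℕ => fun l : {l // l ∈ L} => M l) atTop atTop := by
    rw [tendsto_atTop]
    intro b
    filter_upwards [eventually_ge_atTop (fun l => if h : l ∈ L then b ⟨l, h⟩ else 0)] with M hM l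
    have := hM l
    simp only [dif_pos l.2] at this
    exact this
  refine (hx.comp h4).congr' ?_
  filter_upwards [eventually_pos] with M hM
  rw [Function.comp_apply, ← avg_restrict L _ M hM]
  congr 1
  funext m
  have e1 : ex (cz fun l : {l // l ∈ L} => m l) = cz (mix L m s) := by
    rw [cz_mix, ← hexmix]
    rfl
  rw [e1]

end Pool.Agent.Lib.Pf720ca
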