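import Pool.Agent.Lib.Pf720ca.AffR
import Pool.Agent.Lib.Pf720ca.FreezeK
import Pool.Agent.Lib.Pf720ca.SubK

/-!
# Averages of affine characters with independent weights, any number of variables, abstract version
-/

set_option autoImplicit false
set_option linter.unusedSectionVars false

open Finset MeasureTheory Filter Topology
open scoped ENNReal ComplexConjugate
open Pool.Agent.Lib.Pf720ae
open Pool.Agent.Lib.Pf720ae.Alg (HasCube LP cz Cvg.of_restrict)
open Pool.Agent.Lib.Pf720ae.Aff

namespace Pool.Agent.Lib.Pf720ca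

variable {Λ : Type*} [AddCommGroup Λ] [Module.Finite ℤ Λ] {R : Type*} [CommRing R]
  [IsNoetherianRing R] {N : Type*} [AddCommGroup N] [Module R N] [IsNoetherian R N]
  {J : Type*} [Fintype J] {Γ Γ' : Type*} [AddCommGroup Γ] [AddCommGroup Γ']

variable {X : Type*} [MeasurableSpace X] {μ : Measure X} [IsProbabilityMeasure μ]

/-- convergence of real and imaginary parts gives convergence -/
lemma cavg_tendsto {κ : Type} [Fintype κ] [DecidableEq κ] {u : (κ → ℕ) → ℂ}
    (h1 : Cvg fun m => (u m).re) (h2 : Cvg fun m => (u m).im) :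
    ∃ c : ℂ, Tendsto (fun M : κ → ℕ => cavg M u) atTop (𝓝 c) := by
  obtain ⟨a, ha⟩ := h1
  obtain ⟨b, hb⟩ := h2
  refine ⟨(a : ℂ) + (b : ℂ) * Complex.I, ?_⟩
  have h3 := ((Complex.continuous_ofReal.tendsto a).comp ha).add
    (((Complex.continuous_ofReal.tendsto b).comp hb).mul_const Complex.I)
  refine h3.congr fun M => ?_
  simp only [Function.comp]
  rw [← cavg_re, ← cavg_im]
  exact Complex.re_add_im _

/-- the averages of affine characters along exponential polynomial sequences converge -/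
theorem aff_ae4 (htf : ∀ (n : ℕ) (a : Λ), 0 < n → n • a = 0 → a = 0)
    (u : Multiplicative Λ →* Rˣ) (χ : J → N) (w : J → Λ → Γ) (π : Γ →+ Γ') (ι : N →+ Γ')
    (hι : Function.Injective ι) (hw : ∀ j p, π (w j p) = ι (u (Multiplicative.ofAdd p) • χ j))
    (κc : π.ker →+ Additive Circle) {e : Γ → X → ℂ}
    (he : ∀ ψ, Measurable (e ψ)) (he1 : ∀ ψ x, ‖e ψ x‖ ≤ 1)
    (heC : ∀ (ψ : Γ) (c : π.ker) (x : X), e (ψ + c) x = cv (κc c) * e ψ x)
    {κ : Type} [Fintype κ] [DecidableEq κ]
    (ζ : (κ → ℤ) → X → ℂ) (hζm : ∀ n, Measurable (ζ n)) (hζ1 : ∀ n x, ‖ζ n x‖ ≤ 1)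
    (horth : ∀ ψ ψ' n n', π ψ ≠ π ψ' → ∫ x, (e ψ x * ζ n x) * conj (e ψ' x * ζ n' x) ∂μ = 0)
    (hpoly : ∀ (V : Type) [AddCommGroup V] (k : ℕ), ∃ e' : ℕ, ∀ P : J → V → Λ,
      (∀ j, PD k (P j)) → ∀ (ex : V →+ V) (h : ∀ n, Fw w P n - Fw w P (ex n) ∈ π.ker),
      PD e' (fun n => (⟨_, h n⟩ : π.ker)))
    (hζ : ∀ (q : ℕ) (r : κ → ℕ) (e' : ℕ) (θ : (κ → ℤ) → Additive Circle), PD e' θ → ∀ᵐ x ∂μ,
      Cvg (fun m : κ → ℕ => (cv (θ (cz m)) * ζ ((q : ℤ) • cz m + cz r) x).re) ∧
      Cvg (fun m : κ → ℕ => (cv (θ (cz m)) * ζ ((q : ℤ) • cz m + cz r) x).im))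
    (hζ2 : ∀ (L : Finset κ) (q : ℕ) (r : κ → ℕ) (e' : ℕ)
      (θ : (κ ⊕ (κ ⊕ κ) → ℤ) → Additive Circle), PD e' θ → ∀ᵐ x ∂μ,
      Cvg (fun ν : κ ⊕ (κ ⊕ κ) → ℕ => (cv (θ (cz ν)) *
        (ζ ((q : ℤ) • cz (mix L (fun l => ν (Sum.inl l)) (fun l => ν (Sum.inr (Sum.inl l)))) +
          cz r) x * conj (ζ ((q : ℤ) • cz (mix L (fun l => ν (Sum.inl l))
          (fun l => ν (Sum.inr (Sum.inr l)))) + cz r) x))).re) ∧
      Cvg (fun ν : κ ⊕ (κ ⊕ κ) → ℕ => (cv (θ (cz ν)) *
        (ζ ((q : ℤ) • cz (mix L (fun l => ν (Sum.inl l)) (fun l => ν (Sum.inr (Sum.inl l)))) +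
          cz r) x * conj (ζ ((q : ℤ) • cz (mix L (fun l => ν (Sum.inl l))
          (fun l => ν (Sum.inr (Sum.inr l)))) + cz r) x))).im))
    {T : ℂ → ℝ} (hT : T = Complex.re ∨ T = Complex.im) (k : ℕ)
    (P : J → (κ → ℤ) → Λ) (hP : ∀ j, Nice k (P j)) :
    ∀ᵐ x ∂μ, Cvg fun m : κ → ℕ => T (e (Fw w P (cz m)) x * ζ (cz m) x) := by
  classical
  have hTc : Continuous T := by
    rcases hT with rfl | rfl
    · exact Complex.continuous_re
    · exact Complex.continuous_im
  have hT0 : T 0 = 0 := by rcases hT with rfl | rfl <;> rfl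
  have hTavg : ∀ (M : κ → ℕ) (Ψ : (κ → ℕ) → ℂ), T (cavg M Ψ) = avg M fun m => T (Ψ m) := by
    intro M Ψ
    rcases hT with rfl | rfl
    · exact cavg_re M Ψ
    · exact cavg_im M Ψ
  obtain ⟨D1, q1, hq10, hq1⟩ := exists_goodP (N := N) u (Option J) k
  obtain ⟨D2, q2, hq20, hq2⟩ := exists_goodP (N := N) u (J ⊕ J) k
  set q := q1 * q2 with hq
  have hq0 : 0 < q := Nat.mul_pos hq10 hq20
  set D := max D1 D2 with hD
  have hg1 : Aff.GoodP N u (Option J) k (D + 1) q :=
    (hq1.mul q2).mono ((le_max_left _ _).trans (Nat.le_succ _))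
  have hg2 : Aff.GoodP N u (J ⊕ J) k (D + 1) q := by
    rw [hq, mul_comm]
    exact (hq2.mul q1).mono ((le_max_right _ _).trans (Nat.le_succ _))
  have hmain : ∀ r : κ → ℕ, ∀ᵐ x ∂μ, Cvg fun m : κ → ℕ =>
      T (e (Fw w P ((q : ℤ) • cz m + cz r)) x * ζ ((q : ℤ) • cz m + cz r) x) := by
    intro r
    set G : (κ → ℤ) → Γ := fun n => Fw w P ((q : ℤ) • n + cz r) with hG
    set Gb : (κ → ℤ) → N := fun n => Fp u P χ ((q : ℤ) • n + cz r) with hGb
    have hGGb : ∀ n, π (G n) = ι (Gb n) := by
      intro n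
      simp only [hG, hGb, Fw, Fp, map_sum, hw]
    have hLP1 : ∀ ψ, LP (D + 1) {n | Gb n = ψ} := fun ψ =>
      LP_val htf hq0 hg1 P hP _ (cz r) ψ
    have hLP2 : ∀ l t₀, LP (D + 1) {n | Gb (Function.update n l (n l + t₀)) = Gb n} := fun l t₀ =>
      LP_dif htf hq0 hg2 P hP _ (cz r) l t₀
    set L : Finset κ := Finset.univ.filter fun l => ∃ (n : κ → ℤ) (t : ℤ),
      Gb (Function.update n l t) ≠ Gb n with hL
    have hinact : ∀ l ∉ L, ∀ n t, Gb (Function.update n l t) = Gb n := by
      intro l hl n t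
      by_contra hne
      exact hl (Finset.mem_filter.2 ⟨Finset.mem_univ _, n, t, hne⟩)
    -- independence of the inactive coordinates
    have hred' : ∀ n n' : κ → ℤ, Gb (mix L n n') = Gb n := by
      intro n n'
      have key : ∀ s : Finset κ, (∀ l ∈ s, l ∉ L) →
          Gb (fun l => if l ∈ s then n' l else n l) = Gb n := by
        intro s
        induction s using Finset.induction_on with
        | empty => intro _; simp
        | insert a s ha ih =>
          intro hs
          rw [← ih fun l hl => hs l (Finset.mem_insert_of_mem hl)]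
          rw [← hinact a (hs a (Finset.mem_insert_self _ _))
            (fun l => if l ∈ s then n' l else n l) (n' a)]
          congr 1
          funext l
          by_cases hl : l = a
          · subst hl; simp
          · simp [hl]
      rw [← key Lᶜ fun l hl => Finset.mem_compl.1 hl]
      congr 1
      funext l
      simp only [mix, Finset.mem_compl]
      by_cases hl : l ∈ L
      · simp [hl]
      · simp [hl]
    let ex : (κ → ℤ) →+ (κ → ℤ) :=
      { toFun := fun n => mix L n 0
        map_zero' := by funext l; simp [mix]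
        map_add' := by
          intro a b
          funext l
          simp only [mix, Pi.add_apply, Pi.zero_apply]
          split_ifs <;> simp }
    have hex : ∀ n, ex n = mix L n 0 := fun _ => rfl
    have hmem : ∀ n, G n - G (ex n) ∈ π.ker := by
      intro n
      rw [AddMonoidHom.mem_ker, map_sub, hGGb, hGGb, hex, hred', sub_self]
    -- the phase
    obtain ⟨e', he'⟩ := hpoly (κ → ℤ) k
    let ιq : (κ → ℤ) →+ (κ → ℤ) := (q : ℤ) • AddMonoidHom.id _
    have hPD1 : PD e' (fun n => (⟨_, hmem n⟩ : π.ker)) := by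
      refine he' (fun j n => P j ((q : ℤ) • n + cz r)) (fun j => ?_) ex hmem
      exact (hP j).pd.comp_affine ιq (cz r)
    set θ : (κ → ℤ) → Additive Circle := fun n => κc (⟨_, hmem n⟩ : π.ker) with hθ
    have hPD : PD e' θ := hPD1.comp_hom κc
    have heG : ∀ n x, e (G n) x = cv (θ n) * e (G (ex n)) x := by
      intro n x
      rw [← heC]
      congr 1
      change G n = G (ex n) + (G n - G (ex n))
      abel
    rcases L.eq_empty_or_nonempty with hLe | hLn
    · -- all coordinates are inactive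
      have hex0 : ∀ n, ex n = 0 := by
        intro n
        rw [hex, hLe]
        funext l
        simp [mix]
      filter_upwards [hζ q r e' θ hPD] with x hx
      refine (T_mul_const hT (e (G 0) x) hx.1 hx.2).congr fun m => ?_
      congr 1
      change _ = e (G (cz m)) x * _
      rw [heG (cz m), hex0]
      ring
    · -- some coordinates are active
      have hemix : ∀ (m s : κ → ℕ), ex (cz (mix L m s)) = ex (cz m) := by
        intro m s
        rw [hex, hex, cz_mix]
        funext l
        simp only [mix]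
        split_ifs <;> rfl
      have hsub : ∀ {T' : ℂ → ℝ}, (T' = Complex.re ∨ T' = Complex.im) → ∀ s : κ → ℕ, ∀ᵐ x ∂μ,
          Tendsto (fun M : κ → ℕ => avg M fun m => T' (e (G (cz (mix L m s))) x *
            ζ ((q : ℤ) • cz (mix L m s) + cz r) x)) atTop (𝓝 0) := by
        intro T' hT' s
        exact active_sub (μ := μ) hLn (e := fun n x => e (G n) x * ζ ((q : ℤ) • n + cz r) x)
          (fun n => (he _).mul (hζm _))
          (fun n x => by
            rw [norm_mul]
            exact mul_le_one₀ (he1 _ x) (norm_nonneg _) (hζ1 _ x)) Gb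
          (fun n n' hnn => horth _ _ _ _ fun heq => hnn (by
            rw [hGGb, hGGb] at heq
            exact hι heq)) D hLP1 hLP2
          (fun l hl => (Finset.mem_filter.1 hl).2) hred' s hT'
      let ι₁ : (κ ⊕ (κ ⊕ κ) → ℤ) →+ (κ → ℤ) :=
        { toFun := fun ν => mix L (fun l => ν (Sum.inl l)) (fun l => ν (Sum.inr (Sum.inl l)))
          map_zero' := by funext l; simp [mix]
          map_add' := by
            intro a b
            funext l
            simp only [mix, Pi.add_apply]
            split_ifs <;> rfl }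
      let ι₂ : (κ ⊕ (κ ⊕ κ) → ℤ) →+ (κ → ℤ) :=
        { toFun := fun ν => mix L (fun l => ν (Sum.inl l)) (fun l => ν (Sum.inr (Sum.inr l)))
          map_zero' := by funext l; simp [mix]
          map_add' := by
            intro a b
            funext l
            simp only [mix, Pi.add_apply]
            split_ifs <;> rfl }
      have hPD2 : PD e' (fun ν : κ ⊕ (κ ⊕ κ) → ℤ => θ (ι₁ ν) - θ (ι₂ ν)) := by
        have h1 := (hPD.comp_affine ι₁ 0).sub (hPD.comp_affine ι₂ 0)
        simp only [add_zero] at h1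
        exact h1
      have hs1 : ∀ᵐ x ∂μ, ∀ s : κ → ℕ, Tendsto (fun M : κ → ℕ => avg M fun m =>
          (e (G (cz (mix L m s))) x * ζ ((q : ℤ) • cz (mix L m s) + cz r) x).re) atTop (𝓝 0) :=
        ae_all_iff.2 fun s => hsub (Or.inl rfl) s
      have hs2 : ∀ᵐ x ∂μ, ∀ s : κ → ℕ, Tendsto (fun M : κ → ℕ => avg M fun m =>
          (e (G (cz (mix L m s))) x * ζ ((q : ℤ) • cz (mix L m s) + cz r) x).im) atTop (𝓝 0) :=
        ae_all_iff.2 fun s => hsub (Or.inr rfl) s
      filter_upwards [hs1, hs2, hζ2 L q r e' _ hPD2] with x hx1 hx2 hx3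
      obtain ⟨c, hc⟩ := cavg_tendsto hx3.1 hx3.2
      set a : (κ → ℕ) → ℂ := fun m => e (G (ex (cz m))) x with ha
      set W : (κ → ℕ) → ℂ := fun m => cv (θ (cz m)) * ζ ((q : ℤ) • cz m + cz r) x with hW
      have haW : ∀ m s : κ → ℕ, a m * W (mix L m s) =
          e (G (cz (mix L m s))) x * ζ ((q : ℤ) • cz (mix L m s) + cz r) x := by
        intro m s
        simp only [ha, hW]
        rw [heG (cz (mix L m s)), hemix]
        ring
      have haW0 : ∀ m : κ → ℕ, a m * W m =
          e (G (cz m)) x * ζ ((q : ℤ) • cz m + cz r) x := by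
        intro m
        simp only [ha, hW]
        rw [heG (cz m)]
        ring
      have hfr := freeze L (a := a) (w := W) (fun m => he1 _ _)
        (fun m m' => by simp only [ha]; rw [hemix]) (fun s => by
          simp only [haW]
          have h1 := ((Complex.continuous_ofReal.tendsto 0).comp (hx1 s)).add
            (((Complex.continuous_ofReal.tendsto 0).comp (hx2 s)).mul_const Complex.I)
          simp only [Complex.ofReal_zero, zero_mul, add_zero] at h1
          refine h1.congr fun M => ?_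
          simp only [Function.comp]
          rw [← cavg_re, ← cavg_im]
          exact Complex.re_add_im _) (c := c) (by
          refine hc.congr fun M => ?_
          congr 1
          funext ν
          have e1 : cv ((fun ν : κ ⊕ (κ ⊕ κ) → ℤ => θ (ι₁ ν) - θ (ι₂ ν)) (cz ν)) =
              cv (θ (cz (mix L (fun l => ν (Sum.inl l)) (fun l => ν (Sum.inr (Sum.inl l)))))) *
              conj (cv (θ (cz (mix L (fun l => ν (Sum.inl l))
                (fun l => ν (Sum.inr (Sum.inr l))))))) := by
            rw [cz_mix, cz_mix]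
            exact cv_sub _ _
          simp only [hW]
          rw [e1, map_mul]
          ring)
      have h2 := (hTc.tendsto 0).comp hfr
      rw [hT0] at h2
      refine ⟨0, h2.congr fun M => ?_⟩
      rw [Function.comp_apply, hTavg]
      congr 1
      funext m
      rw [haW0]
  filter_upwards [ae_all_iff.2 hmain] with x hx
  refine Cvg.of_cosets hq0 fun c => (hx c).congr fun m => ?_
  have h2 : (q : ℤ) • cz m + cz c = cz (q • m + c) := by
    funext l
    simp [cz]
  rw [h2]

end Pool.Agent.Lib.Pf720ca
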