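import Pool.Agent.Lib.Pf720ae.Aff.AffSeq2
import Pool.Agent.Lib.Pf720ae.Aff.Orth

/-!
# Averages of affine characters with independent weights, one variable, abstract version
-/

set_option autoImplicit false
set_option linter.unusedSectionVars false

open Finset MeasureTheory Filter Topology
open scoped ENNReal ComplexConjugate
open Pool.Agent.Lib.Pf720ae
open Pool.Agent.Lib.Pf720ae.Alg (HasCube LP cz Cvg.of_restrict)
open Pool.Agent.Lib.Pf720ae.Aff

namespace Pool.Agent.Lib.Pf720ca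

variable {Λ : Type*} [AddCommGroup Λ] [Module.Finite ℤ Λ] {R : Type*} [CommRing R]
  [IsNoetherianRing R] {N : Type*} [AddCommGroup N] [Module R N] [IsNoetherian R N]
  {J : Type*} [Fintype J] {Γ Γ' : Type*} [AddCommGroup Γ] [AddCommGroup Γ']

variable {X : Type*} [MeasurableSpace X] {μ : Measure X} [IsProbabilityMeasure μ]

lemma T_mul_const {T : ℂ → ℝ} (hT : T = Complex.re ∨ T = Complex.im) {κ : Type} [Fintype κ]
    [DecidableEq κ] {z : (κ → ℕ) → ℂ} (c : ℂ) (h1 : Cvg fun m => (z m).re)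
    (h2 : Cvg fun m => (z m).im) : Cvg fun m => T (z m * c) := by
  rcases hT with rfl | rfl
  · refine ((h1.smul c.re).add (h2.smul (-c.im))).congr fun m => ?_
    rw [Complex.mul_re]
    ring
  · refine ((h1.smul c.im).add (h2.smul c.re)).congr fun m => ?_
    rw [Complex.mul_im]
    ring

/-- the averages of affine characters along exponential polynomial sequences converge -/
theorem aff_ae3 (htf : ∀ (n : ℕ) (a : Λ), 0 < n → n • a = 0 → a = 0)
    (u : Multiplicative Λ →* Rˣ) (χ : J → N) (w : J → Λ → Γ) (π : Γ →+ Γ') (ι : N →+ Γ')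
    (hι : Function.Injective ι) (hw : ∀ j p, π (w j p) = ι (u (Multiplicative.ofAdd p) • χ j))
    (κc : π.ker →+ Additive Circle) {e : Γ → X → ℂ}
    (he : ∀ ψ, Measurable (e ψ)) (he1 : ∀ ψ x, ‖e ψ x‖ ≤ 1)
    (heC : ∀ (ψ : Γ) (c : π.ker) (x : X), e (ψ + c) x = cv (κc c) * e ψ x)
    {κ : Type} [Fintype κ] [DecidableEq κ] (hκ : Fintype.card κ = 1)
    (ζ : (κ → ℤ) → X → ℂ) (hζm : ∀ n, Measurable (ζ n)) (hζ1 : ∀ n x, ‖ζ n x‖ ≤ 1)
    (horth : ∀ ψ ψ' n n', π ψ ≠ π ψ' → ∫ x, (e ψ x * ζ n x) * conj (e ψ' x * ζ n' x) ∂μ = 0)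
    (hpoly : ∀ (V : Type) [AddCommGroup V] (k : ℕ), ∃ e' : ℕ, ∀ P : J → V → Λ,
      (∀ j, PD k (P j)) → ∀ (ex : V →+ V) (h : ∀ n, Fw w P n - Fw w P (ex n) ∈ π.ker),
      PD e' (fun n => (⟨_, h n⟩ : π.ker)))
    (hζ : ∀ (q : ℕ) (r : κ → ℕ) (e' : ℕ) (θ : (κ → ℤ) → Additive Circle), PD e' θ → ∀ᵐ x ∂μ,
      Cvg (fun m : κ → ℕ => (cv (θ (cz m)) * ζ ((q : ℤ) • cz m + cz r) x).re) ∧
      Cvg (fun m : κ → ℕ => (cv (θ (cz m)) * ζ ((q : ℤ) • cz m + cz r) x).im))
    {T : ℂ → ℝ} (hT : T = Complex.re ∨ T = Complex.im) (k : ℕ)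
    (P : J → (κ → ℤ) → Λ) (hP : ∀ j, Nice k (P j)) :
    ∀ᵐ x ∂μ, Cvg fun m : κ → ℕ => T (e (Fw w P (cz m)) x * ζ (cz m) x) := by
  classical
  obtain ⟨D1, q1, hq10, hq1⟩ := exists_goodP (N := N) u (Option J) k
  obtain ⟨D2, q2, hq20, hq2⟩ := exists_goodP (N := N) u (J ⊕ J) k
  set q := q1 * q2 with hq
  have hq0 : 0 < q := Nat.mul_pos hq10 hq20
  set D := max D1 D2 with hD
  have hg1 : Aff.GoodP N u (Option J) k (D + 1) q :=
    (hq1.mul q2).mono ((le_max_left _ _).trans (Nat.le_succ _))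
  have hg2 : Aff.GoodP N u (J ⊕ J) k (D + 1) q := by
    rw [hq, mul_comm]
    exact (hq2.mul q1).mono ((le_max_right _ _).trans (Nat.le_succ _))
  have hne : Nonempty κ := Fintype.card_pos_iff.1 (by omega)
  have hmain : ∀ r : κ → ℕ, ∀ᵐ x ∂μ, Cvg fun m : κ → ℕ =>
      T (e (Fw w P ((q : ℤ) • cz m + cz r)) x * ζ ((q : ℤ) • cz m + cz r) x) := by
    intro r
    set G : (κ → ℤ) → Γ := fun n => Fw w P ((q : ℤ) • n + cz r) with hG
    set Gb : (κ → ℤ) → N := fun n => Fp u P χ ((q : ℤ) • n + cz r) with hGb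
    have hGGb : ∀ n, π (G n) = ι (Gb n) := by
      intro n
      simp only [hG, hGb, Fw, Fp, map_sum, hw]
    have hLP1 : ∀ ψ, LP (D + 1) {n | Gb n = ψ} := fun ψ =>
      LP_val htf hq0 hg1 P hP _ (cz r) ψ
    have hLP2 : ∀ l t₀, LP (D + 1) {n | Gb (Function.update n l (n l + t₀)) = Gb n} := fun l t₀ =>
      LP_dif htf hq0 hg2 P hP _ (cz r) l t₀
    by_cases hact : ∀ l : κ, ∃ (n : κ → ℤ) (t : ℤ), Gb (Function.update n l t) ≠ Gb n
    · -- the coordinate is active
      choose n₀ t₀ ht₀ using hact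
      have h1 := orth_ae' (μ := μ) (e := fun n x => e (G n) x * ζ ((q : ℤ) • n + cz r) x)
        (fun n => (he _).mul (hζm _))
        (fun n x => by
          rw [norm_mul]
          exact mul_le_one₀ (he1 _ x) (norm_nonneg _) (hζ1 _ x)) Gb
        (fun n n' hnn => horth _ _ _ _ fun heq => hnn (by
          rw [hGGb, hGGb] at heq
          exact hι heq)) D hLP1
        (fun l => t₀ l - n₀ l l) (fun l => hLP2 l _) (fun l => ⟨n₀ l, by
          rw [add_sub_cancel]; exact ht₀ l⟩) hT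
      filter_upwards [h1] with x hx
      exact ⟨0, hx⟩
    · push Not at hact
      obtain ⟨l₀, hl₀⟩ := hact
      have hsub : ∀ l : κ, l = l₀ := fun l => Fintype.card_le_one_iff.1 hκ.le l l₀
      have hred : ∀ n : κ → ℤ, Gb n = Gb 0 := by
        intro n
        have h1 := hl₀ 0 (n l₀)
        have h2 : Function.update (0 : κ → ℤ) l₀ (n l₀) = n := by
          funext l
          rw [hsub l, Function.update_self]
        rw [h2] at h1
        exact h1
      have hmem : ∀ n, G n - G ((0 : (κ → ℤ) →+ (κ → ℤ)) n) ∈ π.ker := by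
        intro n
        rw [AddMonoidHom.mem_ker, map_sub, hGGb, hGGb, hred n, AddMonoidHom.zero_apply, sub_self]
      obtain ⟨e', he'⟩ := hpoly (κ → ℤ) k
      let ιq : (κ → ℤ) →+ (κ → ℤ) := (q : ℤ) • AddMonoidHom.id _
      have hPD1 : PD e' (fun n => (⟨_, hmem n⟩ : π.ker)) := by
        refine he' (fun j n => P j ((q : ℤ) • n + cz r)) (fun j => ?_) 0 hmem
        exact (hP j).pd.comp_affine ιq (cz r)
      set θ : (κ → ℤ) → Additive Circle := fun n => κc (⟨_, hmem n⟩ : π.ker) with hθ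
      have hPD : PD e' θ := hPD1.comp_hom κc
      have heG : ∀ n x, e (G n) x = cv (θ n) * e (G 0) x := by
        intro n x
        rw [← heC]
        congr 1
        change G n = G 0 + (G n - G 0)
        abel
      filter_upwards [hζ q r e' θ hPD] with x hx
      refine (T_mul_const hT (e (G 0) x) hx.1 hx.2).congr fun m => ?_
      congr 1
      change _ = e (G (cz m)) x * _
      rw [heG (cz m)]
      ring
  filter_upwards [ae_all_iff.2 hmain] with x hx
  refine Cvg.of_cosets hq0 fun c => (hx c).congr fun m => ?_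
  have h2 : (q : ℤ) • cz m + cz c = cz (q • m + c) := by
    funext l
    simp [cz]
  rw [h2]

end Pool.Agent.Lib.Pf720ca
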