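import Pool.Agent.Lib.Pf720ca.ExpK
import Pool.Agent.Lib.Pf720ca.CharsK

/-!
# Products of affine characters, phases and exponentials, any number of variables
-/

set_option autoImplicit false
set_option linter.unusedSectionVars false

open Finset MeasureTheory Filter Topology ProbabilityTheory
open scoped ENNReal ComplexConjugate

namespace Pool.Agent.Lib.Pf720ca

open Pool.Agent.Lib.Pf720ae Pool.Agent.Lib.Pf720gs
open Pool.Agent.Lib.Pf720ae.Alg (cz)
open Pool.Agent.Lib.Pf720ae.Aff (affc linf evg Gam oprod PD Nice cv mix)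
open Pool.Agent.Lib.Pf720po (IsPoisson Amp CSw mf mf_map mf_pos mf_le_one
  measurable_mf ae_of_indep measurableSet_CSw_prod)
open Pool.Agent.Lib.Pf720mp (Ex mon mon_zero)
open Pool.Agent.Lib.Pf720pm (pv IsPol)
open Pool.Agent.Lib.Pf720pq (RetM exists_pvs)
open Pool.Agent.Lib.Pf720pr (UGroup IsPh Pset ugroup_Pset GoodW goodW_poly isPol_pv)

section sub

variable {κ κ' : Type} [Fintype κ] [DecidableEq κ] [Fintype κ'] [DecidableEq κ']

/-- the value of a polynomial at an affine function of other variables -/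
lemma eval_sub (P : MvPolynomial κ ℤ) (q : ℕ) (r : κ → ℕ) (φ : κ → κ') :
    ∃ P' : MvPolynomial κ' ℤ, ∀ ν : κ' → ℕ, MvPolynomial.eval (fun l => (ν l : ℤ)) P' =
      MvPolynomial.eval ((q : ℤ) • cz (fun l => ν (φ l)) + cz r) P := by
  refine ⟨MvPolynomial.bind₁ (fun l => MvPolynomial.C (q : ℤ) * MvPolynomial.X (φ l) +
    MvPolynomial.C (r l : ℤ)) P, fun ν => ?_⟩
  have h2 := MvPolynomial.eval₂Hom_bind₁ (RingHom.id ℤ) (fun l : κ' => (ν l : ℤ))
    (fun l => MvPolynomial.C (q : ℤ) * MvPolynomial.X (φ l) + MvPolynomial.C (r l : ℤ)) P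
  have h3 : MvPolynomial.eval (fun l => (ν l : ℤ))
      (MvPolynomial.bind₁ (fun l => MvPolynomial.C (q : ℤ) * MvPolynomial.X (φ l) +
        MvPolynomial.C (r l : ℤ)) P) =
      MvPolynomial.eval (fun l => MvPolynomial.eval (fun l => (ν l : ℤ))
        (MvPolynomial.C (q : ℤ) * MvPolynomial.X (φ l) + MvPolynomial.C (r l : ℤ))) P := h2
  rw [h3]
  congr 2
  funext l
  simp [cz]

/-- the coordinates of the doubled variables -/
def φA (L : Finset κ) (l : κ) : κ ⊕ (κ ⊕ κ) := if l ∈ L then Sum.inl l else Sum.inr (Sum.inl l)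

def φB (L : Finset κ) (l : κ) : κ ⊕ (κ ⊕ κ) := if l ∈ L then Sum.inl l else Sum.inr (Sum.inr l)

lemma mixA (L : Finset κ) (ν : κ ⊕ (κ ⊕ κ) → ℕ) :
    mix L (fun l => ν (Sum.inl l)) (fun l => ν (Sum.inr (Sum.inl l))) = fun l => ν (φA L l) := by
  funext l
  unfold mix φA
  split_ifs <;> rfl

lemma mixB (L : Finset κ) (ν : κ ⊕ (κ ⊕ κ) → ℕ) :
    mix L (fun l => ν (Sum.inl l)) (fun l => ν (Sum.inr (Sum.inr l))) = fun l => ν (φB L l) := by
  funext l
  unfold mix φB
  split_ifs <;> rfl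

end sub

variable {V X Y : Type} [AddCommGroup V] [Module ℝ V] {𝒜 mH : MeasurableSpace X}
  {mX : MeasurableSpace X}
  {mY : MeasurableSpace Y} {μ : Measure X}
  [IsProbabilityMeasure μ] {κ : Type} [Fintype κ] [DecidableEq κ] {d D : ℕ} {J : Type} [Fintype J]
  [DecidableEq J]

variable {Z : Type} [CommGroup Z] [TopologicalSpace Z] [IsTopologicalGroup Z]
  [MeasurableSpace Z] [BorelSpace Z] {lam : Measure Z} [IsProbabilityMeasure lam]

theorem baseA (g : GF V X μ) (act : MAct (Fin d → ℤ) X μ) (S : (Fin d → ℤ) → V →ₗ[ℝ] V)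
    (hS : ∀ w v x, g.G (S w v) x = g.G v (act.S w x))
    (hSadd : ∀ w w' v, S (w + w') v = S w (S w' v))
    (hBi : ∀ w u v, g.B (S w u) (S w v) = g.B u v)
    {ν : Measure Y} {N : X → Measure Y} (hN : IsPoisson μ ν N) (R : MAct (Fin d → ℤ) Y ν)
    (hNR : ∀ w x, N (act.S w x) = (N x).map (R.S w))
    (hind : Indep (⨆ v, MeasurableSpace.comap (g.G v) (borel ℝ))
      (MeasurableSpace.comap N inferInstance) μ)
    {B : Set Y} (hB : MeasurableSet B) (hνB : ν B < ⊤) (hret : RetM R B)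
    (horth : ∀ χ : Z →ₜ* Circle, χ ≠ 1 → ∫ z, ((χ z : Circle) : ℂ) ∂lam = 0)
    {π : X → Z} (hπ : MeasurePreserving π μ lam)
    (A : Fin d → affc Z) (hlin : ∀ i j z, linf (A i) (linf (A j) z) = linf (A j) (linf (A i) z))
    (hnil : Group.IsNilpotent (Subgroup.closure (Set.range fun i => ((A i : affc Z) : Equiv.Perm Z))))
    (heq : ∀ (ψ : Gam Z) (u : Fin d → ℤ), ∀ᵐ x ∂μ,
      evg ψ (π (act.S u x)) = evg ψ (((oprod A u : affc Z) : Equiv.Perm Z) (π x)))
    (hA : 𝒜 ≤ mX) (hAinv : ∀ w, Measurable[𝒜, 𝒜] (act.S w))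
    (hindW : Indep 𝒜
      ((⨆ v, MeasurableSpace.comap (g.G v) (borel ℝ)) ⊔ MeasurableSpace.comap N inferInstance) μ)
    (hmH : mH = ((⨆ v, MeasurableSpace.comap (g.G v) (borel ℝ)) ⊔
        MeasurableSpace.comap N inferInstance) ⊔ 𝒜)
    (hindZ : Indep (MeasurableSpace.comap π inferInstance) mH μ)
    (q : J → Ex κ D → Fin d → ℤ) (h : J → V) (u : J → Y → ℝ)
    (hu : ∀ j, Amp (1 / (2 * (2 * (Fintype.card J : ℝ) + 1) ^ 2)) B (u j))
    (ψ : J → Gam Z) (θ : J → X → ℂ) (hθ : ∀ j, θ j ∈ Pset 𝒜 act)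
    {T : ℂ → ℝ} (hT : T = Complex.re ∨ T = Complex.im) :
    ∀ᵐ x ∂μ, Cvg fun m : κ → ℕ => T (∏ j, (((evg (ψ j) (π (act.S (pv (q j) m) x)) : Circle) : ℂ) *
      (θ j (act.S (pv (q j) m) x) * ex g (h j) (act.S (pv (q j) m) x) *
        (mf N (u j) (act.S (pv (q j) m) x) : ℂ)))) := by
  classical
  have hJ0 : (0 : ℝ) ≤ (Fintype.card J : ℝ) := Nat.cast_nonneg _
  -- polynomials
  choose Pq hPq using fun j => isPol_pv (q j)
  set Q : J → (κ → ℤ) → Fin d → ℤ := fun j n i => MvPolynomial.eval n (Pq j i) with hQ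
  have hQcz : ∀ j (m : κ → ℕ), Q j (cz m) = pv (q j) m := fun j m => by
    funext i
    exact (hPq j m i).symm
  obtain ⟨K, hK⟩ : ∃ K, ∀ j, Nice K (Q j) := by
    choose K hK using fun j => mv_nice' (Pq j)
    exact ⟨∑ j, K j, fun j => nice_mono (hK j)
      (Finset.single_le_sum (f := K) (fun _ _ => Nat.zero_le _) (Finset.mem_univ j))⟩
  have hQpol : ∀ {κ' : Type} [Fintype κ'] [DecidableEq κ'] (j : J) (q₀ : ℕ) (r : κ → ℕ)
      (φ : κ → κ'), IsPol fun ν : κ' → ℕ => Q j ((q₀ : ℤ) • cz (fun l => ν (φ l)) + cz r) := by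
    intro κ' _ _ j q₀ r φ
    choose P' hP' using fun i => eval_sub (Pq j i) q₀ r φ
    exact ⟨P', fun m i => (hP' i m).symm⟩
  -- the weights
  have hmf : ∀ j x, |mf N (u j) x| ≤ 1 := by
    intro j x
    rw [abs_of_nonneg (mf_pos _ _ _).le]
    refine mf_le_one N (fun y => ?_) (hu j).ub x
    have h1 := (hu j).lb y
    have h2 : 1 / (2 * (2 * (Fintype.card J : ℝ) + 1) ^ 2) ≤ 1 := by
      rw [div_le_one (by positivity)]
      nlinarith
    linarith
  set F : J → X → ℂ := fun j x => θ j x * ex g (h j) x * (mf N (u j) x : ℂ) with hF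
  have hF1 : ∀ j x, ‖F j x‖ ≤ 1 := by
    intro j x
    simp only [hF]
    rw [norm_mul, norm_mul, norm_ex, mul_one, (hθ j).2.1, one_mul, Complex.norm_real]
    exact hmf j x
  have hleG : (⨆ v, MeasurableSpace.comap (g.G v) (borel ℝ)) ≤ mX :=
    iSup_le fun v => comap_le_of_measurable (g.meas v)
  have hHle : mH ≤ mX := by
    rw [hmH]
    exact sup_le (sup_le hleG hN.1.comap_le) hA
  have hG1 : (⨆ v, MeasurableSpace.comap (g.G v) (borel ℝ)) ≤ mH := by
    rw [hmH]
    exact le_sup_left.trans le_sup_left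
  have hN1 : MeasurableSpace.comap N inferInstance ≤ mH := by
    rw [hmH]
    exact le_sup_right.trans le_sup_left
  have hA1 : 𝒜 ≤ mH := by
    rw [hmH]
    exact le_sup_right
  have hFm : ∀ j w, Measurable[mH] fun x => F j (act.S w x) := by
    intro j w
    have hm1 : Measurable[mH] fun x => θ j (act.S w x) :=
      ((hθ j).1.comp (hAinv w)).mono hA1 le_rfl
    have hm2 : Measurable[mH] fun x => ex g (h j) (act.S w x) := by
      have e : (fun x => ex g (h j) (act.S w x)) =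
          fun x => Complex.exp ((g.G (S w (h j)) x : ℂ) * Complex.I) := by
        funext x
        unfold ex
        rw [hS]
      rw [e]
      have h2 : Measurable[MeasurableSpace.comap (g.G (S w (h j))) (borel ℝ)]
          (g.G (S w (h j))) := by
        rw [← BorelSpace.measurable_eq (α := ℝ)]
        exact comap_measurable _
      have h3 : Measurable[mH] (g.G (S w (h j))) :=
        h2.mono ((le_iSup (fun v => MeasurableSpace.comap (g.G v) (borel ℝ)) _).trans hG1) le_rfl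
      exact Complex.measurable_exp.comp ((Complex.measurable_ofReal.comp h3).mul_const _)
    have hm3 : Measurable[mH] fun x => (mf N (u j) (act.S w x) : ℂ) := by
      have e : (fun x => mf N (u j) (act.S w x)) = (fun η : Measure Y =>
          Real.exp (∫ y, Real.log (u j (R.S w y)) ∂η)) ∘ N := by
        funext x
        simp only [Function.comp]
        rw [mf_map (R.mp _).measurable (fun x => hNR w x) (hu j).meas]
        rfl
      have h4 : Measurable[MeasurableSpace.comap N inferInstance]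
          fun x => mf N (u j) (act.S w x) := by
        rw [e]
        refine Measurable.comp ?_ (comap_measurable N)
        exact measurable_mf (N := fun η : Measure Y => η) measurable_id
          ((hu j).meas.comp (R.mp _).measurable) ((hu j).fin.subset (by
            rintro _ ⟨y, rfl⟩
            exact ⟨R.S w y, rfl⟩))
      exact Complex.measurable_ofReal.comp (h4.mono hN1 le_rfl)
    exact (hm1.mul hm2).mul hm3
  set ζ : (κ → ℤ) → X → ℂ := fun n x => ∏ j, F j (act.S (Q j n) x) with hζ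
  have hζH : ∀ n, Measurable[mH] (ζ n) := fun n => Finset.measurable_fun_prod _ fun j _ => hFm j _
  have hζm : ∀ n, Measurable (ζ n) := fun n => (hζH n).mono hHle le_rfl
  have hζ1 : ∀ n x, ‖ζ n x‖ ≤ 1 := fun n x => norm_prod_le_one _ _ fun j => hF1 j _
  -- orthogonality
  have ho : ∀ χ : Z →ₜ* Circle, χ ≠ 1 → ∀ n n', ∫ x, ((χ (π x) : Circle) : ℂ) *
      (ζ n x * conj (ζ n' x)) ∂μ = 0 := by
    intro χ hχ n n'
    have hχm : Measurable fun z : Z => ((χ z : Circle) : ℂ) :=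
      (continuous_subtype_val.comp (map_continuous χ)).measurable
    have hYm : Measurable[mH] fun x => ζ n x * conj (ζ n' x) :=
      (hζH n).mul (Complex.continuous_conj.measurable.comp (hζH n'))
    have hif : IndepFun (fun x => ((χ (π x) : Circle) : ℂ)) (fun x => ζ n x * conj (ζ n' x)) μ := by
      rw [IndepFun_iff_Indep]
      refine indep_of_indep_of_le_right (indep_of_indep_of_le_left hindZ ?_) ?_
      · rw [← measurable_iff_comap_le]
        exact hχm.comp (comap_measurable π)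
      · exact hYm.comap_le
    have h1 := hif.integral_fun_mul_eq_mul_integral
      (hχm.comp hπ.measurable).aestronglyMeasurable (hYm.mono hHle le_rfl).aestronglyMeasurable
    have h2 : ∫ x, ((χ (π x) : Circle) : ℂ) ∂μ = 0 := by
      rw [← horth χ hχ, ← hπ.map_eq]
      rw [integral_map hπ.measurable.aemeasurable hχm.aestronglyMeasurable]
    rw [h1, h2, zero_mul]
  -- the inactive case
  have hcv : ∀ (q₀ : ℕ) (r : κ → ℕ) (e' : ℕ) (ϑ : (κ → ℤ) → Additive Circle), PD e' ϑ →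
      ∀ᵐ x ∂μ,
      Cvg (fun m : κ → ℕ => (cv (ϑ (cz m)) * ζ ((q₀ : ℤ) • cz m + cz r) x).re) ∧
      Cvg (fun m : κ → ℕ => (cv (ϑ (cz m)) * ζ ((q₀ : ℤ) • cz m + cz r) x).im) := by
    intro q₀ r e' ϑ hϑ
    obtain ⟨P₁, hP₁⟩ := cv_polyK hϑ
    have h1 := expK (κ := κ) g act S hS hSadd hBi hN R hNR hind hB hνB hret hA hAinv hindW
      (e := fun j m => Q j ((q₀ : ℤ) • cz m + cz r)) (fun j => hQpol j q₀ r id) h u
      (fun j => (hu j).mono (by
        apply one_div_le_one_div_of_le (by positivity)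
        nlinarith) (Set.Subset.refl _)) θ hθ P₁
    filter_upwards [h1] with x hx
    simp only [hP₁]
    exact hx
  have hcv2 : ∀ (L : Finset κ) (q₀ : ℕ) (r : κ → ℕ) (e' : ℕ)
      (ϑ : (κ ⊕ (κ ⊕ κ) → ℤ) → Additive Circle), PD e' ϑ → ∀ᵐ x ∂μ,
      Cvg (fun ν : κ ⊕ (κ ⊕ κ) → ℕ => (cv (ϑ (cz ν)) *
        (ζ ((q₀ : ℤ) • cz (mix L (fun l => ν (Sum.inl l)) (fun l => ν (Sum.inr (Sum.inl l)))) +
          cz r) x * conj (ζ ((q₀ : ℤ) • cz (mix L (fun l => ν (Sum.inl l))
          (fun l => ν (Sum.inr (Sum.inr l)))) + cz r) x))).re) ∧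
      Cvg (fun ν : κ ⊕ (κ ⊕ κ) → ℕ => (cv (ϑ (cz ν)) *
        (ζ ((q₀ : ℤ) • cz (mix L (fun l => ν (Sum.inl l)) (fun l => ν (Sum.inr (Sum.inl l)))) +
          cz r) x * conj (ζ ((q₀ : ℤ) • cz (mix L (fun l => ν (Sum.inl l))
          (fun l => ν (Sum.inr (Sum.inr l)))) + cz r) x))).im) := by
    intro L q₀ r e' ϑ hϑ
    obtain ⟨P₁, hP₁⟩ := cv_polyK hϑ
    have hcard : (Fintype.card (J ⊕ J) : ℝ) + 1 = 2 * (Fintype.card J : ℝ) + 1 := by
      rw [Fintype.card_sum]
      push_cast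
      ring
    have h1 := expK (κ := κ ⊕ (κ ⊕ κ)) (J := J ⊕ J) g act S hS hSadd hBi hN R hNR hind hB hνB hret
      hA hAinv hindW
      (e := Sum.elim (fun j ν => Q j ((q₀ : ℤ) • cz (fun l => ν (φA L l)) + cz r))
        (fun j ν => Q j ((q₀ : ℤ) • cz (fun l => ν (φB L l)) + cz r)))
      (by
        rintro (j | j)
        · exact hQpol j q₀ r (φA L)
        · exact hQpol j q₀ r (φB L))
      (Sum.elim h fun j => -(h j)) (Sum.elim u u) (by
        rw [hcard]
        rintro (j | j)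
        · exact hu j
        · exact hu j)
      (Sum.elim θ fun j x => conj (θ j x)) (by
        rintro (j | j)
        · exact hθ j
        · exact (ugroup_Pset act hA).cj _ (hθ j)) P₁
    filter_upwards [h1] with x hx
    have e1 : ∀ ν : κ ⊕ (κ ⊕ κ) → ℕ,
        Complex.exp ((MvPolynomial.eval (fun l => (ν l : ℝ)) P₁ : ℝ) * Complex.I) *
        ∏ j, ((Sum.elim θ (fun j x => conj (θ j x)) : J ⊕ J → X → ℂ) j
          (act.S ((Sum.elim (fun j ν => Q j ((q₀ : ℤ) • cz (fun l => ν (φA L l)) + cz r))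
        (fun j ν => Q j ((q₀ : ℤ) • cz (fun l => ν (φB L l)) + cz r)) : J ⊕ J → _) j ν) x) *
          ex g ((Sum.elim h fun j => -(h j) : J ⊕ J → V) j)
          (act.S ((Sum.elim (fun j ν => Q j ((q₀ : ℤ) • cz (fun l => ν (φA L l)) + cz r))
        (fun j ν => Q j ((q₀ : ℤ) • cz (fun l => ν (φB L l)) + cz r)) : J ⊕ J → _) j ν) x) *
          (mf N ((Sum.elim u u : J ⊕ J → Y → ℝ) j)
          (act.S ((Sum.elim (fun j ν => Q j ((q₀ : ℤ) • cz (fun l => ν (φA L l)) + cz r))
        (fun j ν => Q j ((q₀ : ℤ) • cz (fun l => ν (φB L l)) + cz r)) : J ⊕ J → _) j ν) x) : ℂ)) =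
        (cv (ϑ (cz ν)) *
        (ζ ((q₀ : ℤ) • cz (mix L (fun l => ν (Sum.inl l)) (fun l => ν (Sum.inr (Sum.inl l)))) +
          cz r) x * conj (ζ ((q₀ : ℤ) • cz (mix L (fun l => ν (Sum.inl l))
          (fun l => ν (Sum.inr (Sum.inr l)))) + cz r) x))) := by
      intro ν
      rw [hP₁, Fintype.prod_sum_type, mixA, mixB]
      simp only [Sum.elim_inl, Sum.elim_inr, hζ, map_prod]
      congr 2
      refine Finset.prod_congr rfl fun j _ => ?_
      simp only [hF]
      rw [map_mul, map_mul, Complex.conj_ofReal]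
      congr 2
      unfold ex
      rw [← Complex.exp_conj, map_mul, Complex.conj_I, Complex.conj_ofReal]
      congr 1
      have hneg : g.G (-(h j)) (act.S (Q j ((q₀ : ℤ) • cz (fun l => ν (φB L l)) + cz r)) x) =
          -g.G (h j) (act.S (Q j ((q₀ : ℤ) • cz (fun l => ν (φB L l)) + cz r)) x) := by
        have h5 := g.smul (-1) (h j) (act.S (Q j ((q₀ : ℤ) • cz (fun l => ν (φB L l)) + cz r)) x)
        rw [neg_one_smul] at h5
        rw [h5]
        ring
      rw [hneg]
      push_cast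
      ring
    constructor
    · exact hx.1.congr fun ν => by rw [e1]
    · exact hx.2.congr fun ν => by rw [e1]
  have h1 := chars_K (μ := μ) π hπ.measurable ζ hζm hζ1 ho hcv hcv2 A hlin hnil Q hK ψ hT
  have h3 : ∀ᵐ x ∂μ, ∀ j (m : κ → ℕ), evg (ψ j) (π (act.S (pv (q j) m) x)) =
      evg (ψ j) (((oprod A (Q j (cz m)) : affc Z) : Equiv.Perm Z) (π x)) := by
    rw [ae_all_iff]
    intro j
    rw [ae_all_iff]
    intro m
    filter_upwards [heq (ψ j) (pv (q j) m)] with x hx
    rw [hx, hQcz]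
  filter_upwards [h1, h3] with x hx hx3
  refine hx.congr fun m => ?_
  congr 1
  rw [Finset.prod_mul_distrib]
  congr 1
  · refine Finset.prod_congr rfl fun j _ => ?_
    rw [hx3]
  · simp only [hζ, hF]
    refine Finset.prod_congr rfl fun j _ => ?_
    rw [hQcz]

end Pool.Agent.Lib.Pf720ca
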