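import Pool.Agent.Lib.Pf720ca.AffR
import Pool.Agent.Lib.Pf720ae.Aff.Chars

/-!
# Averages of products of affine characters with independent weights, one variable
-/

set_option autoImplicit false
set_option linter.unusedSectionVars false

open Finset MeasureTheory Filter Topology
open scoped ENNReal ComplexConjugate commutatorElement
open Pool.Agent.Lib.Pf720ae
open Pool.Agent.Lib.Pf720ae.Alg (LR dualHom dualHom_apply cz)
open Pool.Agent.Lib.Pf720ae.Aff

namespace Pool.Agent.Lib.Pf720ca

variable {X : Type} [CommGroup X] [TopologicalSpace X] [IsTopologicalGroup X]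
  [MeasurableSpace X] [BorelSpace X] {d : ℕ} {Ω : Type} [MeasurableSpace Ω] {μ : Measure Ω}
  [IsProbabilityMeasure μ]

/-- averages of products of characters along polynomial orbits of a nilpotent group of affine maps
with commuting linear parts, with independent weights -/
theorem chars_R {κ : Type} [Fintype κ] [DecidableEq κ] (hκ : Fintype.card κ = 1)
    {J : Type} [Fintype J] [DecidableEq J] (pr : Ω → X) (hpr : Measurable pr)
    (ζ : (κ → ℤ) → Ω → ℂ) (hζm : ∀ n, Measurable (ζ n)) (hζ1 : ∀ n x, ‖ζ n x‖ ≤ 1)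
    (horth : ∀ χ : X →ₜ* Circle, χ ≠ 1 → ∀ n n',
      ∫ x, ((χ (pr x) : Circle) : ℂ) * (ζ n x * conj (ζ n' x)) ∂μ = 0)
    (hζ : ∀ (q : ℕ) (r : κ → ℕ) (e' : ℕ) (θ : (κ → ℤ) → Additive Circle), PD e' θ → ∀ᵐ x ∂μ,
      Cvg (fun m : κ → ℕ => (cv (θ (cz m)) * ζ ((q : ℤ) • cz m + cz r) x).re) ∧
      Cvg (fun m : κ → ℕ => (cv (θ (cz m)) * ζ ((q : ℤ) • cz m + cz r) x).im))
    (T : Fin d → affc X) (hlin : ∀ i j x, linf (T i) (linf (T j) x) = linf (T j) (linf (T i) x))
    (hnil : Group.IsNilpotent (Subgroup.closure (Set.range fun i => ((T i : affc X) : Equiv.Perm X))))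
    {k : ℕ} (P : J → (κ → ℤ) → (Fin d → ℤ)) (hP : ∀ j, Nice k (P j)) (χg : J → Gam X)
    {Tt : ℂ → ℝ} (hT : Tt = Complex.re ∨ Tt = Complex.im) :
    ∀ᵐ x ∂μ, Cvg fun m : κ → ℕ =>
      Tt ((∏ j, ((evg (χg j) (((oprod T (P j (cz m)) : affc X) : Equiv.Perm X) (pr x)) : Circle)
        : ℂ)) * ζ (cz m) x) := by
  classical
  have hlinP : ∀ i j, linP (T i) * linP (T j) = linP (T j) * linP (T i) := fun i j =>
    Equiv.ext fun x => hlin i j x
  set W : (Fin d → ℤ) → (X →ₜ* X) := fun p => linf (oprod T p) with hW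
  have hWP : ∀ p x, W p x = oprod (fun i => linP (T i)) p x := by
    intro p x
    rw [← map_oprod]
    rfl
  have hW0 : ∀ x, W 0 x = x := by
    intro x
    rw [hWP, oprod_zero]
    rfl
  have hWadd : ∀ e e' x, W (e + e') x = W e (W e' x) := by
    intro e e' x
    rw [hWP, hWP, hWP, oprod_add _ hlinP]
    rfl
  have hWsingle : ∀ i z, W (Pi.single i z) = linf (T i ^ z) := by
    intro i z
    refine linf_eq_of_linP ?_
    rw [map_oprod, oprod_single _ hlinP, map_zpow]
  let _ : Module (LR d) (Additive (X →ₜ* Circle)) :=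
    Module.compHom _ (MonoidAlgebra.lift ℤ _ _ (dualHom W hW0 hWadd)).toRingHom
  have hsmul : ∀ (g : Multiplicative (Fin d → ℤ)) (ψ : Additive (X →ₜ* Circle)),
      ((uu d g : (LR d)ˣ) : LR d) • ψ = Additive.ofMul (ψ.toMul.comp (W g.toAdd)) := by
    intro g ψ
    change (MonoidAlgebra.lift ℤ _ _ (dualHom W hW0 hWadd))
      (MonoidAlgebra.of ℤ (Multiplicative (Fin d → ℤ)) g) ψ = _
    rw [MonoidAlgebra.lift_of]
    rfl
  set S : Set (Additive (X →ₜ* Circle)) := Set.range fun j => prg (χg j) with hS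
  set N := Submodule.span (LR d) S with hN
  have hnoeth : IsNoetherian (LR d) N :=
    isNoetherian_of_fg_of_noetherian N (Submodule.fg_span (Set.finite_range _))
  set χ' : J → N := fun j => ⟨prg (χg j), Submodule.subset_span ⟨j, rfl⟩⟩ with hχ'
  set ι : N →+ Additive (X →ₜ* Circle) := N.subtype.toAddMonoidHom with hι
  have hιinj : Function.Injective ι := Subtype.val_injective
  have hιapp : ∀ ν : N, ι ν = (ν : Additive (X →ₜ* Circle)) := fun _ => rfl
  have hχgπ : ∀ j, prg (χg j) = ι (χ' j) := fun _ => rfl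
  have hsurj : ∀ ν : N, ∃ ψ : Gam X, prg ψ = ι ν := fun ν =>
    ⟨Additive.ofMul (1, (ν : Additive (X →ₜ* Circle)).toMul), rfl⟩
  set τ : Fin d → (AddMonoid.End (Gam X))ˣ := fun i => pullU (T i) with hτ
  have hcomp : ∀ (σ : affc X) (p : Fin d → ℤ) (ψ : Gam X) (ν : N), linf σ = W p → prg ψ = ι ν →
      prg (pull σ ψ) = ι (uu d (Multiplicative.ofAdd p) • ν) := by
    intro σ p ψ ν h1 h2
    rw [prg_pull, h1, h2]
    exact (hsmul (Multiplicative.ofAdd p) ν).symm
  have hτπ : ∀ i (z : ℤ) ψ ν, prg ψ = ι ν →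
      prg (((τ i ^ z : (AddMonoid.End (Gam X))ˣ) : AddMonoid.End (Gam X)) ψ) =
        ι (uu d (Multiplicative.ofAdd (Pi.single i z)) • ν) := by
    intro i z ψ ν h
    rw [hτ, pullU_zpow]
    exact hcomp _ _ _ _ (hWsingle i z).symm h
  have hker : ∀ (σ : affc X) (ψ : Gam X), prg ψ = 0 → pull σ ψ = ψ := by
    intro σ ψ h
    refine evg_ext fun x => ?_
    rw [evg_pull]
    have h1 : ψ.toMul.2 = 1 := h
    unfold evg
    rw [h1]
    rfl
  have hτc : ∀ i (z : ℤ) ψ, prg ψ = 0 →
      ((τ i ^ z : (AddMonoid.End (Gam X))ˣ) : AddMonoid.End (Gam X)) ψ = ψ := by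
    intro i z ψ h
    rw [hτ, pullU_zpow]
    exact hker _ _ h
  -- nilpotency
  set H : Subgroup (Equiv.Perm X) :=
    Subgroup.closure (Set.range fun i => ((T i : affc X) : Equiv.Perm X)) with hH
  have hTH : ∀ i, ((T i : affc X) : Equiv.Perm X) ∈ H := fun i =>
    Subgroup.subset_closure ⟨i, rfl⟩
  have hpH : ∀ p, ((oprod T p : affc X) : Equiv.Perm X) ∈ H := by
    intro p
    have h1 : ((oprod T p : affc X) : Equiv.Perm X) =
        oprod (fun i => ((T i : affc X) : Equiv.Perm X)) p := map_oprod (affc X).subtype T p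
    rw [h1]
    exact oprod_mem hTH p
  obtain ⟨s, hs⟩ := (Subgroup.isNilpotent_iff_lowerCentralSeries H).1 hnil
  have hBs : ∀ b ∈ Bset H s, b = 1 := by
    intro b hb
    have h1 : Equiv.mulLeft b ∈ H.lowerCentralSeries s := hb
    rw [hs, Subgroup.mem_bot] at h1
    have h2 := congrArg (fun σ : Equiv.Perm X => σ 1) h1
    exact (mul_one b).symm.trans h2
  have hB : ∀ r t, r + t = s → ∀ ν ∈ aug d ^ r • (⊤ : Submodule (LR d) N), ∀ b ∈ Bset H t,
      (ν : Additive (X →ₜ* Circle)).toMul b = 1 := by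
    intro r
    induction r with
    | zero =>
      intro t ht ν _ b hb
      rw [zero_add] at ht
      subst ht
      rw [hBs b hb, map_one]
    | succ r ih =>
      intro t ht ν hν b hb
      rw [pow_succ', Submodule.mul_smul] at hν
      have ih' := ih (t + 1) (by omega)
      have key : ∀ a ∈ aug d, ∀ ν' ∈ aug d ^ r • (⊤ : Submodule (LR d) N), ∀ b ∈ Bset H t,
          ((a • ν' : N) : Additive (X →ₜ* Circle)).toMul b = 1 := by
        intro a ha
        induction ha using Submodule.span_induction with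
        | mem a ha =>
          obtain ⟨g, rfl⟩ := ha
          intro ν' hν' b hb
          have h1 : ((((uu d g : LR d) - 1) • ν' : N) : Additive (X →ₜ* Circle)) =
              Additive.ofMul ((ν' : Additive (X →ₜ* Circle)).toMul.comp (W g.toAdd)) -
                (ν' : Additive (X →ₜ* Circle)) := by
            have h2 := sub_smul (uu d g : LR d) 1 ν'
            rw [h2, one_smul, ← hsmul]
            rfl
          rw [h1]
          change (ν' : Additive (X →ₜ* Circle)).toMul (W g.toAdd b) /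
            (ν' : Additive (X →ₜ* Circle)).toMul b = 1
          rw [← map_div]
          exact ih' ν' hν' _ (Bset_succ hb _ (hpH _))
        | zero =>
          intro ν' _ b _
          rw [zero_smul]
          rfl
        | add a a' _ _ h1 h2 =>
          intro ν' hν' b hb
          rw [add_smul]
          change ((a • ν' : N) : Additive (X →ₜ* Circle)).toMul b *
            ((a' • ν' : N) : Additive (X →ₜ* Circle)).toMul b = 1
          rw [h1 ν' hν' b hb, h2 ν' hν' b hb, one_mul]
        | smul c a _ h1 =>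
          intro ν' hν' b hb
          rw [smul_eq_mul, mul_comm, mul_smul]
          exact h1 _ (Submodule.smul_mem _ c hν') b hb
      refine Submodule.smul_induction_on (p := fun ν : N =>
        (ν : Additive (X →ₜ* Circle)).toMul b = 1) hν (fun a ha ν' hν' => key a ha ν' hν' b hb)
        (fun ν₁ ν₂ h1 h2 => ?_)
      change (ν₁ : Additive (X →ₜ* Circle)).toMul b * (ν₂ : Additive (X →ₜ* Circle)).toMul b = 1
      rw [h1, h2, one_mul]
  have hcommB : ∀ ν ∈ aug d ^ s • (⊤ : Submodule (LR d) N), ∀ ψ : Gam X, prg ψ = ι ν → ∀ i j,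
      (τ i : AddMonoid.End (Gam X)) ((τ j : AddMonoid.End (Gam X)) ψ) =
        (τ j : AddMonoid.End (Gam X)) ((τ i : AddMonoid.End (Gam X)) ψ) := by
    intro ν hν ψ hψ i j
    change pull (T i) (pull (T j) ψ) = pull (T j) (pull (T i) ψ)
    rw [← pull_mul, ← pull_mul]
    set c : affc X := T j * T i * (T j)⁻¹ * (T i)⁻¹ with hc
    have h1 : T j * T i = c * (T i * T j) := by
      rw [hc]; group
    have h2 : linP c = 1 := by
      rw [hc, map_mul, map_mul, map_mul, map_inv, map_inv, hlinP j i]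
      group
    have h3 : ∀ x, (c : Equiv.Perm X) x = (c : Equiv.Perm X) 1 * x := by
      intro x
      have h4 : linP c x = x := by rw [h2]; rfl
      rw [linP_apply, linf_apply, div_eq_iff_eq_mul'] at h4
      exact h4
    have hcH : (c : Equiv.Perm X) ∈ H := by
      rw [hc]
      exact H.mul_mem (H.mul_mem (H.mul_mem (hTH j) (hTH i)) (H.inv_mem (hTH j)))
        (H.inv_mem (hTH i))
    have hb : (c : Equiv.Perm X) 1 ∈ Bset H 0 := by
      have h4 : Equiv.mulLeft ((c : Equiv.Perm X) 1) = (c : Equiv.Perm X) :=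
        Equiv.ext fun x => (h3 x).symm
      change Equiv.mulLeft ((c : Equiv.Perm X) 1) ∈ H.lowerCentralSeries 0
      rw [h4]
      exact hcH
    have h5 : pull c ψ = ψ := by
      refine evg_ext fun x => ?_
      rw [evg_pull, h3]
      unfold evg
      rw [map_mul]
      have h6 := hB s 0 (by omega) ν hν _ hb
      have h7 : ψ.toMul.2 = (ν : Additive (X →ₜ* Circle)).toMul := hψ
      rw [h7, h6, one_mul]
    rw [h1, pull_mul, h5]
  -- the abstract theorem
  set w : J → (Fin d → ℤ) → Gam X := fun j p => wl τ (List.finRange d) p (χg j) with hw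
  have hweq : ∀ j p, w j p = pull (oprod T p) (χg j) := fun j p => wl_eq T p _
  set κc : (prg (X := X)).ker →+ Additive Circle :=
    { toFun := fun c => Additive.ofMul (c : Gam X).toMul.1
      map_zero' := rfl
      map_add' := fun _ _ => rfl } with hκc
  set e : Gam X → Ω → ℂ := fun ψ x => ((evg ψ (pr x) : Circle) : ℂ) with he
  have hem : ∀ ψ, Measurable (e ψ) := by
    intro ψ
    have h1 : Continuous fun y : X => ((evg ψ y : Circle) : ℂ) := by
      refine continuous_subtype_val.comp ?_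
      exact continuous_const.mul (map_continuous ψ.toMul.2)
    exact h1.measurable.comp hpr
  have he1 : ∀ ψ x, ‖e ψ x‖ ≤ 1 := fun ψ x => (Circle.norm_coe _).le
  have heC : ∀ (ψ : Gam X) (c : (prg (X := X)).ker) (x : Ω), e (ψ + c) x = cv (κc c) * e ψ x := by
    intro ψ c x₀
    obtain ⟨x, hx⟩ : ∃ x, x = pr x₀ := ⟨_, rfl⟩
    have h1 : (c : Gam X).toMul.2 = 1 := c.2
    have h2 : evg (ψ + (c : Gam X)) x = (c : Gam X).toMul.1 * evg ψ x := by
      change ψ.toMul.1 * (c : Gam X).toMul.1 * (ψ.toMul.2 x * (c : Gam X).toMul.2 x) = _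
      rw [h1]
      unfold evg
      change ψ.toMul.1 * (c : Gam X).toMul.1 * (ψ.toMul.2 x * 1) = _
      rw [mul_one, mul_comm ψ.toMul.1, mul_assoc]
    change ((evg (ψ + (c : Gam X)) (pr x₀) : Circle) : ℂ) = _
    rw [← hx, h2, Circle.coe_mul, hx]
    rfl
  have heorth : ∀ (ψ ψ' : Gam X) (n n' : κ → ℤ), prg ψ ≠ prg ψ' →
      ∫ x, (e ψ x * ζ n x) * conj (e ψ' x * ζ n' x) ∂μ = 0 := by
    intro ψ ψ' n n' hne
    have h1 := horth (ψ.toMul.2 / ψ'.toMul.2) (by
      intro h
      exact hne (Additive.toMul.injective (div_eq_one.1 h))) n n'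
    have h2 : ∀ x, (e ψ x * ζ n x) * conj (e ψ' x * ζ n' x) =
        ((ψ.toMul.1 / ψ'.toMul.1 : Circle) : ℂ) *
        ((((ψ.toMul.2 / ψ'.toMul.2) (pr x) : Circle) : ℂ) * (ζ n x * conj (ζ n' x))) := by
      intro x
      have h3 : e ψ x * conj (e ψ' x) = ((ψ.toMul.1 / ψ'.toMul.1 : Circle) : ℂ) *
          (((ψ.toMul.2 / ψ'.toMul.2) (pr x) : Circle) : ℂ) := by
        simp only [he]
        rw [← Circle.coe_inv_eq_conj, ← Circle.coe_mul, ← Circle.coe_mul]
        congr 1
        change ψ.toMul.1 * ψ.toMul.2 (pr x) * (ψ'.toMul.1 * ψ'.toMul.2 (pr x))⁻¹ =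
          ψ.toMul.1 / ψ'.toMul.1 * (ψ.toMul.2 (pr x) / ψ'.toMul.2 (pr x))
        rw [div_mul_div_comm, div_eq_mul_inv]
      rw [map_mul]
      calc e ψ x * ζ n x * (conj (e ψ' x) * conj (ζ n' x)) =
          (e ψ x * conj (e ψ' x)) * (ζ n x * conj (ζ n' x)) := by ring
        _ = _ := by rw [h3]; ring
    simp only [h2]
    rw [integral_const_mul, h1, mul_zero]
  have h1 := aff_ae3 (μ := μ) (N := N)
    (fun n a hn h => by
      funext i
      have h3 := congrFun h i
      rw [Pi.smul_apply, nsmul_eq_mul, Pi.zero_apply] at h3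
      rcases mul_eq_zero.1 h3 with h4 | h4
      · exfalso
        have : n = 0 := by exact_mod_cast h4
        omega
      · exact h4)
    (uu d) χ' w (prg (X := X)) ι hιinj
    (fun j p => by
      rw [hweq]
      exact hcomp _ p _ _ rfl (hχgπ j))
    κc hem he1 heC hκ ζ hζm hζ1 heorth
    (fun V _ k => hpoly_nil (prg (X := X)) ι hιinj hsurj τ hτc hτπ hcommB χg
      (fun j => ⟨χ' j, hχgπ j⟩) V k)
    hζ hT k P hP
  filter_upwards [h1] with x₀ hx
  refine hx.congr fun m => ?_
  congr 2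
  obtain ⟨x, hx'⟩ : ∃ x, x = pr x₀ := ⟨_, rfl⟩
  rw [← hx']
  let evh : Gam X →+ Additive Circle :=
    { toFun := fun ψ => Additive.ofMul (evg ψ x)
      map_zero' := by
        change Additive.ofMul ((1 : Circle) * 1) = 0
        rw [mul_one]
        rfl
      map_add' := fun a b => by
        change Additive.ofMul ((a.toMul.1 * b.toMul.1) * (a.toMul.2 x * b.toMul.2 x)) =
          Additive.ofMul ((a.toMul.1 * a.toMul.2 x) * (b.toMul.1 * b.toMul.2 x))
        rw [mul_mul_mul_comm] }
  have h2 : evh (Fw w P (cz m)) =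
      ∑ j, Additive.ofMul (evg (χg j) (((oprod T (P j (cz m)) : affc X) : Equiv.Perm X) x)) := by
    unfold Fw
    rw [map_sum]
    refine Finset.sum_congr rfl fun j _ => ?_
    rw [hweq]
    change Additive.ofMul (evg (pull (oprod T (P j (cz m))) (χg j)) x) = _
    rw [evg_pull]
  have h3 := congrArg Additive.toMul h2
  rw [toMul_sum] at h3
  have h4 := congrArg (fun z : Circle => Circle.coeHom z) h3
  have h5 : e (Fw w P (cz m)) x₀ = Circle.coeHom (Additive.toMul (evh (Fw w P (cz m)))) := by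
    show ((evg (Fw w P (cz m)) (pr x₀) : Circle) : ℂ) = ((evg (Fw w P (cz m)) x : Circle) : ℂ)
    rw [hx']
  refine (h5.trans h4).trans ?_
  change Circle.coeHom (∏ j, evg (χg j) (((oprod T (P j (cz m)) : affc X) : Equiv.Perm X) x)) =
    ∏ j, Circle.coeHom (evg (χg j) (((oprod T (P j (cz m)) : affc X) : Equiv.Perm X) x))
  rw [map_prod]

end Pool.Agent.Lib.Pf720ca
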