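import Pool.Agent.Lib.Pf720ae.Aff.Mv
import Pool.Agent.Lib.Pf720ae.Aff.Weyl
import Mathlib.Algebra.Group.ForwardDiff

/-!
# Integer polynomials as polynomial maps, phases of polynomial maps in one variable
-/

set_option autoImplicit false
set_option linter.unusedSectionVars false

open Finset
open scoped fwdDiff

namespace Pool.Agent.Lib.Pf720ca

open Pool.Agent.Lib.Pf720ae.Aff
open Pool.Agent.Lib.Pf720ae.Alg (cz)

variable {κ : Type} [Fintype κ] [DecidableEq κ]

lemma mv_pd' (p : MvPolynomial κ ℤ) :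
    ∃ K : ℕ, PD K (fun n : κ → ℤ => MvPolynomial.eval n p) := by
  induction p using MvPolynomial.induction_on with
  | C a =>
    refine ⟨1, ?_⟩
    simp only [MvPolynomial.eval_C]
    exact PD.const a
  | add p q hp hq =>
    obtain ⟨K, hK⟩ := hp
    obtain ⟨K', hK'⟩ := hq
    refine ⟨max K K', ?_⟩
    simp only [map_add]
    exact (hK.mono (le_max_left _ _)).add (hK'.mono (le_max_right _ _))
  | mul_X p i hp =>
    obtain ⟨K, hK⟩ := hp
    refine ⟨K + 2, ?_⟩
    simp only [map_mul, MvPolynomial.eval_X]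
    have h1 : PD 2 (fun n : κ → ℤ => n i) := by
      intro h h'
      funext n
      simp only [df_apply, Pi.add_apply, Pi.zero_apply]
      ring
    exact PD.bilin (AddMonoidHom.mul (R := ℤ)) hK h1

lemma mv_dvd' (p : MvPolynomial κ ℤ) (q : ℕ) (n r : κ → ℤ) :
    ∃ b : ℤ, MvPolynomial.eval (q • n + r) p - MvPolynomial.eval r p = q • b := by
  induction p using MvPolynomial.induction_on with
  | C a => exact ⟨0, by simp⟩
  | add p p' hp hp' =>
    obtain ⟨b, hb⟩ := hp
    obtain ⟨b', hb'⟩ := hp'
    refine ⟨b + b', ?_⟩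
    rw [smul_add, ← hb, ← hb', map_add, map_add]
    ring
  | mul_X p i hp =>
    obtain ⟨b, hb⟩ := hp
    refine ⟨b * (q • n + r) i + MvPolynomial.eval r p * n i, ?_⟩
    rw [map_mul, map_mul, MvPolynomial.eval_X, MvPolynomial.eval_X]
    have h1 : MvPolynomial.eval (q • n + r) p = q • b + MvPolynomial.eval r p := by
      rw [← hb]; ring
    have h2 : (q • n + r) i = (q : ℤ) * n i + r i := by
      rw [Pi.add_apply, Pi.smul_apply, nsmul_eq_mul]
    rw [h1, h2]
    simp only [nsmul_eq_mul]
    ring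

lemma mv_nice' {d : ℕ} (p : Fin d → MvPolynomial κ ℤ) :
    ∃ K : ℕ, Nice K (fun n : κ → ℤ => fun i => MvPolynomial.eval n (p i)) := by
  choose K hK using fun i => mv_pd' (p i)
  refine ⟨∑ i, K i, ⟨?_, ?_⟩⟩
  · have h1 : (fun n : κ → ℤ => fun i => MvPolynomial.eval n (p i)) =
        ∑ i, fun n : κ → ℤ => AddMonoidHom.single (fun _ : Fin d => ℤ) i
          (MvPolynomial.eval n (p i)) := by
      funext n i
      rw [Finset.sum_apply, Finset.sum_apply]
      simp only [AddMonoidHom.single_apply]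
      rw [Finset.sum_eq_single i]
      · rw [Pi.single_eq_same]
      · intro j _ hj
        rw [Pi.single_eq_of_ne hj.symm]
      · intro h
        exact absurd (Finset.mem_univ i) h
    rw [h1]
    refine PD.sum _ fun i _ => ?_
    refine PD.comp_hom ?_ _
    exact (hK i).mono (Finset.single_le_sum (fun _ _ => Nat.zero_le _) (Finset.mem_univ i))
  · intro q n r
    choose b hb using fun i => mv_dvd' (p i) q n r
    exact ⟨b, funext fun i => hb i⟩

/-- a larger degree is allowed -/
lemma nice_mono {V A : Type*} [AddCommGroup V] [AddCommGroup A] {k k' : ℕ} {f : V → A}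
    (h : Nice k f) (hk : k ≤ k') : Nice k' f := ⟨h.1.mono hk, h.2⟩

/-- binomial coefficients are polynomials -/
lemma exists_choose (l : κ) (k : ℕ) : ∃ p : MvPolynomial κ ℝ, ∀ m : κ → ℕ,
    MvPolynomial.eval (fun l => (m l : ℝ)) p = ((m l).choose k : ℝ) := by
  induction k with
  | zero => exact ⟨1, fun m => by simp⟩
  | succ k ih =>
    obtain ⟨p, hp⟩ := ih
    refine ⟨MvPolynomial.C (1 / ((k : ℝ) + 1)) * p * (MvPolynomial.X l - MvPolynomial.C (k : ℝ)),
      fun m => ?_⟩
    rw [map_mul, map_mul, hp, map_sub, MvPolynomial.eval_C, MvPolynomial.eval_C,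
      MvPolynomial.eval_X]
    have h1 := Nat.choose_succ_right_eq (m l) k
    have h2 : (((m l).choose (k + 1) : ℕ) : ℝ) * ((k : ℝ) + 1) =
        ((m l).choose k : ℝ) * ((m l : ℝ) - k) := by
      rcases le_or_gt k (m l) with h | h
      · have h3 : (((m l).choose (k + 1) * (k + 1) : ℕ) : ℝ) =
            (((m l).choose k * (m l - k) : ℕ) : ℝ) := by rw [h1]
        push_cast [Nat.cast_sub h] at h3
        exact h3
      · rw [Nat.choose_eq_zero_of_lt h, Nat.choose_eq_zero_of_lt (by omega)]
        simp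
    have h3 : (0 : ℝ) < (k : ℝ) + 1 := by positivity
    field_simp
    linarith

lemma fwd_eq_zero {V A : Type*} [AddCommGroup V] [AddCommGroup A] (h : V) {k : ℕ} {f : V → A}
    (hf : PD k f) : (fwdDiff h)^[k] f = 0 := by
  induction k generalizing f with
  | zero => exact hf
  | succ k ih =>
    rw [Function.iterate_succ_apply]
    exact ih (hf h)

/-- polynomial maps in one variable with values in the circle are phases of real polynomials -/
theorem cv_poly (hκ : Fintype.card κ = 1) {e' : ℕ} {θ : (κ → ℤ) → Additive Circle}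
    (hθ : PD e' θ) : ∃ P : MvPolynomial κ ℝ, ∀ m : κ → ℕ, cv (θ (cz m)) =
      Complex.exp ((MvPolynomial.eval (fun l => (m l : ℝ)) P : ℝ) * Complex.I) := by
  obtain ⟨l₀, hl₀⟩ := Fintype.card_eq_one_iff.1 hκ
  set h : κ → ℤ := fun _ => 1 with hh
  set a : ℕ → Additive Circle := fun k => (fwdDiff h)^[k] θ 0 with ha
  have ha0 : ∀ k, e' ≤ k → a k = 0 := by
    intro k hk
    simp only [ha]
    rw [fwd_eq_zero h (hθ.mono hk)]
    rfl
  have hval : ∀ m : κ → ℕ, θ (cz m) = ∑ k ∈ range e', (m l₀).choose k • a k := by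
    intro m
    have h1 := shift_eq_sum_fwdDiff_iter h θ (m l₀) 0
    have h2 : (0 : κ → ℤ) + (m l₀) • h = cz m := by
      funext l
      rw [hl₀ l]
      simp [hh, cz]
    rw [h2] at h1
    rw [h1]
    have h3 : ∀ N, N ≤ max e' (m l₀ + 1) → (∀ k, N ≤ k → (m l₀).choose k • a k = 0) →
        ∑ k ∈ range N, (m l₀).choose k • a k =
          ∑ k ∈ range (max e' (m l₀ + 1)), (m l₀).choose k • a k := by
      intro N hN0 hN
      refine Finset.sum_subset (range_subset_range.2 hN0) (fun k _ hk => ?_)
      rw [mem_range, not_lt] at hk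
      exact hN k hk
    have h4 := h3 (m l₀ + 1) (le_max_right _ _) fun k hk => by
      rw [Nat.choose_eq_zero_of_lt (by omega), zero_smul]
    have h5 := h3 e' (le_max_left _ _) fun k hk => by rw [ha0 k hk, smul_zero]
    exact h4.trans h5.symm
  choose t ht using fun k => (⟨_, Circle.exp_arg (a k).toMul⟩ : ∃ t, Circle.exp t = (a k).toMul)
  choose p hp using fun k => exists_choose l₀ k
  refine ⟨∑ k ∈ range e', MvPolynomial.C (t k) * p k, fun m => ?_⟩
  have h1 : θ (cz m) = Circle.expHom (∑ k ∈ range e', ((m l₀).choose k : ℝ) * t k) := by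
    rw [hval, map_sum]
    refine Finset.sum_congr rfl fun k _ => ?_
    have h2 : (((m l₀).choose k : ℝ) * t k) = (m l₀).choose k • t k := by
      rw [nsmul_eq_mul]
    rw [h2, map_nsmul]
    congr 1
    exact (congrArg Additive.ofMul (ht k)).symm
  rw [h1]
  have h2 : ∀ x : ℝ, cv (Circle.expHom x) = Complex.exp (x * Complex.I) := by
    intro x
    exact Circle.coe_exp x
  rw [h2]
  congr 2
  rw [map_sum]
  push_cast
  refine Finset.sum_congr rfl fun k _ => ?_
  rw [map_mul, MvPolynomial.eval_C, hp]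
  push_cast
  ring

end Pool.Agent.Lib.Pf720ca
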