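import Pool.Agent.Lib.Pf720ca.MixedR
import Pool.Agent.Lib.Pf720ca.CharsR
import Pool.Agent.Lib.Pf720ca.Poly
import Pool.Agent.Lib.Pf720pr.FinalW

/-!
# Affine characters times independent phases are good random weights in one variable
-/

set_option autoImplicit false
set_option linter.unusedSectionVars false

open Finset MeasureTheory Filter Topology ProbabilityTheory
open scoped ENNReal ComplexConjugate

namespace Pool.Agent.Lib.Pf720ca

open Pool.Agent.Lib.Pf720ae
open Pool.Agent.Lib.Pf720ae.Alg (cz norm_prod_le_one)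
open Pool.Agent.Lib.Pf720ae.Aff (affc linf evg Gam oprod PD Nice cv)
open Pool.Agent.Lib.Pf720mp (Ex mon)
open Pool.Agent.Lib.Pf720pm (pv IsPol)
open Pool.Agent.Lib.Pf720pr (IsPh Pset GoodW goodW_poly isPol_pv)

variable {κ : Type} [Fintype κ] [DecidableEq κ] {d : ℕ}

lemma measurableSet_Cvg : MeasurableSet {w : (κ → ℕ) → ℝ | Cvg w} := by
  have h1 : ∀ M : κ → ℕ, Measurable fun w : (κ → ℕ) → ℝ => avg M w := by
    intro M
    unfold avg
    exact Measurable.const_mul (Finset.measurable_fun_sum _ fun m _ => measurable_pi_apply m) _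
  exact measurableSet_exists_tendsto h1

/-- the value of a polynomial at an affine point -/
lemma eval_affine (P : MvPolynomial κ ℤ) (q : ℕ) (r : κ → ℕ) :
    ∃ P' : MvPolynomial κ ℤ, ∀ m : κ → ℕ, MvPolynomial.eval (fun l => (m l : ℤ)) P' =
      MvPolynomial.eval ((q : ℤ) • cz m + cz r) P := by
  refine ⟨MvPolynomial.bind₁ (fun l => MvPolynomial.C (q : ℤ) * MvPolynomial.X l +
    MvPolynomial.C (r l : ℤ)) P, fun m => ?_⟩
  have h2 := MvPolynomial.eval₂Hom_bind₁ (RingHom.id ℤ) (fun l : κ => (m l : ℤ))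
    (fun l => MvPolynomial.C (q : ℤ) * MvPolynomial.X l + MvPolynomial.C (r l : ℤ)) P
  have h3 : MvPolynomial.eval (fun l => (m l : ℤ))
      (MvPolynomial.bind₁ (fun l => MvPolynomial.C (q : ℤ) * MvPolynomial.X l +
        MvPolynomial.C (r l : ℤ)) P) =
      MvPolynomial.eval (fun l => MvPolynomial.eval (fun l => (m l : ℤ))
        (MvPolynomial.C (q : ℤ) * MvPolynomial.X l + MvPolynomial.C (r l : ℤ))) P := h2
  rw [h3]
  congr 2
  funext l
  simp [cz]

/-- the product of the phases along polynomials -/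
lemma phase_prod' {X : Type} {mX : MeasurableSpace X} {μ : Measure X} [IsProbabilityMeasure μ]
    {J : Type} [Fintype J] [DecidableEq J] (act : MAct (Fin d → ℤ) X μ)
    (e : J → (κ → ℕ) → Fin d → ℤ)
    (he : ∀ j, IsPol (e j)) (E : J → X → ℂ) (hE : ∀ j, IsPh act (E j)) :
    ∀ᵐ x ∂μ, ∃ P : MvPolynomial κ ℝ, ∀ m : κ → ℕ, ∏ j, E j (act.S (e j m) x) =
      Complex.exp ((MvPolynomial.eval (fun l => (m l : ℝ)) P : ℝ) * Complex.I) := by
  filter_upwards [ae_all_iff.2 hE] with x hx
  choose p hp using hx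
  choose Pz hPz using he
  refine ⟨∑ j, MvPolynomial.bind₁ (fun i => (Pz j i).map (Int.castRingHom ℝ)) (p j), fun m => ?_⟩
  have h1 : ∀ j, MvPolynomial.eval (fun l => (m l : ℝ))
      (MvPolynomial.bind₁ (fun i => (Pz j i).map (Int.castRingHom ℝ)) (p j)) =
      MvPolynomial.eval (fun i => ((e j m i : ℤ) : ℝ)) (p j) := by
    intro j
    have h2 := MvPolynomial.eval₂Hom_bind₁ (RingHom.id ℝ) (fun l : κ => (m l : ℝ))
      (fun i => (Pz j i).map (Int.castRingHom ℝ)) (p j)
    have h3 : MvPolynomial.eval (fun l => (m l : ℝ))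
        (MvPolynomial.bind₁ (fun i => (Pz j i).map (Int.castRingHom ℝ)) (p j)) =
        MvPolynomial.eval (fun i => MvPolynomial.eval (fun l => (m l : ℝ))
          ((Pz j i).map (Int.castRingHom ℝ))) (p j) := h2
    rw [h3]
    congr 2
    funext i
    rw [hPz j m i, MvPolynomial.eval_map]
    have h4 := MvPolynomial.eval₂_comp_left (Int.castRingHom ℝ) (RingHom.id ℤ)
      (fun l => (m l : ℤ)) (Pz j i)
    have h5 : MvPolynomial.eval₂ (Int.castRingHom ℝ) (fun l => (m l : ℝ)) (Pz j i) =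
        (Int.castRingHom ℝ) (MvPolynomial.eval (fun l => (m l : ℤ)) (Pz j i)) := by
      have h6 : (Int.castRingHom ℝ) (MvPolynomial.eval (fun l => (m l : ℤ)) (Pz j i)) =
          (Int.castRingHom ℝ) (MvPolynomial.eval₂ (RingHom.id ℤ) (fun l => (m l : ℤ)) (Pz j i)) := by
        rw [MvPolynomial.eval₂_id]
      rw [h6, h4]
      congr 1
    rw [h5]
    rfl
  simp only [hp, map_sum, h1]
  rw [← Complex.exp_sum, ← Finset.sum_mul]
  push_cast
  rfl

variable {Z : Type} [CommGroup Z] [TopologicalSpace Z] [IsTopologicalGroup Z]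
  [MeasurableSpace Z] [BorelSpace Z] {lam : Measure Z} [IsProbabilityMeasure lam]

/-- affine characters times independent phases are good random weights -/
theorem goodP_aff {X : Type} {𝒜 : MeasurableSpace X} {mX : MeasurableSpace X} {μ : Measure X}
    [IsProbabilityMeasure μ] (act : MAct (Fin d → ℤ) X μ)
    (horth : ∀ χ : Z →ₜ* Circle, χ ≠ 1 → ∫ z, ((χ z : Circle) : ℂ) ∂lam = 0)
    {π : X → Z} (hπ : MeasurePreserving π μ lam)
    (A : Fin d → affc Z) (hlin : ∀ i j z, linf (A i) (linf (A j) z) = linf (A j) (linf (A i) z))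
    (hnil : Group.IsNilpotent (Subgroup.closure (Set.range fun i => ((A i : affc Z) : Equiv.Perm Z))))
    (heq : ∀ (ψ : Gam Z) (u : Fin d → ℤ), ∀ᵐ x ∂μ,
      evg ψ (π (act.S u x)) = evg ψ (((oprod A u : affc Z) : Equiv.Perm Z) (π x)))
    (hA : 𝒜 ≤ mX)
    (hind : Indep (MeasurableSpace.comap π inferInstance) 𝒜 μ)
    (hAinv : ∀ w, Measurable[𝒜, 𝒜] (act.S w)) (hκ : Fintype.card κ = 1)
    {Pu : Set (X → ℂ)} (hPu : ∀ E ∈ Pu, ∃ ψ : Gam Z, ∃ θ ∈ Pset 𝒜 act,
      E =ᵐ[μ] fun x => ((evg ψ (π x) : Circle) : ℂ) * θ x) : GoodP act κ Pu := by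
  intro J _ _ D q E hE
  choose ψ θ hθ hEeq using fun j => hPu (E j) (hE j)
  -- polynomials
  choose Pq hPq using fun j => isPol_pv (q j)
  set Q : J → (κ → ℤ) → Fin d → ℤ := fun j n i => MvPolynomial.eval n (Pq j i) with hQ
  have hQcz : ∀ j (m : κ → ℕ), Q j (cz m) = pv (q j) m := fun j m => by
    funext i
    exact (hPq j m i).symm
  obtain ⟨K, hK⟩ : ∃ K, ∀ j, Nice K (Q j) := by
    choose K hK using fun j => mv_nice' (Pq j)
    exact ⟨∑ j, K j, fun j => nice_mono (hK j)
      (Finset.single_le_sum (f := K) (fun _ _ => Nat.zero_le _) (Finset.mem_univ j))⟩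
  have hQpol : ∀ j (q₀ : ℕ) (r : κ → ℕ), IsPol fun m : κ → ℕ => Q j ((q₀ : ℤ) • cz m + cz r) := by
    intro j q₀ r
    choose P' hP' using fun i => eval_affine (Pq j i) q₀ r
    exact ⟨P', fun m i => (hP' i m).symm⟩
  have hθm : ∀ j u, Measurable[𝒜] fun x => θ j (act.S u x) := fun j u =>
    (hθ j).1.comp (hAinv u)
  -- the main statement
  have main : ∀ (C : Type) [Fintype C] [DecidableEq C] (e : C → (κ → ℕ) → Fin d → ℤ),
      (∀ c, IsPol (e c)) → ∀ F : (C → X) → ℝ, Measurable F → (∀ ω, |F ω| ≤ 1) →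
      ∀ T : ℂ → ℝ, (T = Complex.re ∨ T = Complex.im) →
      ∀ᵐ x ∂μ, ∀ᵐ ω ∂(Measure.pi fun _ : C => μ), Cvg fun m : κ → ℕ =>
        T (∏ j, E j (act.S (pv (q j) m) x)) * F (fun c => act.S (e c m) (ω c)) := by
    intro C _ _ e he F hF hF1 T hT
    choose Pe hPe using he
    set W : C → (κ → ℤ) → Fin d → ℤ := fun c n i => MvPolynomial.eval n (Pe c i) with hW
    have hWcz : ∀ c (m : κ → ℕ), W c (cz m) = e c m := fun c m => by
      funext i
      exact (hPe c m i).symm
    have hWpol : ∀ c (q₀ : ℕ) (r : κ → ℕ), IsPol fun m : κ → ℕ => W c ((q₀ : ℤ) • cz m + cz r) := by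
      intro c q₀ r
      choose P' hP' using fun i => eval_affine (Pe c i) q₀ r
      exact ⟨P', fun m i => (hP' i m).symm⟩
    set Ω := X × (C → X)
    set ζ : (κ → ℤ) → X × (C → X) → ℂ := fun n p =>
      (∏ j, θ j (act.S (Q j n) p.1)) * ((F fun c => act.S (W c n) (p.2 c) : ℝ) : ℂ) with hζ
    have hact : ∀ u, Measurable (act.S u) := fun u => (act.mp u).measurable
    have hFWm : ∀ n, Measurable fun ω : C → X => F fun c => act.S (W c n) (ω c) := fun n =>
      hF.comp (measurable_pi_iff.2 fun c => (hact _).comp (measurable_pi_apply c))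
    have hΘm : ∀ n, Measurable fun x => ∏ j, θ j (act.S (Q j n) x) := fun n =>
      Finset.measurable_fun_prod _ fun j _ => (hθm j _).mono hA le_rfl
    have hΘ1 : ∀ n x, ‖∏ j, θ j (act.S (Q j n) x)‖ ≤ 1 := fun n x =>
      norm_prod_le_one _ _ fun j => ((hθ j).2.1 _).le
    have hζm : ∀ n, Measurable (ζ n) := fun n =>
      ((hΘm n).comp measurable_fst).mul
        (Complex.measurable_ofReal.comp ((hFWm n).comp measurable_snd))
    have hζ1 : ∀ n p, ‖ζ n p‖ ≤ 1 := by
      intro n p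
      simp only [hζ]
      rw [norm_mul, Complex.norm_real]
      exact mul_le_one₀ (hΘ1 n _) (norm_nonneg _) (hF1 _)
    have hpr : Measurable fun p : X × (C → X) => π p.1 := hπ.measurable.comp measurable_fst
    -- orthogonality
    have ho : ∀ χ : Z →ₜ* Circle, χ ≠ 1 → ∀ n n', ∫ p, ((χ (π p.1) : Circle) : ℂ) *
        (ζ n p * conj (ζ n' p)) ∂(μ.prod (Measure.pi fun _ : C => μ)) = 0 := by
      intro χ hχ n n'
      have e1 : ∀ p : X × (C → X), ((χ (π p.1) : Circle) : ℂ) * (ζ n p * conj (ζ n' p)) =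
          (((χ (π p.1) : Circle) : ℂ) * ((∏ j, θ j (act.S (Q j n) p.1)) *
            conj (∏ j, θ j (act.S (Q j n') p.1)))) *
          (((F fun c => act.S (W c n) (p.2 c)) * (F fun c => act.S (W c n') (p.2 c)) : ℝ) : ℂ) := by
        intro p
        simp only [hζ]
        rw [map_mul, Complex.conj_ofReal]
        push_cast
        ring
      simp only [e1]
      rw [integral_prod_mul (fun x => ((χ (π x) : Circle) : ℂ) *
        ((∏ j, θ j (act.S (Q j n) x)) * conj (∏ j, θ j (act.S (Q j n') x))))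
        (fun ω : C → X => (((F fun c => act.S (W c n) (ω c)) *
          (F fun c => act.S (W c n') (ω c)) : ℝ) : ℂ))]
      have hχm : Measurable fun z : Z => ((χ z : Circle) : ℂ) :=
        (continuous_subtype_val.comp (map_continuous χ)).measurable
      have hYm : Measurable[𝒜] fun x => (∏ j, θ j (act.S (Q j n) x)) *
          conj (∏ j, θ j (act.S (Q j n') x)) := by
        refine Measurable.mul ?_ (Complex.continuous_conj.measurable.comp ?_)
        · exact Finset.measurable_fun_prod _ fun j _ => hθm j _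
        · exact Finset.measurable_fun_prod _ fun j _ => hθm j _
      have hif : IndepFun (fun x => ((χ (π x) : Circle) : ℂ))
          (fun x => (∏ j, θ j (act.S (Q j n) x)) * conj (∏ j, θ j (act.S (Q j n') x))) μ := by
        rw [IndepFun_iff_Indep]
        refine indep_of_indep_of_le_right (indep_of_indep_of_le_left hind ?_) ?_
        · rw [← measurable_iff_comap_le]
          exact hχm.comp (comap_measurable π)
        · exact hYm.comap_le
      have h1 := hif.integral_fun_mul_eq_mul_integral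
        (hχm.comp hπ.measurable).aestronglyMeasurable (hYm.mono hA le_rfl).aestronglyMeasurable
      have h2 : ∫ x, ((χ (π x) : Circle) : ℂ) ∂μ = 0 := by
        rw [← horth χ hχ, ← hπ.map_eq]
        rw [integral_map hπ.measurable.aemeasurable hχm.aestronglyMeasurable]
      rw [h1, h2, zero_mul, zero_mul]
    -- the inactive case
    have hcv : ∀ (q₀ : ℕ) (r : κ → ℕ) (e' : ℕ) (ϑ : (κ → ℤ) → Additive Circle), PD e' ϑ →
        ∀ᵐ p ∂(μ.prod (Measure.pi fun _ : C => μ)),
        Cvg (fun m : κ → ℕ => (cv (ϑ (cz m)) * ζ ((q₀ : ℤ) • cz m + cz r) p).re) ∧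
        Cvg (fun m : κ → ℕ => (cv (ϑ (cz m)) * ζ ((q₀ : ℤ) • cz m + cz r) p).im) := by
      intro q₀ r e' ϑ hϑ
      obtain ⟨P₁, hP₁⟩ := cv_poly hκ hϑ
      have hms : MeasurableSet {p : X × (C → X) |
          Cvg (fun m : κ → ℕ => (cv (ϑ (cz m)) * ζ ((q₀ : ℤ) • cz m + cz r) p).re) ∧
          Cvg (fun m : κ → ℕ => (cv (ϑ (cz m)) * ζ ((q₀ : ℤ) • cz m + cz r) p).im)} := by
        have h1 : Measurable fun p : X × (C → X) => fun m : κ → ℕ =>
            (cv (ϑ (cz m)) * ζ ((q₀ : ℤ) • cz m + cz r) p).re :=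
          measurable_pi_iff.2 fun m => Complex.measurable_re.comp ((hζm _).const_mul _)
        have h2 : Measurable fun p : X × (C → X) => fun m : κ → ℕ =>
            (cv (ϑ (cz m)) * ζ ((q₀ : ℤ) • cz m + cz r) p).im :=
          measurable_pi_iff.2 fun m => Complex.measurable_im.comp ((hζm _).const_mul _)
        exact (h1 measurableSet_Cvg).inter (h2 measurableSet_Cvg)
      refine (Measure.ae_prod_iff_ae_ae hms).2 ?_
      filter_upwards [phase_prod' act (fun j m => Q j ((q₀ : ℤ) • cz m + cz r))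
        (fun j => hQpol j q₀ r) θ (fun j => (hθ j).2.2)] with x hx
      obtain ⟨P₂, hP₂⟩ := hx
      have hg := goodW_poly act (P₁ + P₂)
      have h1 := hg.1 C (fun c m => W c ((q₀ : ℤ) • cz m + cz r)) (fun c => hWpol c q₀ r) F hF hF1
      have h2 := hg.2 C (fun c m => W c ((q₀ : ℤ) • cz m + cz r)) (fun c => hWpol c q₀ r) F hF hF1
      filter_upwards [h1, h2] with ω h1 h2
      have e1 : ∀ m : κ → ℕ, cv (ϑ (cz m)) * ζ ((q₀ : ℤ) • cz m + cz r) (x, ω) =
          Complex.exp ((MvPolynomial.eval (fun l => (m l : ℝ)) (P₁ + P₂) : ℝ) * Complex.I) *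
          ((F fun c => act.S (W c ((q₀ : ℤ) • cz m + cz r)) (ω c) : ℝ) : ℂ) := by
        intro m
        simp only [hζ]
        rw [hP₁, hP₂, ← mul_assoc, ← Complex.exp_add, map_add]
        push_cast
        ring_nf
      constructor
      · refine h1.congr fun m => ?_
        rw [e1, Complex.re_mul_ofReal, Complex.exp_ofReal_mul_I_re]
      · refine h2.congr fun m => ?_
        rw [e1, Complex.im_mul_ofReal, Complex.exp_ofReal_mul_I_im]
    have h1 := chars_R (μ := μ.prod (Measure.pi fun _ : C => μ)) hκ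
      (fun p : X × (C → X) => π p.1) hpr ζ hζm hζ1 ho hcv A hlin hnil Q hK ψ hT
    have h2 := Measure.ae_ae_of_ae_prod h1
    have h3 : ∀ᵐ x ∂μ, ∀ j (m : κ → ℕ), E j (act.S (pv (q j) m) x) =
        ((evg (ψ j) (((oprod A (Q j (cz m)) : affc Z) : Equiv.Perm Z) (π x)) : Circle) : ℂ) *
          θ j (act.S (Q j (cz m)) x) := by
      rw [ae_all_iff]
      intro j
      rw [ae_all_iff]
      intro m
      have h4 := (act.mp (pv (q j) m)).quasiMeasurePreserving.ae (hEeq j)
      filter_upwards [h4, heq (ψ j) (pv (q j) m)] with x hx1 hx2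
      rw [hx1, hx2, hQcz]
    filter_upwards [h2, h3] with x hx1 hx2
    filter_upwards [hx1] with ω hω
    refine hω.congr fun m => ?_
    have e1 : (∏ j, ((evg (ψ j) (((oprod A (Q j (cz m)) : affc Z) : Equiv.Perm Z) (π x)) : Circle)
        : ℂ)) * ζ (cz m) (x, ω) = (∏ j, E j (act.S (pv (q j) m) x)) *
          ((F fun c => act.S (e c m) (ω c) : ℝ) : ℂ) := by
      simp only [hζ, hx2, hWcz]
      rw [Finset.prod_mul_distrib, mul_assoc]
    show _ = _
    rw [e1]
    rcases hT with rfl | rfl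
    · rw [Complex.re_mul_ofReal]
    · rw [Complex.im_mul_ofReal]
  exact ⟨fun C _ _ e he F hF hF1 => main C e he F hF hF1 _ (Or.inl rfl),
    fun C _ _ e he F hF hF1 => main C e he F hF hF1 _ (Or.inr rfl)⟩

end Pool.Agent.Lib.Pf720ca
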