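import Pool.Agent.Lib.Pf720ca.Poly

/-!
# Polynomial maps in several variables with values in the circle
-/

set_option autoImplicit false
set_option linter.unusedSectionVars false

open Finset Filter Topology
open scoped ENNReal ComplexConjugate
open Pool.Agent.Lib.Pf720ae
open Pool.Agent.Lib.Pf720ae.Alg (cz)
open Pool.Agent.Lib.Pf720ae.Aff

namespace Pool.Agent.Lib.Pf720ca

variable {κ : Type} [Fintype κ] [DecidableEq κ]

lemma pd_fwd {V A : Type*} [AddCommGroup V] [AddCommGroup A] (h : V) {k : ℕ} {f : V → A}
    (hf : PD k f) : PD k (fwdDiff h f) := by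
  cases k with
  | zero =>
    have : f = 0 := hf
    rw [this]
    show fwdDiff h (0 : V → A) = 0
    funext n
    simp [fwdDiff]
  | succ k => exact (hf h).mono (Nat.le_succ k)

lemma pd_fwd_iter {V A : Type*} [AddCommGroup V] [AddCommGroup A] (h : V) {k : ℕ} (j : ℕ)
    {f : V → A} (hf : PD k f) : PD k ((fwdDiff h)^[j] f) := by
  induction j generalizing f with
  | zero => exact hf
  | succ j ih =>
    rw [Function.iterate_succ_apply]
    exact ih (pd_fwd h hf)

/-- polynomial maps in several variables with values in the circle are exponentials of real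
polynomials -/
theorem poly_lift {e' : ℕ} (s : Finset κ) : ∀ θ : (κ → ℤ) → Additive Circle, PD e' θ →
    ∃ P : MvPolynomial κ ℝ, ∀ m : κ → ℕ, (∀ l ∉ s, m l = 0) →
      θ (cz m) = Circle.expHom (MvPolynomial.eval (fun l => (m l : ℝ)) P) := by
  induction s using Finset.induction_on with
  | empty =>
    intro θ _
    obtain ⟨t, ht⟩ : ∃ t, Circle.exp t = (θ 0).toMul := ⟨_, Circle.exp_arg (θ 0).toMul⟩
    refine ⟨MvPolynomial.C t, fun m hm => ?_⟩
    have h0 : cz m = (0 : κ → ℤ) := by
      funext l
      simp [cz, hm l (Finset.notMem_empty l)]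
    rw [h0, MvPolynomial.eval_C]
    exact (congrArg Additive.ofMul ht).symm
  | insert a s ha ih =>
    intro θ hθ
    set h : κ → ℤ := Pi.single a 1 with hh
    choose P hP using fun k : ℕ => ih ((fwdDiff h)^[k] θ) (pd_fwd_iter h k hθ)
    choose p hp using fun k => exists_choose a k
    refine ⟨∑ k ∈ range e', p k * MvPolynomial.bind₁ (fun l => if l = a then 0 else
      MvPolynomial.X l) (P k), fun m hm => ?_⟩
    set m' : κ → ℕ := Function.update m a 0 with hm'
    have hm's : ∀ l ∉ s, m' l = 0 := by
      intro l hl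
      by_cases hla : l = a
      · subst hla
        simp [hm']
      · rw [hm', Function.update_of_ne hla]
        exact hm l fun h => (Finset.mem_insert.1 h).elim hla hl
    have hcz : cz m' + (m a) • h = cz m := by
      funext l
      by_cases hla : l = a
      · subst hla
        simp [hh, cz, hm']
      · simp [hh, cz, hm', Function.update_of_ne hla, Pi.single_eq_of_ne hla]
    have h1 := shift_eq_sum_fwdDiff_iter h θ (m a) (cz m')
    rw [hcz] at h1
    have hz : ∀ k, e' ≤ k → (fwdDiff h)^[k] θ (cz m') = 0 := by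
      intro k hk
      rw [fwd_eq_zero h (hθ.mono hk)]
      rfl
    have h2 : θ (cz m) = ∑ k ∈ range e', (m a).choose k • (fwdDiff h)^[k] θ (cz m') := by
      rw [h1]
      have h3 : ∀ N, N ≤ max e' (m a + 1) →
          (∀ k, N ≤ k → (m a).choose k • (fwdDiff h)^[k] θ (cz m') = 0) →
          ∑ k ∈ range N, (m a).choose k • (fwdDiff h)^[k] θ (cz m') =
            ∑ k ∈ range (max e' (m a + 1)), (m a).choose k • (fwdDiff h)^[k] θ (cz m') := by
        intro N hN0 hN
        refine Finset.sum_subset (range_subset_range.2 hN0) (fun k _ hk => ?_)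
        rw [mem_range, not_lt] at hk
        exact hN k hk
      have h4 := h3 (m a + 1) (le_max_right _ _) fun k hk => by
        rw [Nat.choose_eq_zero_of_lt (by omega), zero_smul]
      have h5 := h3 e' (le_max_left _ _) fun k hk => by rw [hz k hk, smul_zero]
      exact h4.trans h5.symm
    rw [h2, map_sum, map_sum]
    refine Finset.sum_congr rfl fun k _ => ?_
    have hev : MvPolynomial.eval (fun l => (m l : ℝ)) (MvPolynomial.bind₁ (fun l => if l = a then 0
        else MvPolynomial.X l) (P k)) = MvPolynomial.eval (fun l => (m' l : ℝ)) (P k) := by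
      have h6 := MvPolynomial.eval₂Hom_bind₁ (RingHom.id ℝ) (fun l : κ => (m l : ℝ))
        (fun l => if l = a then 0 else MvPolynomial.X l) (P k)
      have h7 : MvPolynomial.eval (fun l => (m l : ℝ)) (MvPolynomial.bind₁ (fun l => if l = a then 0
          else MvPolynomial.X l) (P k)) = MvPolynomial.eval (fun l => MvPolynomial.eval
          (fun l => (m l : ℝ)) (if l = a then 0 else MvPolynomial.X l)) (P k) := h6
      rw [h7]
      congr 2
      funext l
      by_cases hla : l = a
      · subst hla
        simp [hm']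
      · simp [hla, hm', Function.update_of_ne hla]
    rw [map_mul, hp, hev, hP k m' hm's]
    have h8 : (((m a).choose k : ℝ) * MvPolynomial.eval (fun l => (m' l : ℝ)) (P k)) =
        (m a).choose k • MvPolynomial.eval (fun l => (m' l : ℝ)) (P k) := by
      rw [nsmul_eq_mul]
    rw [h8, map_nsmul]

theorem cv_polyK {e' : ℕ} {θ : (κ → ℤ) → Additive Circle} (hθ : PD e' θ) :
    ∃ P : MvPolynomial κ ℝ, ∀ m : κ → ℕ, cv (θ (cz m)) =
      Complex.exp ((MvPolynomial.eval (fun l => (m l : ℝ)) P : ℝ) * Complex.I) := by
  obtain ⟨P, hP⟩ := poly_lift Finset.univ θ hθ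
  refine ⟨P, fun m => ?_⟩
  rw [hP m fun l hl => absurd (Finset.mem_univ l) hl]
  exact Circle.coe_exp _

end Pool.Agent.Lib.Pf720ca
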