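import Pool.Agent.Lib.Pf720ca.MixedR
import Pool.Agent.Lib.Pf720ca.PolyK
import Pool.Agent.Lib.Pf720ca.GoodAff

/-!
# Exponentials of a Gaussian and a Poisson process, phases and deterministic weights
-/

set_option autoImplicit false
set_option linter.unusedSectionVars false

open Finset MeasureTheory Filter Topology ProbabilityTheory
open scoped ENNReal ComplexConjugate

namespace Pool.Agent.Lib.Pf720ca

open Pool.Agent.Lib.Pf720ae Pool.Agent.Lib.Pf720gs
open Pool.Agent.Lib.Pf720po (IsPoisson Amp CSw mf mf_map mf_pos mf_le_one mix KP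
  measurable_mf ae_of_indep measurableSet_CSw_prod)
open Pool.Agent.Lib.Pf720mp (Ex mon mon_zero)
open Pool.Agent.Lib.Pf720pm (pv pv_add pv_sub pv_zero Dep pv_update IsPol)
open Pool.Agent.Lib.Pf720pq (RetM maxBdM)
open Pool.Agent.Lib.Pf720pr (UGroup KW prW measurable_ex measurable_prW abs_prW_le ex_neg
  ae_zero_of_orthW)

variable {V X Y : Type} [AddCommGroup V] [Module ℝ V] {mX : MeasurableSpace X}
  {mY : MeasurableSpace Y} {μ : Measure X}
  [IsProbabilityMeasure μ] {κ : Type} [Fintype κ] [DecidableEq κ] {d D : ℕ} {J : Type} [Fintype J]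
  [DecidableEq J]

/-- products of functions of `Pu` and exponentials, with a deterministic weight -/
theorem baseS (g : GF V X μ) (act : MAct (Fin d → ℤ) X μ) (S : (Fin d → ℤ) → V →ₗ[ℝ] V)
    (hS : ∀ w v x, g.G (S w v) x = g.G v (act.S w x))
    (hSadd : ∀ w w' v, S (w + w') v = S w (S w' v))
    (hBi : ∀ w u v, g.B (S w u) (S w v) = g.B u v)
    {ν : Measure Y} {N : X → Measure Y} (hN : IsPoisson μ ν N) (R : MAct (Fin d → ℤ) Y ν)
    (hNR : ∀ w x, N (act.S w x) = (N x).map (R.S w))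
    (hind : Indep (⨆ v, MeasurableSpace.comap (g.G v) (borel ℝ))
      (MeasurableSpace.comap N inferInstance) μ)
    {B : Set Y} (hB : MeasurableSet B) (hνB : ν B < ⊤) (hret : RetM R B)
    {Pu : Set (X → ℂ)} (hP : UGroup Pu) (hPa : ∀ E ∈ Pu, ∀ u, (fun x => E (act.S u x)) ∈ Pu)
    (hindW : Indep (⨆ E : Pu, MeasurableSpace.comap E.1 (borel ℂ))
      ((⨆ v, MeasurableSpace.comap (g.G v) (borel ℝ)) ⊔ MeasurableSpace.comap N inferInstance) μ)
    (q : J → Ex κ D → Fin d → ℤ) (h : J → V) (u : J → Y → ℝ)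
    (hu : ∀ j, Amp (1 / (2 * ((Fintype.card J : ℝ) + 1) ^ 2)) B (u j))
    (E : J → X → ℂ) (hE : ∀ j, E j ∈ Pu) (σ : (κ → ℕ) → ℂ) (hσ : ∀ m, ‖σ m‖ ≤ 1)
    (hg1 : GoodR μ act (fun (x : X) (m : κ → ℕ) => (σ m * ∏ j, E j (act.S (pv (q j) m) x)).re))
    (hg2 : GoodR μ act (fun (x : X) (m : κ → ℕ) => (σ m * ∏ j, E j (act.S (pv (q j) m) x)).im)) :
    ∀ᵐ x ∂μ, CSw (fun m : κ → ℕ => (σ m * ∏ j, E j (act.S (pv (q j) m) x)).re *
        ∏ j, mf N (u j) (act.S (pv (q j) m) x))
      (fun m => ∑ j, g.G (h j) (act.S (pv (q j) m) x)) ∧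
      CSw (fun m : κ → ℕ => (σ m * ∏ j, E j (act.S (pv (q j) m) x)).im *
        ∏ j, mf N (u j) (act.S (pv (q j) m) x))
      (fun m => ∑ j, g.G (h j) (act.S (pv (q j) m) x)) := by
  -- the weights
  set w : X → (κ → ℕ) → ℂ := fun x m => σ m * ∏ j, E j (act.S (pv (q j) m) x) with hw
  set Pf : X → (κ → ℕ) → ℝ := fun x m => ∏ j, mf N (u j) (act.S (pv (q j) m) x) with hPf
  set Sf : X → (κ → ℕ) → ℝ := fun x m => ∑ j, g.G (h j) (act.S (pv (q j) m) x) with hSf
  have hw1 : ∀ x m, ‖w x m‖ ≤ 1 := fun x m => by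
    simp only [hw]
    rw [norm_mul]
    exact mul_le_one₀ (hσ m) (norm_nonneg _)
      (norm_prod_le_one _ _ fun j => (hP.norm _ (hE j) _).le)
  have hstep : ∀ᵐ x ∂μ, ∀ᵐ x' ∂μ, CSw (fun m => (w x m).re * Pf x' m) (Sf x') ∧
      CSw (fun m => (w x m).im * Pf x' m) (Sf x') := by
    have h1 := exp_cvgR g act S hS hSadd hBi hN R hNR hind hB hνB hret q h u hu
      hg1 (fun x m => (Complex.abs_re_le_norm _).trans (hw1 x m))
    have h2 := exp_cvgR g act S hS hSadd hBi hN R hNR hind hB hνB hret q h u hu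
      hg2 (fun x m => (Complex.abs_im_le_norm _).trans (hw1 x m))
    filter_upwards [h1, h2] with x hx1 hx2
    filter_upwards [hx1, hx2] with x' h1 h2
    exact ⟨h1, h2⟩
  -- measurability
  have hEm : ∀ j (m : κ → ℕ), Measurable[⨆ E : Pu, MeasurableSpace.comap E.1 (borel ℂ)]
      fun x => E j (act.S (pv (q j) m) x) := by
    intro j m
    have h1 := hPa _ (hE j) (pv (q j) m)
    have h2 : Measurable[MeasurableSpace.comap (fun x => E j (act.S (pv (q j) m) x)) (borel ℂ)]
        fun x => E j (act.S (pv (q j) m) x) := by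
      rw [← BorelSpace.measurable_eq (α := ℂ)]
      exact comap_measurable _
    exact h2.mono (le_iSup (fun E : Pu => MeasurableSpace.comap E.1 (borel ℂ)) ⟨_, h1⟩) le_rfl
  have hwm : ∀ m : κ → ℕ, Measurable[⨆ E : Pu, MeasurableSpace.comap E.1 (borel ℂ)]
      fun x => w x m := by
    intro m
    exact (Finset.measurable_fun_prod _ fun j _ => hEm j m).const_mul _
  have hle : (⨆ E : Pu, MeasurableSpace.comap E.1 (borel ℂ)) ≤ mX := by
    refine iSup_le fun E => ?_
    rw [← BorelSpace.measurable_eq (α := ℂ)]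
    exact (hP.meas E.1 E.2).comap_le
  have hF1 : Measurable[⨆ E : Pu, MeasurableSpace.comap E.1 (borel ℂ)] w :=
    (@measurable_pi_iff X (κ → ℕ) (fun _ => ℂ) (⨆ E : Pu, MeasurableSpace.comap E.1 (borel ℂ))
      _ w).2 hwm
  have hPfm : Measurable[MeasurableSpace.comap N inferInstance] Pf := by
    refine (@measurable_pi_iff X (κ → ℕ) (fun _ => ℝ) (MeasurableSpace.comap N inferInstance)
      _ Pf).2 fun m => ?_
    have e : (fun x => Pf x m) = (fun η : Measure Y => ∏ j,
        Real.exp (∫ y, Real.log (u j (R.S (pv (q j) m) y)) ∂η)) ∘ N := by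
      funext x
      simp only [hPf, Function.comp]
      refine Finset.prod_congr rfl fun j _ => ?_
      rw [mf_map (R.mp _).measurable (fun x => hNR (pv (q j) m) x) (hu j).meas]
      rfl
    rw [e]
    refine Measurable.comp ?_ (comap_measurable N)
    refine Finset.measurable_fun_prod _ fun j _ => ?_
    exact measurable_mf (N := fun η : Measure Y => η) measurable_id
      ((hu j).meas.comp (R.mp _).measurable) ((hu j).fin.subset (by
        rintro _ ⟨y, rfl⟩
        exact ⟨R.S (pv (q j) m) y, rfl⟩))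
  have hSfm : Measurable[⨆ v, MeasurableSpace.comap (g.G v) (borel ℝ)] Sf := by
    refine (@measurable_pi_iff X (κ → ℕ) (fun _ => ℝ)
      (⨆ v, MeasurableSpace.comap (g.G v) (borel ℝ)) _ Sf).2 fun m => ?_
    have e : (fun x => Sf x m) = g.G (∑ j, S (pv (q j) m) (h j)) := by
      funext x
      simp only [hSf, g.sum, hS]
    rw [e]
    have h2 : Measurable[MeasurableSpace.comap (g.G (∑ j, S (pv (q j) m) (h j))) (borel ℝ)]
        (g.G (∑ j, S (pv (q j) m) (h j))) := by
      rw [← BorelSpace.measurable_eq (α := ℝ)]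
      exact comap_measurable _
    exact h2.mono (le_iSup (fun v => MeasurableSpace.comap (g.G v) (borel ℝ)) _) le_rfl
  have hG1 : Measurable[(⨆ v, MeasurableSpace.comap (g.G v) (borel ℝ)) ⊔
      MeasurableSpace.comap N inferInstance] fun x => (Pf x, Sf x) :=
    (hPfm.mono le_sup_right le_rfl).prodMk (hSfm.mono le_sup_left le_rfl)
  have hle2 : (⨆ v, MeasurableSpace.comap (g.G v) (borel ℝ)) ⊔
      MeasurableSpace.comap N inferInstance ≤ mX :=
    sup_le (iSup_le fun v => comap_le_of_measurable (g.meas v)) hN.1.comap_le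
  have hindf : IndepFun w (fun x => (Pf x, Sf x)) μ := by
    rw [IndepFun_iff_Indep]
    exact indep_of_indep_of_le_right (indep_of_indep_of_le_left hindW hF1.comap_le) hG1.comap_le
  -- the measurable set
  have hset : MeasurableSet {p : ((κ → ℕ) → ℂ) × (((κ → ℕ) → ℝ) × ((κ → ℕ) → ℝ)) |
      CSw (fun m => (p.1 m).re * p.2.1 m) p.2.2 ∧ CSw (fun m => (p.1 m).im * p.2.1 m) p.2.2} := by
    have hA : Measurable fun p : ((κ → ℕ) → ℂ) × (((κ → ℕ) → ℝ) × ((κ → ℕ) → ℝ)) =>
        ((fun m => (p.1 m).re * p.2.1 m, p.2.2) : ((κ → ℕ) → ℝ) × ((κ → ℕ) → ℝ)) := by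
      refine Measurable.prodMk ?_ (measurable_snd.comp measurable_snd)
      refine measurable_pi_iff.2 fun m => ?_
      exact (Complex.measurable_re.comp ((measurable_pi_apply m).comp measurable_fst)).mul
        ((measurable_pi_apply m).comp (measurable_fst.comp measurable_snd))
    have hA' : Measurable fun p : ((κ → ℕ) → ℂ) × (((κ → ℕ) → ℝ) × ((κ → ℕ) → ℝ)) =>
        ((fun m => (p.1 m).im * p.2.1 m, p.2.2) : ((κ → ℕ) → ℝ) × ((κ → ℕ) → ℝ)) := by
      refine Measurable.prodMk ?_ (measurable_snd.comp measurable_snd)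
      refine measurable_pi_iff.2 fun m => ?_
      exact (Complex.measurable_im.comp ((measurable_pi_apply m).comp measurable_fst)).mul
        ((measurable_pi_apply m).comp (measurable_fst.comp measurable_snd))
    exact (hA (measurableSet_CSw_prod (κ := κ))).inter (hA' (measurableSet_CSw_prod (κ := κ)))
  exact ae_of_indep (hF1.mono hle le_rfl) (hG1.mono hle2 le_rfl) hindf hset hstep



end Pool.Agent.Lib.Pf720ca
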