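import Pool.Agent.Lib.Pf720ae.Alg.PW
import Pool.Agent.Lib.Pf720ae.Alg.Trig
import Mathlib.Probability.Independence.Basic

/-!
# Modulo null sets the Borel sets of a compact abelian group are generated by the characters
-/

set_option autoImplicit false
set_option linter.unusedSectionVars false

open MeasureTheory Filter Topology ProbabilityTheory
open scoped ENNReal

namespace Pool.Agent.Lib.Pf720ca

open Pool.Agent.Lib.Pf720ae.Alg (prt eq_zero_of_orth exists_char)

/-- the σ-algebra generated by the characters -/
@[reducible] noncomputable def chSigma (Z : Type) [CommGroup Z] [TopologicalSpace Z] : MeasurableSpace Z :=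
  ⨆ χ : Z →ₜ* Circle, MeasurableSpace.comap (fun z => ((χ z : Circle) : ℂ)) (borel ℂ)

variable {Z : Type} [CommGroup Z] [TopologicalSpace Z] [IsTopologicalGroup Z] [CompactSpace Z]
  [T2Space Z] [MeasurableSpace Z] [BorelSpace Z] {lam : Measure Z} [IsProbabilityMeasure lam]
  [lam.Regular]

lemma chSigma_le : chSigma Z ≤ (inferInstance : MeasurableSpace Z) := by
  refine iSup_le fun χ => ?_
  rw [← BorelSpace.measurable_eq (α := ℂ)]
  exact ((continuous_subtype_val.comp (map_continuous χ)).measurable).comap_le

lemma measurable_prt (b : Bool) (χ : Z →ₜ* Circle) : Measurable[chSigma Z] (prt b χ) := by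
  have h1 : Measurable[chSigma Z] (fun z => ((χ z : Circle) : ℂ)) := by
    rw [measurable_iff_comap_le, BorelSpace.measurable_eq (α := ℂ)]
    exact le_iSup (fun χ : Z →ₜ* Circle =>
      MeasurableSpace.comap (fun z => ((χ z : Circle) : ℂ)) (borel ℂ)) χ
  cases b
  · exact Complex.measurable_im.comp h1
  · exact Complex.measurable_re.comp h1

theorem exists_ch_set {B : Set Z} (hB : MeasurableSet B) :
    ∃ B', MeasurableSet[chSigma Z] B' ∧ B =ᵐ[lam] B' := by
  have hle : chSigma Z ≤ (inferInstance : MeasurableSpace Z) := chSigma_le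
  set f : Z → ℝ := B.indicator fun _ => 1 with hf
  have hfi : Integrable f lam := (integrable_const 1).indicator hB
  have hf2 : MemLp f 2 lam := (memLp_const 1).indicator hB
  set g : Z → ℝ := lam[f | chSigma Z] with hg
  have hg2 : MemLp g 2 lam := hf2.condExp one_le_two
  have horth : f - g =ᵐ[lam] 0 := by
    refine eq_zero_of_orth (fun x hx => exists_char x hx) (hf2.sub hg2) fun b χ => ?_
    have hpm := measurable_prt b χ
    have hpb : ∀ z, ‖prt b χ z‖ ≤ 1 := by
      intro z
      have hn : ‖((χ z : Circle) : ℂ)‖ = 1 := Circle.norm_coe _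
      cases b
      · exact (Complex.abs_im_le_norm _).trans hn.le
      · exact (Complex.abs_re_le_norm _).trans hn.le
    have hfp : Integrable (fun z => f z * prt b χ z) lam :=
      hfi.mul_bdd (c := 1) (prt b χ).continuous.measurable.aestronglyMeasurable
        (Eventually.of_forall hpb)
    have hgp : Integrable (fun z => g z * prt b χ z) lam :=
      (integrable_condExp).mul_bdd (c := 1) (prt b χ).continuous.measurable.aestronglyMeasurable
        (Eventually.of_forall hpb)
    have h1 : lam[fun z => f z * prt b χ z | chSigma Z] =ᵐ[lam] fun z => g z * prt b χ z :=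
      condExp_mul_of_stronglyMeasurable_right hpm.stronglyMeasurable hfp hfi
    have h2 : ∫ z, g z * prt b χ z ∂lam = ∫ z, f z * prt b χ z ∂lam := by
      rw [← integral_congr_ae h1, integral_condExp hle]
    have h3 : ∀ z, (f - g) z * prt b χ z = f z * prt b χ z - g z * prt b χ z := by
      intro z
      rw [Pi.sub_apply, sub_mul]
    simp only [h3]
    rw [integral_sub hfp hgp, h2, sub_self]
  refine ⟨g ⁻¹' Set.Ioi (1 / 2), ?_, ?_⟩
  · exact stronglyMeasurable_condExp.measurable measurableSet_Ioi
  · filter_upwards [horth] with z hz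
    have h1 : g z = f z := by
      rw [Pi.sub_apply, Pi.zero_apply, sub_eq_zero] at hz
      exact hz.symm
    have h2 : (z ∈ B) = (z ∈ g ⁻¹' Set.Ioi (1 / 2)) := by
      rw [Set.mem_preimage, Set.mem_Ioi, h1]
      simp only [hf]
      by_cases hzB : z ∈ B
      · rw [Set.indicator_of_mem hzB]
        simp only [hzB, eq_iff_iff, true_iff]
        norm_num
      · rw [Set.indicator_of_notMem hzB]
        simp only [hzB, eq_iff_iff, false_iff]
        norm_num
    exact h2

/-- independence does not see null sets -/
lemma indep_mod {X : Type} {m₁ m₁' m₂ : MeasurableSpace X} {mX : MeasurableSpace X} {μ : Measure X}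
    (h : Indep m₁ m₂ μ) (h' : m₁' ≤ @eventuallyMeasurableSpace X m₁ (ae μ) _) :
    Indep m₁' m₂ μ := by
  rw [Indep_iff]
  intro s t hs ht
  obtain ⟨s', hs', hss'⟩ := h' s hs
  rw [measure_congr hss', ← (Indep_iff m₁ m₂ μ).1 h s' t hs' ht]
  exact measure_congr (hss'.inter (ae_eq_refl t))

end Pool.Agent.Lib.Pf720ca
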