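import Pool.Agent.Lib.Pf720ca.MixedR

/-!
# Bounded functions from products of exponentials, abstract version
-/

set_option autoImplicit false
set_option linter.unusedSectionVars false

open Finset MeasureTheory Filter Topology ProbabilityTheory
open scoped ENNReal ComplexConjugate

namespace Pool.Agent.Lib.Pf720ca

open Pool.Agent.Lib.Pf720ae Pool.Agent.Lib.Pf720gs
open Pool.Agent.Lib.Pf720po (IsPoisson Amp CSw mf mf_map mf_pos mf_le_one mix KP
  measurable_mf ae_of_indep measurableSet_CSw_prod)
open Pool.Agent.Lib.Pf720mp (Ex mon mon_zero)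
open Pool.Agent.Lib.Pf720pm (pv pv_add pv_sub pv_zero Dep pv_update IsPol)
open Pool.Agent.Lib.Pf720pq (RetM maxBdM)
open Pool.Agent.Lib.Pf720pr (UGroup KW prW measurable_ex measurable_prW abs_prW_le ex_neg
  ae_zero_of_orthW)

variable {V X Y : Type} [AddCommGroup V] [Module ℝ V] {mX : MeasurableSpace X}
  {mY : MeasurableSpace Y} {μ : Measure X}
  [IsProbabilityMeasure μ] {κ : Type} [Fintype κ] [DecidableEq κ] {d D : ℕ} {J : Type} [Fintype J]
  [DecidableEq J]

/-- some of the functions are products of phases and exponentials, the others are real and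
bounded -/
theorem mixedK (g : GF V X μ) (act : MAct (Fin d → ℤ) X μ)
    {ν : Measure Y} {N : X → Measure Y} (hN : IsPoisson μ ν N)
    {B : ℕ → Set Y} (hBmono : Monotone B)
    (hB : ∀ r, MeasurableSet (B r)) (hνB : ∀ r, ν (B r) < ⊤)
    {Pu : Set (X → ℂ)} (hP : UGroup Pu)
    (hgen : ∀ D : Set X, MeasurableSet D →
      ∃ D', MeasurableSet[⨆ i, MeasurableSpace.comap (KW g N B ν Pu i) (borel ℝ)] D' ∧ D =ᵐ[μ] D')
    (q : J → Ex κ D → Fin d → ℤ) {ε : ℝ} (hε : 0 < ε) (hε1 : ε ≤ 1 / 2)
    (hbase : ∀ (E : J → X → ℂ), (∀ j, E j ∈ Pu) → ∀ (v : J → V) (r : ℕ) (u : J → Y → ℝ),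
      (∀ j, Amp ε (B r) (u j)) → ∀ᵐ x ∂μ,
      Cvg (fun m : κ → ℕ => (∏ j, (E j (act.S (pv (q j) m) x) *
        ex g (v j) (act.S (pv (q j) m) x) * (mf N (u j) (act.S (pv (q j) m) x) : ℂ))).re) ∧
      Cvg (fun m : κ → ℕ => (∏ j, (E j (act.S (pv (q j) m) x) *
        ex g (v j) (act.S (pv (q j) m) x) * (mf N (u j) (act.S (pv (q j) m) x) : ℂ))).im))
    (s : Finset J) (f : J → X → ℂ)
    (hfs : ∀ j ∈ s, ∃ F : X → ℝ, Measurable F ∧ (∀ x, |F x| ≤ 1) ∧ ∀ x, f j x = F x)
    (hfc : ∀ j ∉ s, ∃ E ∈ Pu, ∃ (v : V) (r : ℕ) (u : Y → ℝ),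
      Amp ε (B r) u ∧
      ∀ x, f j x = E x * ex g v x * (mf N u x : ℂ)) :
    ∀ᵐ x ∂μ, Cvg (fun m : κ → ℕ => (∏ j, f j (act.S (pv (q j) m) x)).re) ∧
      Cvg (fun m : κ → ℕ => (∏ j, f j (act.S (pv (q j) m) x)).im) := by
  have hAmp0 : ∀ {B' : Set Y} {u : Y → ℝ}, Amp ε B' u →
      ∀ y, 0 ≤ u y := fun h y => by
    have := h.lb y
    linarith
  have hmf1 : ∀ {B' : Set Y} {u : Y → ℝ}, Amp ε B' u →
      ∀ x, |mf N u x| ≤ 1 := fun h x => by
    rw [abs_of_nonneg (mf_pos _ _ _).le]
    exact mf_le_one N (hAmp0 h) h.ub x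
  induction s using Finset.induction_on generalizing f with
  | empty =>
    choose E hE v r u hu hv using fun j => hfc j (Finset.notMem_empty j)
    obtain ⟨r₀, hr₀⟩ : ∃ r₀, ∀ j, r j ≤ r₀ :=
      ⟨Finset.univ.sup r, fun j => Finset.le_sup (f := r) (Finset.mem_univ j)⟩
    have h1 := hbase E hE v r₀ u (fun j => (hu j).mono le_rfl (hBmono (hr₀ j)))
    filter_upwards [h1] with x hx
    have e : ∀ m : κ → ℕ, ∏ j, f j (act.S (pv (q j) m) x) =
        ∏ j, (E j (act.S (pv (q j) m) x) *
        ex g (v j) (act.S (pv (q j) m) x) * (mf N (u j) (act.S (pv (q j) m) x) : ℂ)) := fun m =>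
      Finset.prod_congr rfl fun j _ => hv j _
    simp only [e]
    exact hx
  | insert a s ha ih =>
    obtain ⟨F, hFm, hF1, hF⟩ := hfs a (Finset.mem_insert_self _ _)
    have hf1 : ∀ j x, ‖f j x‖ ≤ 1 := by
      intro j x
      by_cases hj : j ∈ insert a s
      · obtain ⟨F', -, hF'1, hF'⟩ := hfs j hj
        rw [hF', Complex.norm_real]
        exact hF'1 x
      · obtain ⟨E, hE, v, r, u, hu, hv⟩ := hfc j hj
        rw [hv, norm_mul, norm_mul, norm_ex, hP.norm E hE, one_mul, one_mul, Complex.norm_real]
        exact hmf1 hu x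
    set Rm : X → (κ → ℕ) → ℂ := fun x m =>
      ∏ j ∈ Finset.univ.erase a, f j (act.S (pv (q j) m) x) with hRm
    have hR1 : ∀ x m, ‖Rm x m‖ ≤ 1 := fun x m => norm_prod_le_one _ _ fun j => hf1 j _
    -- replace the function `a` by a product of a phase and an exponential
    have hchar : ∀ E ∈ Pu, ∀ (v : V) (r : ℕ) (u : Y → ℝ),
        Amp ε (B r) u → ∀ᵐ x ∂μ,
        Cvg (fun m : κ → ℕ => (E (act.S (pv (q a) m) x) * ex g v (act.S (pv (q a) m) x) *
          (mf N u (act.S (pv (q a) m) x) : ℂ) * Rm x m).re) ∧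
        Cvg (fun m : κ → ℕ => (E (act.S (pv (q a) m) x) * ex g v (act.S (pv (q a) m) x) *
          (mf N u (act.S (pv (q a) m) x) : ℂ) * Rm x m).im) := by
      intro E hE v r u hu
      have h1 := ih (Function.update f a (fun x => E x * ex g v x * (mf N u x : ℂ))) (by
        intro j hj
        have hja : j ≠ a := fun h => ha (h ▸ hj)
        rw [Function.update_of_ne hja]
        exact hfs j (Finset.mem_insert_of_mem hj)) (by
        intro j hj
        by_cases hja : j = a
        · subst hja
          exact ⟨E, hE, v, r, u, hu, fun x => by rw [Function.update_self]⟩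
        · rw [Function.update_of_ne hja]
          exact hfc j fun h => (Finset.mem_insert.1 h).elim hja hj)
      have h2 : ∀ x (m : κ → ℕ), ∏ j, (Function.update f a
          (fun x => E x * ex g v x * (mf N u x : ℂ))) j
          (act.S (pv (q j) m) x) = E (act.S (pv (q a) m) x) * ex g v (act.S (pv (q a) m) x) *
            (mf N u (act.S (pv (q a) m) x) : ℂ) * Rm x m := by
        intro x m
        rw [← Finset.mul_prod_erase Finset.univ _ (Finset.mem_univ a), Function.update_self]
        congr 1
        refine Finset.prod_congr rfl fun j hj => ?_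
        rw [Function.update_of_ne (Finset.ne_of_mem_erase hj)]
      simp only [h2] at h1
      exact h1
    set Wt : X → Set ((κ → ℕ) → ℝ) := fun x => {fun m => (Rm x m).re, fun m => (Rm x m).im}
      with hWt
    have hWt1 : ∀ x, ∀ w ∈ Wt x, ∀ m, |w m| ≤ 1 := by
      rintro x w (rfl | rfl) m
      · exact (Complex.abs_re_le_norm _).trans (hR1 x m)
      · exact (Complex.abs_im_le_norm _).trans (hR1 x m)
    set U : (κ → ℕ) → X → X := fun m x => act.S (pv (q a) m) x with hU
    have hMax : MaxBd μ U := maxBdM act (q a)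
    have hUmp : ∀ m, MeasurePreserving (U m) μ μ := fun m => act.mp _
    have hgood : ∀ E ∈ Pu, ∀ (b : Bool) (v : V) (r : ℕ) (u : Y → ℝ),
        Amp ε (B r) u →
        Cv μ U Wt (fun x => prW E g b v x * mf N u x) := by
      intro E hE b v r u hu
      filter_upwards [hchar E hE v r u hu, hchar _ (hP.cj E hE) (-v) r u hu] with x h1 h2
      have e1 := (h1.1.add h2.1).smul (1 / 2)
      have e2 := (h2.1.add (h1.1.smul (-1))).smul (1 / 2)
      have e3 := (h1.2.add h2.2).smul (1 / 2)
      have e4 := (h1.2.add (h2.2.smul (-1))).smul (1 / 2)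
      rintro w (rfl | rfl)
      · cases b
        · refine e4.congr fun m => ?_
          simp only [ex_neg, Complex.mul_im, Complex.mul_re, Complex.ofReal_re, Complex.ofReal_im,
            Complex.conj_re, Complex.conj_im, hU, prW]
          simp only [Bool.false_eq_true, if_false]
          ring
        · refine e1.congr fun m => ?_
          simp only [ex_neg, Complex.mul_re, Complex.mul_im, Complex.ofReal_re, Complex.ofReal_im,
            Complex.conj_re, Complex.conj_im, hU, prW]
          simp only [if_true]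
          ring
      · cases b
        · refine e2.congr fun m => ?_
          simp only [ex_neg, Complex.mul_re, Complex.mul_im, Complex.ofReal_re, Complex.ofReal_im,
            Complex.conj_re, Complex.conj_im, hU, prW]
          simp only [Bool.false_eq_true, if_false]
          ring
        · refine e3.congr fun m => ?_
          simp only [ex_neg, Complex.mul_im, Complex.mul_re, Complex.ofReal_re, Complex.ofReal_im,
            Complex.conj_re, Complex.conj_im, hU, prW]
          simp only [if_true]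
          ring
    have hFL : MemLp F 2 μ := MemLp.of_bound hFm.aestronglyMeasurable 1
      (Eventually.of_forall fun x => by simpa using hF1 x)
    have hmain : Cv μ U Wt F := by
      refine principle_max hMax hUmp hWt1 (fun φ hφm hφL hφ => ?_) F hFL
      have hφ1 : Integrable φ μ := hφL.integrable one_le_two
      have hm : ∀ E ∈ Pu, ∀ (b : Bool) (v : V) (r : ℕ) (u : Y → ℝ),
          Amp ε (B r) u →
          Measurable (fun x => prW E g b v x * mf N u x) ∧
          ∀ x, |prW E g b v x * mf N u x| ≤ 1 := by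
        intro E hE b v r u hu
        refine ⟨(measurable_prW (hP.meas E hE) g b v).mul (measurable_mf hN.1 hu.meas hu.fin),
          fun x => ?_⟩
        rw [abs_mul]
        exact mul_le_one₀ (abs_prW_le (hP.norm E hE) g b v x) (abs_nonneg _) (hmf1 hu x)
      have hzero : φ =ᵐ[μ] 0 := by
        refine ae_zero_of_orthW g hN hBmono hB hνB hP hgen hε hε1 hφ1 (fun E hE v r u hu => ?_)
        have h1 := hφ _ (hm E hE true v r u hu).1 (hm E hE true v r u hu).2
          (hgood E hE true v r u hu)
        have h2 := hφ _ (hm E hE false v r u hu).1 (hm E hE false v r u hu).2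
          (hgood E hE false v r u hu)
        have hexm : Measurable (ex g v) := measurable_ex g v
        have hint : Integrable (fun x => ((φ x : ℂ) * E x *
            Complex.exp ((g.G v x : ℂ) * Complex.I)) * ((mf N u x : ℝ) : ℂ)) μ := by
          refine (((hφ1.ofReal (𝕜 := ℂ)).mul_bdd (c := 1) (hP.meas E hE).aestronglyMeasurable
            (Eventually.of_forall fun x => (hP.norm E hE x).le)).mul_bdd (c := 1)
            hexm.aestronglyMeasurable (Eventually.of_forall fun x => (norm_ex g v x).le)).mul_bdd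
            (c := 1) (Complex.measurable_ofReal.comp
              (measurable_mf hN.1 hu.meas hu.fin)).aestronglyMeasurable
            (Eventually.of_forall fun x => ?_)
          rw [Complex.norm_real]
          exact hmf1 hu x
        have e : ∀ x, ((φ x : ℂ) * E x * Complex.exp ((g.G v x : ℂ) * Complex.I)) *
            ((mf N u x : ℝ) : ℂ) = ((φ x * mf N u x : ℝ) : ℂ) * (E x * ex g v x) := by
          intro x
          unfold ex
          push_cast
          ring
        apply Complex.ext
        · rw [← Complex.reCLM_apply, ← ContinuousLinearMap.integral_comp_comm _ hint]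
          simp only [Complex.reCLM_apply, e, Complex.re_ofReal_mul, Complex.zero_re]
          rw [← h1]
          refine integral_congr_ae (Eventually.of_forall fun x => ?_)
          simp only [prW, if_true]
          ring
        · rw [← Complex.imCLM_apply, ← ContinuousLinearMap.integral_comp_comm _ hint]
          simp only [Complex.imCLM_apply, e, Complex.im_ofReal_mul, Complex.zero_im]
          rw [← h2]
          refine integral_congr_ae (Eventually.of_forall fun x => ?_)
          simp only [prW, Bool.false_eq_true, if_false]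
          ring
      exact Cv.congr hUmp hzero.symm Cv.zero
    have hprod : ∀ x (m : κ → ℕ), ∏ j, f j (act.S (pv (q j) m) x) =
        (F (act.S (pv (q a) m) x) : ℂ) * Rm x m := by
      intro x m
      rw [← Finset.mul_prod_erase Finset.univ _ (Finset.mem_univ a), hF]
    filter_upwards [hmain] with x hx
    constructor
    · refine (hx _ (Set.mem_insert _ _)).congr fun m => ?_
      rw [hprod, Complex.re_ofReal_mul]
    · refine (hx _ (Set.mem_insert_of_mem _ rfl)).congr fun m => ?_
      rw [hprod, Complex.im_ofReal_mul]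

theorem realK (g : GF V X μ) (act : MAct (Fin d → ℤ) X μ)
    {ν : Measure Y} {N : X → Measure Y} (hN : IsPoisson μ ν N)
    {B : ℕ → Set Y} (hBmono : Monotone B)
    (hB : ∀ r, MeasurableSet (B r)) (hνB : ∀ r, ν (B r) < ⊤)
    {Pu : Set (X → ℂ)} (hP : UGroup Pu)
    (hgen : ∀ D : Set X, MeasurableSet D →
      ∃ D', MeasurableSet[⨆ i, MeasurableSpace.comap (KW g N B ν Pu i) (borel ℝ)] D' ∧ D =ᵐ[μ] D')
    (q : J → Ex κ D → Fin d → ℤ) {ε : ℝ} (hε : 0 < ε) (hε1 : ε ≤ 1 / 2)
    (hbase : ∀ (E : J → X → ℂ), (∀ j, E j ∈ Pu) → ∀ (v : J → V) (r : ℕ) (u : J → Y → ℝ),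
      (∀ j, Amp ε (B r) (u j)) → ∀ᵐ x ∂μ,
      Cvg (fun m : κ → ℕ => (∏ j, (E j (act.S (pv (q j) m) x) *
        ex g (v j) (act.S (pv (q j) m) x) * (mf N (u j) (act.S (pv (q j) m) x) : ℂ))).re) ∧
      Cvg (fun m : κ → ℕ => (∏ j, (E j (act.S (pv (q j) m) x) *
        ex g (v j) (act.S (pv (q j) m) x) * (mf N (u j) (act.S (pv (q j) m) x) : ℂ))).im))
    (F : J → X → ℝ) (hFm : ∀ j, Measurable (F j))
    (hF1 : ∀ j x, |F j x| ≤ 1) :
    ∀ᵐ x ∂μ, Cvg fun m : κ → ℕ => ∏ j, F j (act.S (pv (q j) m) x) := by
  have h1 := mixedK (κ := κ) g act hN hBmono hB hνB hP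
    hgen q hε hε1 hbase Finset.univ (fun j x => (F j x : ℂ))
    (fun j _ => ⟨F j, hFm j, hF1 j, fun x => rfl⟩)
    (fun j hj => absurd (Finset.mem_univ j) hj)
  filter_upwards [h1] with x hx
  refine hx.1.congr fun m => ?_
  rw [← Complex.ofReal_prod, Complex.ofReal_re]

end Pool.Agent.Lib.Pf720ca
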