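import Pool.Agent.Lib.Pf720ca.FinalR
import Pool.Agent.Lib.Pf720ca.MixedK
import Pool.Agent.Lib.Pf720ca.BaseA
import Pool.Agent.Lib.Pf720ca.GenZ
import Pool.Agent.Lib.Pf720pr.ConvW

/-!
# Independent products of affine, Gaussian, Poisson factors and phases
-/

set_option autoImplicit false
set_option linter.unusedSectionVars false

open MeasureTheory Filter Topology ProbabilityTheory
open scoped ENNReal ComplexConjugate

namespace Pool.Agent.Lib.Pf720ca

open Pool.Agent.Lib.Pf720ae Pool.Agent.Lib.Pf720pi Pool.Agent.Lib.Pf720gs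
open Pool.Agent.Lib.Pf720ae.Alg (cz integral_char)
open Pool.Agent.Lib.Pf720ae.Aff (affc linf evg Gam oprod pull evg_pull)
open Pool.Agent.Lib.Pf720po (IsPoisson N_pw permActS isPoisson_trim indep_trim gen_KP KP Amp mf)
open Pool.Agent.Lib.Pf720mp (Ex mon exs eval_eq_sum_ex)
open Pool.Agent.Lib.Pf720pm (pv Dep IsPol PolR PolC cls isPol_cls polC_of_polR)
open Pool.Agent.Lib.Pf720pq (RetM exists_pvs polC_of_trim)
open Pool.Agent.Lib.Pf720pr (UGroup KW Pset ugroup_Pset isPh_trim IsPh isPh_one)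


variable {V X Y : Type} [AddCommGroup V] [Module ℝ V]

lemma aff_trimK {X Z : Type} (m 𝒵 𝒜 mH : MeasurableSpace X)
    {mX : MeasurableSpace X} {mY : MeasurableSpace Y} {μ : Measure X} [IsProbabilityMeasure μ]
    {d : ℕ}
    (g : GF V X μ) (act : MAct (Fin d → ℤ) X μ) (S : (Fin d → ℤ) → V →ₗ[ℝ] V)
    (hS : ∀ w v x, g.G (S w v) x = g.G v (act.S w x))
    (hSadd : ∀ w w' v, S (w + w') v = S w (S w' v))
    (hBi : ∀ w u v, g.B (S w u) (S w v) = g.B u v)
    {ν : Measure Y} {N : X → Measure Y} (hN : IsPoisson μ ν N) (R : MAct (Fin d → ℤ) Y ν)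
    (hNR : ∀ w x, N (act.S w x) = (N x).map (R.S w))
    (hind : Indep (⨆ v, MeasurableSpace.comap (g.G v) (borel ℝ))
      (MeasurableSpace.comap N inferInstance) μ)
    {B : ℕ → Set Y} (hBmono : Monotone B)
    (hB : ∀ r, MeasurableSet (B r)) (hνB : ∀ r, ν (B r) < ⊤) (hBU : ⋃ r, B r = Set.univ)
    (hret : ∀ r, RetM R (B r))
    [CommGroup Z] [TopologicalSpace Z] [IsTopologicalGroup Z] [CompactSpace Z] [T2Space Z]
    [MeasurableSpace Z] [BorelSpace Z] {lam : Measure Z} [IsProbabilityMeasure lam]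
    [lam.IsMulLeftInvariant] [lam.Regular] {π : X → Z} (hπ : MeasurePreserving π μ lam)
    (A : Fin d → affc Z) (hlin : ∀ i j z, linf (A i) (linf (A j) z) = linf (A j) (linf (A i) z))
    (hnil : Group.IsNilpotent (Subgroup.closure (Set.range fun i => ((A i : affc Z) : Equiv.Perm Z))))
    (heq : ∀ (u : Fin d → ℤ), ∀ᵐ x ∂μ,
      π (act.S u x) = ((oprod A u : affc Z) : Equiv.Perm Z) (π x))
    (h𝒵 : 𝒵 = ⨆ u : Fin d → ℤ, MeasurableSpace.comap (fun x => π (act.S u x)) inferInstance)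
    (hA : 𝒜 ≤ mX) (hZA : Indep 𝒵 𝒜 μ)
    (hindW : Indep (𝒵 ⊔ 𝒜) ((⨆ v, MeasurableSpace.comap (g.G v) (borel ℝ)) ⊔
      MeasurableSpace.comap N inferInstance) μ)
    (hmH : mH = ((⨆ v, MeasurableSpace.comap (g.G v) (borel ℝ)) ⊔
      MeasurableSpace.comap N inferInstance) ⊔ 𝒜) (hindH : Indep 𝒵 mH μ)
    (hAinv : ∀ w, Measurable[𝒜, 𝒜] (act.S w))
    (hAgen : 𝒜 ≤ ⨆ p : (Pset 𝒜 act) × Bool, MeasurableSpace.comap
      (fun x => if p.2 then (p.1.1 x).re else (p.1.1 x).im) (borel ℝ))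
    (hm : m = ((⨆ v, MeasurableSpace.comap (g.G v) (borel ℝ)) ⊔
      MeasurableSpace.comap N inferInstance) ⊔ (𝒵 ⊔ 𝒜)) (hmX : m ≤ mX)
    (hact : ∀ w, Measurable[m, m] (act.S w))
    (Q : (k : ℕ) → Set (Fin d → MvPolynomial (Fin k) ℤ)) :
    @PolR X m (μ.trim hmX) d Set.univ (cls Q) act.S m := by
  intro κ _ _ J _ _ e F _ he hFm hF1
  obtain ⟨D, q, hq⟩ := exists_pvs fun j => (isPol_cls Q κ (e j) (he j)).1
  have hle1 : (⨆ v, MeasurableSpace.comap (g.G v) (borel ℝ)) ≤ m := by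
    rw [hm]
    exact le_sup_left.trans le_sup_left
  have hle2 : MeasurableSpace.comap N inferInstance ≤ m := by
    rw [hm]
    exact le_sup_right.trans le_sup_left
  have hleZ : 𝒵 ≤ m := by
    rw [hm]
    exact le_sup_left.trans le_sup_right
  have hle3 : 𝒜 ≤ m := by
    rw [hm]
    exact le_sup_right.trans le_sup_right
  have hgm : ∀ v, Measurable[m] (g.G v) := fun v =>
    (measurable_iSup_comap g.G v).mono hle1 le_rfl
  have hNm : Measurable[m] N := by
    rw [measurable_iff_comap_le]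
    exact hle2
  have hprob : @IsProbabilityMeasure X m (μ.trim hmX) := by
    refine @IsProbabilityMeasure.mk X m _ ?_
    rw [trim_measurableSet_eq hmX (@MeasurableSet.univ X m)]
    exact measure_univ
  have hN' := isPoisson_trim m hN hmX hNm
  -- the factor map
  have hπu : ∀ u, Measurable[𝒵] fun x => π (act.S u x) := by
    intro u
    rw [measurable_iff_comap_le, h𝒵]
    exact le_iSup (fun u : Fin d → ℤ =>
      MeasurableSpace.comap (fun x => π (act.S u x)) inferInstance) u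
  have hπ𝒵 : Measurable[𝒵] π := by
    have h := hπu 0
    simp only [act.zero] at h
    exact h
  have hπm : Measurable[m] π := hπ𝒵.mono hleZ le_rfl
  have hπ' : @MeasurePreserving X Z m _ π (μ.trim hmX) lam := by
    refine @MeasurePreserving.mk X Z m _ π (μ.trim hmX) lam hπm ?_
    refine Measure.ext fun s hs => ?_
    have h1 := @Measure.map_apply X Z m _ (μ.trim hmX) π hπm s hs
    rw [h1, trim_measurableSet_eq hmX (hπm hs), hπ.measure_preimage hs.nullMeasurableSet]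
  -- the action on `m`
  set act' : @MAct (Fin d → ℤ) X _ m (μ.trim hmX) := trimAct m act hmX hact with hact'
  have heq' : ∀ (ψ : Gam Z) (u : Fin d → ℤ), ∀ᵐ x ∂(μ.trim hmX),
      evg ψ (π (act.S u x)) = evg ψ (((oprod A u : affc Z) : Equiv.Perm Z) (π x)) := by
    intro ψ u
    have h1 : Measurable[m] fun x => ((evg ψ (π (act.S u x)) : Circle) : ℂ) :=
      (continuous_subtype_val.comp (continuous_evg ψ)).measurable.comp
        ((hπu u).mono hleZ le_rfl)
    have h2 : Measurable[m] fun x =>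
        ((evg ψ (((oprod A u : affc Z) : Equiv.Perm Z) (π x)) : Circle) : ℂ) :=
      (continuous_subtype_val.comp ((continuous_evg ψ).comp (oprod A u).2.1)).measurable.comp hπm
    have h3 : MeasurableSet[m] {x | ((evg ψ (π (act.S u x)) : Circle) : ℂ) =
        ((evg ψ (((oprod A u : affc Z) : Equiv.Perm Z) (π x)) : Circle) : ℂ)} :=
      @measurableSet_eq_fun X ℂ m _ _ _ _ h1 h2
    have h4 : ∀ᵐ x ∂μ, x ∈ {x | ((evg ψ (π (act.S u x)) : Circle) : ℂ) =
        ((evg ψ (((oprod A u : affc Z) : Equiv.Perm Z) (π x)) : Circle) : ℂ)} := by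
      filter_upwards [heq u] with x hx
      show ((evg ψ (π (act.S u x)) : Circle) : ℂ) = _
      rw [hx]
    have h5 : ∀ᵐ x ∂(μ.trim hmX), x ∈ {x | ((evg ψ (π (act.S u x)) : Circle) : ℂ) =
        ((evg ψ (((oprod A u : affc Z) : Equiv.Perm Z) (π x)) : Circle) : ℂ)} := by
      rw [ae_iff] at h4 ⊢
      have e : {a | ¬ a ∈ {x | ((evg ψ (π (act.S u x)) : Circle) : ℂ) =
          ((evg ψ (((oprod A u : affc Z) : Equiv.Perm Z) (π x)) : Circle) : ℂ)}} =
          {x | ((evg ψ (π (act.S u x)) : Circle) : ℂ) =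
          ((evg ψ (((oprod A u : affc Z) : Equiv.Perm Z) (π x)) : Circle) : ℂ)}ᶜ := rfl
      rw [e] at h4 ⊢
      rw [trim_measurableSet_eq hmX (@MeasurableSet.compl X _ m h3)]
      exact h4
    exact h5.mono fun x hx => Circle.coe_inj.1 hx
  have hZA' : ∀ w, Measurable[𝒵, 𝒵] (act.S w) := by
    intro w
    rw [measurable_iff_comap_le]
    conv_lhs => rw [h𝒵]
    rw [MeasurableSpace.comap_iSup]
    refine iSup_le fun u => ?_
    rw [MeasurableSpace.comap_comp]
    have e1 : (fun x => π (act.S u x)) ∘ act.S w = fun x => π (act.S (u + w) x) := by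
      funext x
      simp only [Function.comp]
      rw [act.add]
    rw [e1, ← measurable_iff_comap_le]
    exact hπu _
  have hPAinv : ∀ w, Measurable[𝒵 ⊔ 𝒜, 𝒵 ⊔ 𝒜] (act.S w) := by
    intro w
    rw [measurable_iff_comap_le, MeasurableSpace.comap_sup]
    exact sup_le_sup (hZA' w).comap_le (hAinv w).comap_le
  -- the phases
  set Pu : Set (X → ℂ) := @PuA X Z _ _ 𝒵 𝒜 m (μ.trim hmX) d act' π with hPu
  have hP' : @UGroup X m Pu := @ugroup_PuA X Z _ _ 𝒵 𝒜 m (μ.trim hmX) d act' π hleZ hle3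
  have hle4 : (⨆ E : Pu, MeasurableSpace.comap E.1 (borel ℂ)) ≤ 𝒵 ⊔ 𝒜 := by
    refine iSup_le fun E => ?_
    rw [← BorelSpace.measurable_eq (α := ℂ)]
    exact Measurable.comap_le E.2.1
  have hπcomap : MeasurableSpace.comap π inferInstance ≤ 𝒵 := hπ𝒵.comap_le
  have hHm : mH ≤ m := by
    rw [hmH]
    exact sup_le (sup_le hle1 hle2) hle3
  have hJ0 : (0 : ℝ) ≤ (Fintype.card J : ℝ) := Nat.cast_nonneg _
  obtain ⟨ε, hεeq⟩ : ∃ ε : ℝ, ε = 1 / (2 * (2 * (Fintype.card J : ℝ) + 1) ^ 2) := ⟨_, rfl⟩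
  have hε : 0 < ε := by
    rw [hεeq]
    positivity
  have hε1 : ε ≤ 1 / 2 := by
    rw [hεeq]
    apply one_div_le_one_div_of_le (by norm_num)
    nlinarith
  have hbase : ∀ (E : J → X → ℂ), (∀ j, E j ∈ Pu) → ∀ (v : J → V) (r : ℕ) (u : J → Y → ℝ),
      (∀ j, Amp ε (B r) (u j)) → ∀ᵐ x ∂(μ.trim hmX),
      Cvg (fun m : κ → ℕ => (∏ j, (E j (act.S (pv (q j) m) x) *
        ex g (v j) (act.S (pv (q j) m) x) * (mf N (u j) (act.S (pv (q j) m) x) : ℂ))).re) ∧
      Cvg (fun m : κ → ℕ => (∏ j, (E j (act.S (pv (q j) m) x) *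
        ex g (v j) (act.S (pv (q j) m) x) * (mf N (u j) (act.S (pv (q j) m) x) : ℂ))).im) := by
    intro E hE v r u hu
    choose ψ θ hθ hEeq using fun j => (hE j).2.2
    have hb : ∀ {Tt : ℂ → ℝ}, (Tt = Complex.re ∨ Tt = Complex.im) → ∀ᵐ x ∂(μ.trim hmX),
        Cvg fun m : κ → ℕ => Tt (∏ j, (((evg (ψ j) (π (act.S (pv (q j) m) x)) : Circle) : ℂ) *
          (θ j (act.S (pv (q j) m) x) * ex g (v j) (act.S (pv (q j) m) x) *
            (mf N (u j) (act.S (pv (q j) m) x) : ℂ)))) := fun {Tt} hT =>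
      @baseA V X Y _ _ 𝒜 mH m mY (μ.trim hmX) hprob κ _ _ d D J _ _ Z _ _ _ _ _ lam _
        (g.trim m hmX hgm) act' S hS hSadd hBi ν N hN' R hNR (indep_trim m hmX hle1 hle2 hind)
        (B r) (hB r) (hνB r) (hret r) (fun χ hχ => integral_char χ hχ) π hπ' A hlin hnil heq'
        hle3 hAinv
        (indep_trim m hmX hle3 (sup_le hle1 hle2) (indep_of_indep_of_le_left hindW le_sup_right))
        hmH (indep_trim m hmX (hπcomap.trans hleZ) hHm (indep_of_indep_of_le_left hindH hπcomap))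
        q v u (by rw [← hεeq]; exact hu) ψ θ hθ Tt hT
    have hEall : ∀ᵐ x ∂(μ.trim hmX), ∀ j (m : κ → ℕ), E j (act.S (pv (q j) m) x) =
        ((evg (ψ j) (π (act.S (pv (q j) m) x)) : Circle) : ℂ) * θ j (act.S (pv (q j) m) x) := by
      rw [ae_all_iff]
      intro j
      rw [ae_all_iff]
      intro m'
      exact (@MeasurePreserving.quasiMeasurePreserving X X m m _ _ _
        (@MAct.mp (Fin d → ℤ) X _ m (μ.trim hmX) act' (pv (q j) m'))).ae (hEeq j)
    filter_upwards [hb (Or.inl rfl), hb (Or.inr rfl), hEall] with x h1 h2 h3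
    constructor
    · refine h1.congr fun m' => ?_
      congr 1
      refine Finset.prod_congr rfl fun j _ => ?_
      rw [h3]
      ring
    · refine h2.congr fun m' => ?_
      congr 1
      refine Finset.prod_congr rfl fun j _ => ?_
      rw [h3]
      ring
  have hχPu : ∀ (χ : Z →ₜ* Circle) (u : Fin d → ℤ),
      (fun x => ((χ (π (act.S u x)) : Circle) : ℂ)) ∈ Pu := by
    intro χ u
    have h9 : (fun x => ((evg (Additive.ofMul (1, χ) : Gam Z) (π x) : Circle) : ℂ)) ∈ Pu := by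
      refine ⟨?_, fun x => Circle.norm_coe _, Additive.ofMul (1, χ), fun _ => 1,
        @UGroup.one X m _ (@ugroup_Pset X d 𝒜 m (μ.trim hmX) act' hle3), ?_⟩
      · exact ((continuous_subtype_val.comp (continuous_evg _)).measurable.comp
          hπ𝒵).mono le_sup_left le_rfl
      · exact Eventually.of_forall fun x => by simp
    have h10 := @puA_shift X Z _ _ _ 𝒵 𝒜 m (μ.trim hmX) d act' π A heq' hPAinv hAinv _ h9 u
    have e1 : (fun x => ((χ (π (act.S u x)) : Circle) : ℂ)) =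
        fun x => ((evg (Additive.ofMul (1, χ) : Gam Z) (π (act.S u x)) : Circle) : ℂ) := by
      funext x
      change ((χ (π (act.S u x)) : Circle) : ℂ) =
        (((1 : Circle) * χ (π (act.S u x)) : Circle) : ℂ)
      rw [one_mul]
    rw [e1]
    exact h10
  have hqm : ∀ u : Fin d → ℤ, @Measure.QuasiMeasurePreserving X Z _ m
      (fun x => π (act.S u x)) (μ.trim hmX) lam := by
    intro u
    exact @MeasurePreserving.quasiMeasurePreserving X Z m _ _ _ _
      (@MeasurePreserving.comp X X Z m m _ (μ.trim hmX) (μ.trim hmX) lam π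
        (act.S u) hπ' (@MAct.mp (Fin d → ℤ) X _ m (μ.trim hmX) act' u))
  obtain ⟨fu, hfu⟩ : ∃ fu : (Fin d → ℤ) → X → Z, fu = fun u x => π (act.S u x) := ⟨_, rfl⟩
  have h𝒵' : 𝒵 = ⨆ u : Fin d → ℤ, MeasurableSpace.comap (fu u) inferInstance := by
    rw [h𝒵, hfu]
  have hχ' : ∀ (χ : Z →ₜ* Circle) (u : Fin d → ℤ),
      ((fun z => ((χ z : Circle) : ℂ)) ∘ fu u) ∈ Pu := by
    rw [hfu]
    exact hχPu
  have hqm' : ∀ u : Fin d → ℤ, @Measure.QuasiMeasurePreserving X Z _ m
      (fu u) (μ.trim hmX) lam := by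
    rw [hfu]
    exact hqm
  have h1 := @realK V X Y _ _ m mY (μ.trim hmX) hprob κ _ _ d D J _ _ (g.trim m hmX hgm)
    act' ν N hN' B hBmono hB hνB Pu hP' ?_ q ε hε hε1 hbase F hFm hF1
  · simp only [hq]
    exact h1
  intro D hD
  set mK : MeasurableSpace X := ⨆ i, MeasurableSpace.comap
    (@KW V X Y _ _ m mY (μ.trim hmX) (g.trim m hmX hgm) N B ν Pu i) (borel ℝ) with hmK
  have hKle : mK ≤ @eventuallyMeasurableSpace X mK (@ae X (@Measure X m) _ _ (μ.trim hmX)) _ :=
    fun s hs => ⟨s, hs, EventuallyEq.rfl⟩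
  have h3 : (⨆ v, MeasurableSpace.comap (g.G v) (borel ℝ)) ⊔
      MeasurableSpace.comap N inferInstance ≤
      @eventuallyMeasurableSpace X mK (@ae X (@Measure X m) _ _ (μ.trim hmX)) _ := by
    intro s hs
    obtain ⟨s', hs', hss'⟩ := @gen_KP V X Y _ _ m mY (μ.trim hmX) _ (g.trim m hmX hgm) ν N hN' B
      hBmono hB hνB hBU s hs
    refine ⟨s', ?_, hss'⟩
    have h4 : (⨆ i, MeasurableSpace.comap
        (@KP V X Y _ _ m mY (μ.trim hmX) (g.trim m hmX hgm) N B ν i) (borel ℝ)) ≤ mK :=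
      iSup_le fun i => le_iSup (fun i => MeasurableSpace.comap
        (@KW V X Y _ _ m mY (μ.trim hmX) (g.trim m hmX hgm) N B ν Pu i) (borel ℝ)) (Sum.inl i)
    exact h4 _ hs'
  have hPuK : ∀ E ∈ Pu, Measurable[mK] E := by
    intro E hE
    have hb : ∀ b : Bool, Measurable[mK] fun x => if b then (E x).re else (E x).im := by
      intro b
      rw [measurable_iff_comap_le, BorelSpace.measurable_eq (α := ℝ)]
      exact le_iSup (fun i => MeasurableSpace.comap
        (@KW V X Y _ _ m mY (μ.trim hmX) (g.trim m hmX hgm) N B ν Pu i) (borel ℝ))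
        (Sum.inr (⟨E, hE⟩, b))
    have h5 := hb true
    have h6 := hb false
    simp only [if_true, Bool.false_eq_true, if_false] at h5 h6
    exact measurable_of_re_im h5 h6
  have h5 : 𝒜 ≤ mK := by
    refine hAgen.trans (iSup_le fun p => ?_)
    have hmem : p.1.1 ∈ Pu := by
      refine ⟨p.1.2.1.mono le_sup_right le_rfl, p.1.2.2.1, 0, p.1.1, ⟨p.1.2.1, p.1.2.2.1,
        isPh_trim act hmX hact (p.1.2.1.mono hle3 le_rfl) p.1.2.2.2⟩, ?_⟩
      exact Eventually.of_forall fun x => by simp [evg_zero]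
    exact le_iSup (fun i => MeasurableSpace.comap
        (@KW V X Y _ _ m mY (μ.trim hmX) (g.trim m hmX hgm) N B ν Pu i) (borel ℝ))
        (Sum.inr (⟨p.1.1, hmem⟩, p.2))
  have h6 : 𝒵 ≤ @eventuallyMeasurableSpace X mK (@ae X (@Measure X m) _ _ (μ.trim hmX)) _ := by
    rw [h𝒵']
    refine iSup_le fun u => ?_
    rintro _ ⟨B₀, hB₀, rfl⟩
    obtain ⟨B₁, hB₁, hBB⟩ := exists_ch_set (lam := lam) hB₀
    refine ⟨fu u ⁻¹' B₁, ?_, ?_⟩
    · have h7 : @Measurable X Z mK (chSigma Z) (fu u) := by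
        rw [@measurable_iff_comap_le X Z mK (chSigma Z)]
        unfold chSigma
        rw [MeasurableSpace.comap_iSup]
        refine iSup_le fun χ => ?_
        rw [MeasurableSpace.comap_comp]
        have h11 := hPuK _ (hχ' χ u)
        rw [measurable_iff_comap_le, BorelSpace.measurable_eq (α := ℂ)] at h11
        exact h11
      exact h7 hB₁
    · exact @Measure.QuasiMeasurePreserving.preimage_ae_eq X Z m _ _ _ _ _ _ (hqm' u) hBB
  have hD' : MeasurableSet[((⨆ v, MeasurableSpace.comap (g.G v) (borel ℝ)) ⊔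
      MeasurableSpace.comap N inferInstance) ⊔ (𝒵 ⊔ 𝒜)] D := by
    rw [← hm]
    exact hD
  exact (sup_le h3 (sup_le h6 (h5.trans hKle))) D hD'

end Pool.Agent.Lib.Pf720ca
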