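import Pool.Agent.Lib.Pf720ca.GenZ
import Mathlib.Probability.Independence.Basic

/-!
# Joint independence
-/

set_option autoImplicit false
set_option linter.unusedSectionVars false

open MeasureTheory Filter Topology ProbabilityTheory
open scoped ENNReal

namespace Pool.Agent.Lib.Pf720ca

/-- three independent σ-algebras -/
lemma indep_sup3 {X : Type} {m₁ m₂ m₃ : MeasurableSpace X} {mX : MeasurableSpace X}
    {μ : Measure X} [IsProbabilityMeasure μ] (h1 : m₁ ≤ mX) (h2 : m₂ ≤ mX) (h3 : m₃ ≤ mX)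
    (h : Indep m₁ (m₃ ⊔ m₂) μ) (h' : Indep m₂ m₃ μ) : Indep (m₁ ⊔ m₂) m₃ μ := by
  set p : Set (Set X) := {u | ∃ s t, MeasurableSet[m₁] s ∧ MeasurableSet[m₂] t ∧ u = s ∩ t} with hp
  have hpi : IsPiSystem p := by
    rintro _ ⟨s, t, hs, ht, rfl⟩ _ ⟨s', t', hs', ht', rfl⟩ _
    refine ⟨s ∩ s', t ∩ t', @MeasurableSet.inter X m₁ _ _ hs hs',
      @MeasurableSet.inter X m₂ _ _ ht ht', ?_⟩
    rw [Set.inter_inter_inter_comm]
  have hle : m₁ ⊔ m₂ ≤ MeasurableSpace.generateFrom p := by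
    refine sup_le (fun s hs => ?_) (fun t ht => ?_)
    · refine MeasurableSpace.measurableSet_generateFrom
        ⟨s, Set.univ, hs, @MeasurableSet.univ X m₂, ?_⟩
      rw [Set.inter_univ]
    · refine MeasurableSpace.measurableSet_generateFrom
        ⟨Set.univ, t, @MeasurableSet.univ X m₁, ht, ?_⟩
      rw [Set.univ_inter]
  have key : Indep (MeasurableSpace.generateFrom p)
      (MeasurableSpace.generateFrom {u | MeasurableSet[m₃] u}) μ := by
    refine IndepSets.indep' (μ := μ) ?_ ?_ hpi ?_ ?_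
    · rintro _ ⟨s, t, hs, ht, rfl⟩
      exact @MeasurableSet.inter X mX _ _ (h1 _ hs) (h2 _ ht)
    · intro u hu
      exact h3 _ hu
    · exact @MeasurableSpace.isPiSystem_measurableSet X m₃
    · rw [IndepSets_iff]
      rintro _ u ⟨s, t, hs, ht, rfl⟩ hu
      have hu' : MeasurableSet[m₃] u := hu
      have e1 := (Indep_iff m₁ (m₃ ⊔ m₂) μ).1 h s (t ∩ u) hs
        (@MeasurableSet.inter X (m₃ ⊔ m₂) _ _ ((le_sup_right : m₂ ≤ m₃ ⊔ m₂) _ ht)
          ((le_sup_left : m₃ ≤ m₃ ⊔ m₂) _ hu'))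
      have e2 := (Indep_iff m₁ (m₃ ⊔ m₂) μ).1 h s t hs ((le_sup_right : m₂ ≤ m₃ ⊔ m₂) _ ht)
      have e3 := (Indep_iff m₂ m₃ μ).1 h' t u ht hu'
      rw [Set.inter_assoc, e1, e2, e3, mul_assoc]
  rw [@MeasurableSpace.generateFrom_measurableSet X m₃] at key
  exact indep_of_indep_of_le_left key hle

/-- the same modulo null sets -/
lemma mod_sup {X : Type} {m₁ m₁' m₂ : MeasurableSpace X} {mX : MeasurableSpace X} {μ : Measure X}
    (h' : m₁' ≤ @eventuallyMeasurableSpace X m₁ (ae μ) _) :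
    m₁' ⊔ m₂ ≤ @eventuallyMeasurableSpace X (m₁ ⊔ m₂) (ae μ) _ := by
  refine sup_le (fun s hs => ?_) (fun t ht => ?_)
  · obtain ⟨s', hs', hss'⟩ := h' s hs
    exact ⟨s', (le_sup_left : m₁ ≤ m₁ ⊔ m₂) _ hs', hss'⟩
  · exact ⟨t, (le_sup_right : m₂ ≤ m₁ ⊔ m₂) _ ht, EventuallyEq.rfl⟩

end Pool.Agent.Lib.Pf720ca
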