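import Pool.Agent.Lib.Pf720ca.FinalR
import Pool.Agent.Lib.Pf720ca.Ind
import Pool.Agent.Lib.Pf720mp.AffClos

/-!
# Affine, Gaussian and Poisson factors and phases, all independent: one variable
-/

set_option autoImplicit false
set_option linter.unusedSectionVars false

open MeasureTheory Filter Topology ProbabilityTheory
open scoped ENNReal

namespace Pool.Agent.Lib.Pf720ca

open Pool.Agent.Lib.Pf720ae Pool.Agent.Lib.Pf720pi Pool.Agent.Lib.Pf720gs
open Pool.Agent.Lib.Pf720ae.Aff (affc linf linf_apply evg Gam oprod fac_mul fac_pw map_oprod)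
open Pool.Agent.Lib.Pf720po (IsPoisson N_pw permActS isPoisson_trim indep_trim gen_KP KP)
open Pool.Agent.Lib.Pf720mp (Ex mon exs eval_eq_sum_ex)
open Pool.Agent.Lib.Pf720pm (pv Dep IsPol PolR PolC cls isPol_cls polC_of_polR)
open Pool.Agent.Lib.Pf720pq (RetM exists_pvs polC_of_trim)
open Pool.Agent.Lib.Pf720pr (phSigma meas_re_im measurable_phSigma IsPh Pset)

section aff

variable {X Z : Type} [CommGroup Z] [TopologicalSpace Z] [IsTopologicalGroup Z] [CompactSpace Z]
  [T2Space Z] [MeasurableSpace Z] [BorelSpace Z] {lam : Measure Z} [IsProbabilityMeasure lam]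
  {mX : MeasurableSpace X} {μ : Measure X} [IsProbabilityMeasure μ] {d : ℕ}

/-- the maps of the factor of a commutative action commute -/
lemma comm_of_factor [lam.IsHaarMeasure] (T : Fin d → Equiv.Perm X)
    (hT : ∀ i, Measurable (T i) ∧ Measurable (T i).symm ∧ MeasurePreserving (T i) μ μ)
    (hcomm : ∀ i i', T i * T i' = T i' * T i) (A : Fin d → Equiv.Perm Z)
    (hAc : ∀ i, Continuous (A i)) (π : X → Z) (hπ : MeasurePreserving π μ lam)
    (hπT : ∀ i, ∀ᵐ x ∂μ, π (T i x) = A i (π x)) : ∀ i i', A i * A i' = A i' * A i := by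
  intro i i'
  have h1 : ∀ᵐ x ∂μ, (A i * A i') (π x) = (A i' * A i) (π x) := by
    filter_upwards [fac_mul (g := T i) (g' := A i) (hT i').2.2 (hπT i) (hπT i'),
      fac_mul (g := T i') (g' := A i') (hT i).2.2 (hπT i') (hπT i)] with x e1 e2
    rw [← e1, ← e2, hcomm]
  have hcl : IsClosed {y : Z | (A i * A i') y = (A i' * A i) y} :=
    isClosed_eq ((hAc i).comp (hAc i')) ((hAc i').comp (hAc i))
  have h2 : ∀ᵐ y ∂lam, (A i * A i') y = (A i' * A i) y := by
    rw [← hπ.map_eq]
    exact (ae_map_iff hπ.measurable.aemeasurable hcl.measurableSet).2 h1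
  have h3 : {y : Z | (A i * A i') y = (A i' * A i) y}ᶜ = ∅ := by
    refine (hcl.isOpen_compl.measure_eq_zero_iff lam).1 ?_
    exact h2
  ext1 y
  by_contra hcon
  have h4 : y ∈ {y : Z | (A i * A i') y = (A i' * A i) y}ᶜ := hcon
  rw [h3] at h4
  exact h4

lemma lin_comm {A : Fin d → Equiv.Perm Z} (hcomm : ∀ i i', A i * A i' = A i' * A i)
    {a : Fin d → Z} {α : Fin d → Z →* Z} (hA : ∀ i z, A i z = a i * α i z) (i i' : Fin d) (z : Z) :
    α i (α i' z) = α i' (α i z) := by
  have h1 : ∀ z, a i * (α i (a i') * α i (α i' z)) = a i' * (α i' (a i) * α i' (α i z)) := by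
    intro z
    have h2 : (A i * A i') z = (A i' * A i) z := by rw [hcomm]
    change A i (A i' z) = A i' (A i z) at h2
    rw [hA, hA, hA i', hA, map_mul, map_mul] at h2
    exact h2
  have h2 := h1 1
  simp only [map_one, mul_one] at h2
  have h3 := h1 z
  rw [← mul_assoc, ← mul_assoc, h2] at h3
  exact mul_left_cancel h3

lemma nilpotent_of_comm {G : Type} [Group G] {S : Set G} (h : ∀ x ∈ S, ∀ y ∈ S, x * y = y * x) :
    Group.IsNilpotent (Subgroup.closure S) := by
  have : IsMulCommutative (Subgroup.closure S) := Subgroup.isMulCommutative_closure h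
  let _ : CommGroup (Subgroup.closure S) :=
    { (inferInstance : Group (Subgroup.closure S)) with mul_comm := fun a b => mul_comm' a b }
  exact CommGroup.isNilpotent

end aff

/-- Affine, Gaussian and Poisson factors and phases, one variable -/
theorem classical_one {X Y Z : Type} {mX : MeasurableSpace X} {mY : MeasurableSpace Y}
    {μ : Measure X} [IsProbabilityMeasure μ]
    {d : ℕ} (T : Fin d → Equiv.Perm X)
    (hT : ∀ i, Measurable (T i) ∧ Measurable (T i).symm ∧ MeasurePreserving (T i) μ μ)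
    (hcomm : ∀ i i', T i * T i' = T i' * T i)
    [CommGroup Z] [TopologicalSpace Z] [IsTopologicalGroup Z] [CompactSpace Z]
    [T2Space Z] [MeasurableSpace Z] [BorelSpace Z] {lam : Measure Z} [IsProbabilityMeasure lam]
    [lam.IsHaarMeasure] [lam.Regular]
    (A : Fin d → Equiv.Perm Z) (hAc : ∀ i, Continuous (A i)) (a : Fin d → Z) (α : Fin d → Z →* Z)
    (hAα : ∀ i z, A i z = a i * α i z) (π : X → Z) (hπ : MeasurePreserving π μ lam)
    (hπT : ∀ i, ∀ᵐ x ∂μ, π (T i x) = A i (π x))
    {I : Type} (ξ : I → X → ℝ)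
    (hξm : ∀ i, Measurable (ξ i))
    (hξ : IsGaussianProcess (fun (p : I × (Fin d → ℤ)) x => ξ p.1 (pw T p.2 x)) μ)
    {ν : Measure Y} (R : Fin d → Equiv.Perm Y)
    (hR : ∀ i, Measurable (R i) ∧ Measurable (R i).symm ∧ MeasurePreserving (R i) ν ν)
    (hRcomm : ∀ i i', R i * R i' = R i' * R i)
    {N : X → Measure Y} (hN : IsPoisson μ ν N) (hNT : ∀ i x, N (T i x) = (N x).map (R i))
    (hind : Indep (⨆ p : I × (Fin d → ℤ),
      MeasurableSpace.comap (fun x => ξ p.1 (pw T p.2 x)) (borel ℝ))
      (MeasurableSpace.comap N inferInstance) μ)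
    {B : ℕ → Set Y} (hBmono : Monotone B)
    (hB : ∀ r, MeasurableSet (B r)) (hνB : ∀ r, ν (B r) < ⊤) (hBU : ⋃ r, B r = Set.univ)
    (hret : ∀ r, RetM (permActS R hR hRcomm) (B r))
    {Ib : Type} (θ : Ib → X → ℂ) (hθm : ∀ b, Measurable (θ b)) (hθ1 : ∀ b x, ‖θ b x‖ = 1)
    (hθp : ∀ b, ∀ᵐ x ∂μ, ∃ p : MvPolynomial (Fin d) ℝ, ∀ u : Fin d → ℤ,
      θ b (pw T u x) = Complex.exp ((MvPolynomial.eval (fun i => (u i : ℝ)) p : ℝ) * Complex.I))
    (hindW : Indep (phSigma T θ) ((⨆ p : I × (Fin d → ℤ),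
      MeasurableSpace.comap (fun x => ξ p.1 (pw T p.2 x)) (borel ℝ)) ⊔
      MeasurableSpace.comap N inferInstance) μ)
    (hindZ : Indep (MeasurableSpace.comap π inferInstance) (((⨆ p : I × (Fin d → ℤ),
      MeasurableSpace.comap (fun x => ξ p.1 (pw T p.2 x)) (borel ℝ)) ⊔
      MeasurableSpace.comap N inferInstance) ⊔ phSigma T θ) μ)
    (Q : (k : ℕ) → Set (Fin d → MvPolynomial (Fin k) ℤ)) :
    PolC μ T {1} Q (MeasurableSpace.comap π inferInstance ⊔ (((⨆ p : I × (Fin d → ℤ),
      MeasurableSpace.comap (fun x => ξ p.1 (pw T p.2 x)) (borel ℝ)) ⊔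
      MeasurableSpace.comap N inferInstance) ⊔ phSigma T θ)) := by
  set ζ : I × (Fin d → ℤ) → X → ℝ := fun p x => ξ p.1 (pw T p.2 x) with hζ
  have hζm : ∀ p, Measurable (ζ p) := fun p => (hξm _).comp (mp_pw T hT _).measurable
  set act : MAct (Fin d → ℤ) X μ := permAct T hT hcomm with hactdef
  set g : GF ((I × (Fin d → ℤ)) →₀ ℝ) X μ := fam hζm hξ with hg
  set S : (Fin d → ℤ) → ((I × (Fin d → ℤ)) →₀ ℝ) →ₗ[ℝ] ((I × (Fin d → ℤ)) →₀ ℝ) :=
    fun w => Finsupp.lmapDomain ℝ ℝ (fun p => (p.1, p.2 + w)) with hSdef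
  have hζS : ∀ (p : I × (Fin d → ℤ)) w x, ζ (p.1, p.2 + w) x = ζ p (act.S w x) := by
    intro p w x
    simp only [hζ, hactdef, permAct]
    rw [pw_add T hcomm]
    rfl
  have hlcS : ∀ w v x, lc ζ (S w v) x = lc ζ v (act.S w x) := by
    intro w v x
    induction v using Finsupp.induction_linear with
    | zero => simp [lc]
    | add u v hu hv => rw [map_add, lc_add, lc_add, hu, hv]
    | single p c =>
      have e : (Finsupp.single p c : (I × (Fin d → ℤ)) →₀ ℝ) = c • Finsupp.single p 1 := by
        rw [Finsupp.smul_single, smul_eq_mul, mul_one]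
      have e2 : S w (Finsupp.single p 1) = Finsupp.single (p.1, p.2 + w) 1 := by
        simp only [hSdef, Finsupp.lmapDomain_apply, Finsupp.mapDomain_single]
      rw [e, map_smul, lc_smul, lc_smul, e2, lc_single, lc_single, hζS]
  have hS : ∀ w v x, g.G (S w v) x = g.G v (act.S w x) := by
    intro w v x
    show lc ζ (S w v) x - ∫ z, lc ζ (S w v) z ∂μ = lc ζ v (act.S w x) - ∫ z, lc ζ v z ∂μ
    rw [hlcS]
    simp only [hlcS]
    rw [act.integral_comp w (measurable_lc hζm v)]
  have hSadd : ∀ w w' v, S (w + w') v = S w (S w' v) := by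
    intro w w' v
    simp only [hSdef, Finsupp.lmapDomain_apply]
    rw [← Finsupp.mapDomain_comp]
    congr 1
    funext p
    simp only [Function.comp]
    rw [add_assoc, add_comm w' w]
  have hBi : ∀ w u v, g.B (S w u) (S w v) = g.B u v := by
    intro w u v
    show ∫ x, g.G (S w u) x * g.G (S w v) x ∂μ = ∫ x, g.G u x * g.G v x ∂μ
    simp only [hS]
    exact act.integral_comp w (f := fun x => g.G u x * g.G v x) ((g.meas u).mul (g.meas v))
  have hNR : ∀ w x, N (act.S w x) = (N x).map ((permActS R hR hRcomm).S w) := fun w x =>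
    (N_pw T R (fun i => ⟨(hR i).1, (hR i).2.1⟩) hNT w x).2
  -- the generated σ-algebras
  have hgen : (⨆ v, MeasurableSpace.comap (g.G v) (borel ℝ)) =
      ⨆ p : I × (Fin d → ℤ), MeasurableSpace.comap (ζ p) (borel ℝ) := by
    refine le_antisymm (iSup_le fun v => ?_) (iSup_le fun p => ?_)
    · refine comap_le_of_measurable ?_
      have e : g.G v = fun x => (∑ p ∈ v.support, v p * ζ p x) - ∫ z, lc ζ v z ∂μ := by
        funext x
        show lc ζ v x - ∫ z, lc ζ v z ∂μ = _
        rw [lc_eq_sum]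
      rw [e]
      refine Measurable.sub_const ?_ _
      exact Finset.measurable_fun_sum _ fun p _ => (measurable_iSup_comap ζ p).const_mul _
    · have e : ζ p = fun x => g.G (Finsupp.single p 1) x + ∫ z, ζ p z ∂μ := by
        funext x
        show ζ p x = (lc ζ (Finsupp.single p 1) x - ∫ z, lc ζ (Finsupp.single p 1) z ∂μ) + _
        simp only [lc_single]
        ring
      refine comap_le_of_measurable ?_
      rw [e]
      exact (measurable_iSup_comap g.G _).add_const _
  rw [← hgen]
  rw [← hgen] at hind hindW hindZ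
  have hA : phSigma T θ ≤ mX := by
    refine iSup_le fun p => ?_
    rw [← BorelSpace.measurable_eq (α := ℂ)]
    exact ((hθm p.1).comp (mp_pw T hT p.2).measurable).comap_le
  have hAinv : ∀ w, Measurable[phSigma T θ, phSigma T θ] (act.S w) := by
    intro w
    rw [measurable_iff_comap_le, MeasurableSpace.comap_iSup]
    refine iSup_le fun p => ?_
    rw [MeasurableSpace.comap_comp]
    have e : (fun x => θ p.1 (pw T p.2 x)) ∘ act.S w = fun x => θ p.1 (pw T (p.2 + w) x) := by
      funext x
      simp only [Function.comp, hactdef, permAct]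
      rw [pw_add T hcomm]
      rfl
    rw [e]
    exact le_iSup (fun p : Ib × (Fin d → ℤ) =>
      MeasurableSpace.comap (fun x => θ p.1 (pw T p.2 x)) (borel ℂ)) (p.1, p.2 + w)
  have hph : ∀ b, IsPh act (θ b) := fun b => hθp b
  have hmem : ∀ p : Ib × (Fin d → ℤ), (fun x => θ p.1 (pw T p.2 x)) ∈ Pset (phSigma T θ) act :=
    fun p => ⟨measurable_phSigma T θ p.1 p.2, fun x => hθ1 _ _, (hph p.1).shift p.2⟩
  have hAgen : phSigma T θ ≤ ⨆ p : (Pset (phSigma T θ) act) × Bool, MeasurableSpace.comap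
      (fun x => if p.2 then (p.1.1 x).re else (p.1.1 x).im) (borel ℝ) := by
    refine iSup_le fun q => ?_
    rw [← BorelSpace.measurable_eq (α := ℂ), ← measurable_iff_comap_le]
    have h1 := measurable_iSup_comap (fun (p : (Pset (phSigma T θ) act) × Bool) (x : X) =>
      if p.2 then (p.1.1 x).re else (p.1.1 x).im) (⟨_, hmem q⟩, true)
    have h2 := measurable_iSup_comap (fun (p : (Pset (phSigma T θ) act) × Bool) (x : X) =>
      if p.2 then (p.1.1 x).re else (p.1.1 x).im) (⟨_, hmem q⟩, false)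
    simp only [if_true, Bool.false_eq_true, if_false] at h1 h2
    exact meas_re_im h1 h2
  -- the affine factor
  have hAcomm := comm_of_factor T hT hcomm A hAc π hπ hπT
  have hTaff : ∀ i, A i ∈ affc Z := by
    intro i
    refine ⟨hAc i, ?_, fun x y => ?_⟩
    · exact ((hAc i).homeoOfEquivCompactToT2).symm.continuous
    · rw [hAα, hAα, hAα, hAα, map_mul, map_one, mul_one]
      rw [mul_mul_mul_comm, mul_assoc, mul_comm]
      simp only [mul_assoc, mul_comm]
  set A' : Fin d → affc Z := fun i => ⟨A i, hTaff i⟩ with hA'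
  have hlinα : ∀ i x, linf (A' i) x = α i x := by
    intro i x
    rw [linf_apply]
    change A i x / A i 1 = α i x
    rw [hAα, hAα, map_one, mul_one, mul_div_cancel_left]
  have hlin : ∀ i j x, linf (A' i) (linf (A' j) x) = linf (A' j) (linf (A' i) x) := by
    intro i j x
    rw [hlinα, hlinα, hlinα, hlinα, lin_comm hAcomm hAα]
  have hnil : Group.IsNilpotent
      (Subgroup.closure (Set.range fun i => ((A' i : affc Z) : Equiv.Perm Z))) := by
    refine nilpotent_of_comm ?_
    rintro _ ⟨i, rfl⟩ _ ⟨j, rfl⟩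
    exact hAcomm i j
  have heq : ∀ (u : Fin d → ℤ), ∀ᵐ x ∂μ,
      π (act.S u x) = ((oprod A' u : affc Z) : Equiv.Perm Z) (π x) := by
    intro u
    have h1 : ((oprod A' u : affc Z) : Equiv.Perm Z) = oprod A u := map_oprod (affc Z).subtype A' u
    rw [h1]
    exact fac_pw T A hT hπT u
  have hGN : (⨆ v, MeasurableSpace.comap (g.G v) (borel ℝ)) ⊔
      MeasurableSpace.comap N inferInstance ≤ mX :=
    sup_le (iSup_le fun v => comap_le_of_measurable (g.meas v)) hN.1.comap_le
  have hπle : MeasurableSpace.comap π inferInstance ≤ mX := hπ.measurable.comap_le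
  have hZmod : (⨆ u : Fin d → ℤ, MeasurableSpace.comap (fun x => π (act.S u x)) inferInstance) ≤
      @eventuallyMeasurableSpace X (MeasurableSpace.comap π inferInstance) (ae μ) _ := by
    refine iSup_le fun u => ?_
    rintro _ ⟨B₀, hB₀, rfl⟩
    refine ⟨π ⁻¹' (((oprod A' u : affc Z) : Equiv.Perm Z) ⁻¹' B₀),
      ⟨_, (oprod A' u).2.1.measurable hB₀, rfl⟩, ?_⟩
    filter_upwards [heq u] with x hx
    show (π (act.S u x) ∈ B₀) = (((oprod A' u : affc Z) : Equiv.Perm Z) (π x) ∈ B₀)
    rw [hx]
  have hZle : (⨆ u : Fin d → ℤ, MeasurableSpace.comap (fun x => π (act.S u x)) inferInstance) ≤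
      mX := iSup_le fun u => (hπ.measurable.comp (act.mp u).measurable).comap_le
  have hZA : Indep (⨆ u : Fin d → ℤ, MeasurableSpace.comap (fun x => π (act.S u x)) inferInstance)
      (phSigma T θ) μ := indep_mod (indep_of_indep_of_le_right hindZ le_sup_right) hZmod
  have hPW : Indep ((⨆ u : Fin d → ℤ,
      MeasurableSpace.comap (fun x => π (act.S u x)) inferInstance) ⊔ phSigma T θ)
      ((⨆ v, MeasurableSpace.comap (g.G v) (borel ℝ)) ⊔ MeasurableSpace.comap N inferInstance) μ :=
    indep_mod (indep_sup3 hπle hA hGN hindZ hindW) (mod_sup hZmod)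
  have hmX : ((⨆ v, MeasurableSpace.comap (g.G v) (borel ℝ)) ⊔
      MeasurableSpace.comap N inferInstance) ⊔ ((⨆ u : Fin d → ℤ,
      MeasurableSpace.comap (fun x => π (act.S u x)) inferInstance) ⊔ phSigma T θ) ≤ mX :=
    sup_le hGN (sup_le hZle hA)
  have hact : ∀ w, Measurable[((⨆ v, MeasurableSpace.comap (g.G v) (borel ℝ)) ⊔
      MeasurableSpace.comap N inferInstance) ⊔ ((⨆ u : Fin d → ℤ,
      MeasurableSpace.comap (fun x => π (act.S u x)) inferInstance) ⊔ phSigma T θ),
      ((⨆ v, MeasurableSpace.comap (g.G v) (borel ℝ)) ⊔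
      MeasurableSpace.comap N inferInstance) ⊔ ((⨆ u : Fin d → ℤ,
      MeasurableSpace.comap (fun x => π (act.S u x)) inferInstance) ⊔ phSigma T θ)] (act.S w) := by
    intro w
    rw [measurable_iff_comap_le, MeasurableSpace.comap_sup, MeasurableSpace.comap_sup,
      MeasurableSpace.comap_sup, MeasurableSpace.comap_iSup, MeasurableSpace.comap_iSup]
    refine sup_le (sup_le (iSup_le fun v => ?_) ?_) (sup_le (iSup_le fun u => ?_) ?_)
    · rw [MeasurableSpace.comap_comp]
      have e : g.G v ∘ act.S w = g.G (S w v) := by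
        funext x
        exact (hS w v x).symm
      rw [e]
      exact ((le_iSup (fun v => MeasurableSpace.comap (g.G v) (borel ℝ)) (S w v)).trans
        le_sup_left).trans le_sup_left
    · rw [MeasurableSpace.comap_comp]
      have e : N ∘ act.S w = (fun η : Measure Y => η.map ((permActS R hR hRcomm).S w)) ∘ N := by
        funext x
        exact hNR w x
      rw [e, ← MeasurableSpace.comap_comp]
      exact ((MeasurableSpace.comap_mono
        (Measure.measurable_map _ ((permActS R hR hRcomm).mp w).measurable).comap_le).trans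
        le_sup_right).trans le_sup_left
    · rw [MeasurableSpace.comap_comp]
      have e1 : (fun x => π (act.S u x)) ∘ act.S w = fun x => π (act.S (u + w) x) := by
        funext x
        simp only [Function.comp]
        rw [act.add]
      rw [e1]
      exact ((le_iSup (fun u : Fin d → ℤ =>
        MeasurableSpace.comap (fun x => π (act.S u x)) inferInstance) (u + w)).trans
        le_sup_left).trans le_sup_right
    · exact ((hAinv w).comap_le.trans le_sup_right).trans le_sup_right
  -- convergence for the generated σ-algebra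
  have hRR := aff_trimR _ (⨆ u : Fin d → ℤ, MeasurableSpace.comap (fun x => π (act.S u x))
    inferInstance) (phSigma T θ) g act S hS hSadd hBi hN (permActS R hR hRcomm) hNR hind
    hBmono hB hνB hBU hret hπ A' hlin hnil heq rfl hA hZA hPW hAinv hAgen rfl hmX hact Q
  have hprob : @IsProbabilityMeasure X _ (μ.trim hmX) := by
    refine @IsProbabilityMeasure.mk X _ _ ?_
    rw [trim_measurableSet_eq hmX (@MeasurableSet.univ X _)]
    exact measure_univ
  have hT' : ∀ i, Measurable[((⨆ v, MeasurableSpace.comap (g.G v) (borel ℝ)) ⊔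
      MeasurableSpace.comap N inferInstance) ⊔ ((⨆ u : Fin d → ℤ,
      MeasurableSpace.comap (fun x => π (act.S u x)) inferInstance) ⊔ phSigma T θ),
      ((⨆ v, MeasurableSpace.comap (g.G v) (borel ℝ)) ⊔
      MeasurableSpace.comap N inferInstance) ⊔ ((⨆ u : Fin d → ℤ,
      MeasurableSpace.comap (fun x => π (act.S u x)) inferInstance) ⊔ phSigma T θ)] (T i) ∧
      Measurable[((⨆ v, MeasurableSpace.comap (g.G v) (borel ℝ)) ⊔
      MeasurableSpace.comap N inferInstance) ⊔ ((⨆ u : Fin d → ℤ,
      MeasurableSpace.comap (fun x => π (act.S u x)) inferInstance) ⊔ phSigma T θ),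
      ((⨆ v, MeasurableSpace.comap (g.G v) (borel ℝ)) ⊔
      MeasurableSpace.comap N inferInstance) ⊔ ((⨆ u : Fin d → ℤ,
      MeasurableSpace.comap (fun x => π (act.S u x)) inferInstance) ⊔ phSigma T θ)]
      (T i).symm := by
    intro i
    have h1 := hact (Pi.single i 1)
    have h2 := hact (Pi.single i (-1))
    simp only [hactdef, permAct, pw_single, zpow_one, zpow_neg] at h1 h2
    exact ⟨h1, h2⟩
  have hC := @polC_of_polR X _ (μ.trim hmX) hprob d T (fun i => ⟨(hT' i).1, (hT' i).2,
    mp_trim _ hmX (hT i).2.2 (hT' i).1⟩) hcomm {1} Q hRR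
  have hC2 := polC_of_trim _ T hT {1} Q hmX hC
  intro k hk n P f hP hf
  refine hC2 k hk n P f hP fun j => ⟨(hf j).1, (hf j).2.mono ?_⟩
  refine sup_le ?_ (sup_le le_sup_left (le_sup_right.trans le_sup_right))
  have h0 := le_iSup (fun u : Fin d → ℤ =>
    MeasurableSpace.comap (fun x => π (act.S u x)) inferInstance) 0
  simp only [act.zero] at h0
  exact (h0.trans le_sup_left).trans le_sup_right

end Pool.Agent.Lib.Pf720ca
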