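import Pool.Agent.Lib.Pf720ca.BaseK

/-!
# Exponentials, phases and deterministic polynomial weights
-/

set_option autoImplicit false
set_option linter.unusedSectionVars false

open Finset MeasureTheory Filter Topology ProbabilityTheory
open scoped ENNReal ComplexConjugate

namespace Pool.Agent.Lib.Pf720ca

open Pool.Agent.Lib.Pf720ae Pool.Agent.Lib.Pf720gs
open Pool.Agent.Lib.Pf720po (IsPoisson Amp CSw mf mf_map mf_pos mf_le_one
  measurable_mf ae_of_indep measurableSet_CSw_prod)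
open Pool.Agent.Lib.Pf720mp (Ex mon mon_zero)
open Pool.Agent.Lib.Pf720pm (pv IsPol)
open Pool.Agent.Lib.Pf720pq (RetM exists_pvs)
open Pool.Agent.Lib.Pf720pr (UGroup IsPh Pset ugroup_Pset GoodW goodW_poly isPol_pv)

variable {V X Y : Type} [AddCommGroup V] [Module ℝ V] {𝒜 : MeasurableSpace X}
  {mX : MeasurableSpace X}
  {mY : MeasurableSpace Y} {μ : Measure X}
  [IsProbabilityMeasure μ] {κ : Type} [Fintype κ] [DecidableEq κ] {d : ℕ} {J : Type} [Fintype J]
  [DecidableEq J]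

/-- phases times deterministic polynomial phases are good weights -/
lemma goodR_ph (act : MAct (Fin d → ℤ) X μ) {e : J → (κ → ℕ) → Fin d → ℤ}
    (he : ∀ j, IsPol (e j)) (E : J → X → ℂ) (hE : ∀ j, IsPh act (E j)) (P : MvPolynomial κ ℝ) :
    GoodR μ act (fun (x : X) (m : κ → ℕ) =>
      (Complex.exp ((MvPolynomial.eval (fun l => (m l : ℝ)) P : ℝ) * Complex.I) *
        ∏ j, E j (act.S (e j m) x)).re) ∧
    GoodR μ act (fun (x : X) (m : κ → ℕ) =>
      (Complex.exp ((MvPolynomial.eval (fun l => (m l : ℝ)) P : ℝ) * Complex.I) *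
        ∏ j, E j (act.S (e j m) x)).im) := by
  have key : ∀ᵐ x ∂μ, ∃ P' : MvPolynomial κ ℝ, ∀ m : κ → ℕ,
      Complex.exp ((MvPolynomial.eval (fun l => (m l : ℝ)) P : ℝ) * Complex.I) *
        ∏ j, E j (act.S (e j m) x) =
      Complex.exp ((MvPolynomial.eval (fun l => (m l : ℝ)) P' : ℝ) * Complex.I) := by
    filter_upwards [phase_prod' act e he E hE] with x hx
    obtain ⟨P₂, hP₂⟩ := hx
    refine ⟨P + P₂, fun m => ?_⟩
    rw [hP₂, ← Complex.exp_add, map_add]
    push_cast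
    ring_nf
  constructor
  · intro C _ _ e' he' F hF hF1
    filter_upwards [key] with x hx
    obtain ⟨P', hP'⟩ := hx
    filter_upwards [(goodW_poly act P').1 C e' he' F hF hF1] with ω hω
    refine hω.congr fun m => ?_
    rw [hP', Complex.exp_ofReal_mul_I_re]
  · intro C _ _ e' he' F hF hF1
    filter_upwards [key] with x hx
    obtain ⟨P', hP'⟩ := hx
    filter_upwards [(goodW_poly act P').2 C e' he' F hF hF1] with ω hω
    refine hω.congr fun m => ?_
    rw [hP', Complex.exp_ofReal_mul_I_im]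

theorem expK (g : GF V X μ) (act : MAct (Fin d → ℤ) X μ) (S : (Fin d → ℤ) → V →ₗ[ℝ] V)
    (hS : ∀ w v x, g.G (S w v) x = g.G v (act.S w x))
    (hSadd : ∀ w w' v, S (w + w') v = S w (S w' v))
    (hBi : ∀ w u v, g.B (S w u) (S w v) = g.B u v)
    {ν : Measure Y} {N : X → Measure Y} (hN : IsPoisson μ ν N) (R : MAct (Fin d → ℤ) Y ν)
    (hNR : ∀ w x, N (act.S w x) = (N x).map (R.S w))
    (hind : Indep (⨆ v, MeasurableSpace.comap (g.G v) (borel ℝ))
      (MeasurableSpace.comap N inferInstance) μ)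
    {B : Set Y} (hB : MeasurableSet B) (hνB : ν B < ⊤) (hret : RetM R B)
    (hA : 𝒜 ≤ mX) (hAinv : ∀ w, Measurable[𝒜, 𝒜] (act.S w))
    (hindW : Indep 𝒜
      ((⨆ v, MeasurableSpace.comap (g.G v) (borel ℝ)) ⊔ MeasurableSpace.comap N inferInstance) μ)
    {e : J → (κ → ℕ) → Fin d → ℤ} (he : ∀ j, IsPol (e j)) (h : J → V) (u : J → Y → ℝ)
    (hu : ∀ j, Amp (1 / (2 * ((Fintype.card J : ℝ) + 1) ^ 2)) B (u j))
    (θ : J → X → ℂ) (hθ : ∀ j, θ j ∈ Pset 𝒜 act) (P : MvPolynomial κ ℝ) :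
    ∀ᵐ x ∂μ, Cvg (fun m : κ → ℕ =>
        (Complex.exp ((MvPolynomial.eval (fun l => (m l : ℝ)) P : ℝ) * Complex.I) *
        ∏ j, (θ j (act.S (e j m) x) * ex g (h j) (act.S (e j m) x) *
          (mf N (u j) (act.S (e j m) x) : ℂ))).re) ∧
      Cvg (fun m : κ → ℕ =>
        (Complex.exp ((MvPolynomial.eval (fun l => (m l : ℝ)) P : ℝ) * Complex.I) *
        ∏ j, (θ j (act.S (e j m) x) * ex g (h j) (act.S (e j m) x) *
          (mf N (u j) (act.S (e j m) x) : ℂ))).im) := by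
  obtain ⟨D, q, hq⟩ := exists_pvs he
  set σ : (κ → ℕ) → ℂ := fun m =>
    Complex.exp ((MvPolynomial.eval (fun l => (m l : ℝ)) P : ℝ) * Complex.I) with hσ
  have hσ1 : ∀ m, ‖σ m‖ ≤ 1 := fun m => (Complex.norm_exp_ofReal_mul_I _).le
  have hgood := goodR_ph act he θ (fun j => (hθ j).2.2) P
  simp only [hq] at hgood
  have hle : (⨆ E : Pset 𝒜 act, MeasurableSpace.comap E.1 (borel ℂ)) ≤ 𝒜 := by
    refine iSup_le fun E => ?_
    rw [← BorelSpace.measurable_eq (α := ℂ)]
    exact Measurable.comap_le E.2.1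
  have h1 := baseS (κ := κ) g act S hS hSadd hBi hN R hNR hind hB hνB hret (ugroup_Pset act hA)
    (fun E hE w => ⟨hE.1.comp (hAinv w), fun x => hE.2.1 _, hE.2.2.shift w⟩)
    (indep_of_indep_of_le_left hindW hle) q h u hu θ hθ σ hσ1 hgood.1 hgood.2
  filter_upwards [h1] with x hx
  have e1 : ∀ m : κ → ℕ, σ m * ∏ j, (θ j (act.S (e j m) x) * ex g (h j) (act.S (e j m) x) *
      (mf N (u j) (act.S (e j m) x) : ℂ)) =
      (σ m * ∏ j, θ j (act.S (pv (q j) m) x)) *
      (((∏ j, mf N (u j) (act.S (pv (q j) m) x) : ℝ) : ℂ) *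
      Complex.exp (((∑ j, g.G (h j) (act.S (pv (q j) m) x) : ℝ) : ℂ) * Complex.I)) := by
    intro m
    push_cast
    rw [Finset.sum_mul, Complex.exp_sum, ← Finset.prod_mul_distrib, mul_assoc,
      ← Finset.prod_mul_distrib]
    congr 1
    refine Finset.prod_congr rfl fun j _ => ?_
    rw [hq]
    unfold ex
    ring
  constructor
  · refine (hx.1.1.add (hx.2.2.smul (-1))).congr fun m => ?_
    change _ = (σ m * _).re
    rw [e1, Complex.mul_re, Complex.re_ofReal_mul, Complex.im_ofReal_mul,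
      Complex.exp_ofReal_mul_I_re, Complex.exp_ofReal_mul_I_im]
    ring
  · refine (hx.1.2.add hx.2.1).congr fun m => ?_
    change _ = (σ m * _).im
    rw [e1, Complex.mul_im, Complex.re_ofReal_mul, Complex.im_ofReal_mul,
      Complex.exp_ofReal_mul_I_re, Complex.exp_ofReal_mul_I_im]
    ring

end Pool.Agent.Lib.Pf720ca
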