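import Pool.Agent.Lib.Pf720ca.DecouR
import Pool.Agent.Lib.Pf720pr.ExpoW

/-!
# Averages with random weights of products of exponentials of a Gaussian and a Poisson process
-/

set_option autoImplicit false
set_option linter.unusedSectionVars false

open MeasureTheory Filter Topology ProbabilityTheory
open scoped ENNReal

namespace Pool.Agent.Lib.Pf720ca

open Pool.Agent.Lib.Pf720ae Pool.Agent.Lib.Pf720gs
open Pool.Agent.Lib.Pf720po (IsPoisson Amp CSw mf mf_map mf_pos mf_le_one mix)
open Pool.Agent.Lib.Pf720po.ExpoAux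
open Pool.Agent.Lib.Pf720mp (Ex mon mon_zero)
open Pool.Agent.Lib.Pf720pm (pv pv_add pv_sub pv_zero Dep pv_update)
open Pool.Agent.Lib.Pf720pq (RetM coll_zeroM pv_const not_dep_zero not_dep_neg not_dep_add)


variable {V X Y : Type} [AddCommGroup V] [Module ℝ V] {mX : MeasurableSpace X}
  {mY : MeasurableSpace Y} {μ : Measure X}
  [IsProbabilityMeasure μ] {κ : Type} [Fintype κ] [DecidableEq κ] {d D : ℕ} {J : Type} [Fintype J]
  [DecidableEq J] {Θ : Type} {mΘ : MeasurableSpace Θ} {P : Measure Θ}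

theorem exp_cvg_auxR (g : GF V X μ) (act : MAct (Fin d → ℤ) X μ) (S : (Fin d → ℤ) → V →ₗ[ℝ] V)
    (hS : ∀ w v x, g.G (S w v) x = g.G v (act.S w x))
    (hSadd : ∀ w w' v, S (w + w') v = S w (S w' v))
    (hBi : ∀ w u v, g.B (S w u) (S w v) = g.B u v)
    {ν : Measure Y} {N : X → Measure Y} (hN : IsPoisson μ ν N) (R : MAct (Fin d → ℤ) Y ν)
    (hNR : ∀ w x, N (act.S w x) = (N x).map (R.S w))
    (hind : Indep (⨆ v, MeasurableSpace.comap (g.G v) (borel ℝ))
      (MeasurableSpace.comap N inferInstance) μ)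
    {B : Set Y} (hB : MeasurableSet B) (hνB : ν B < ⊤) (hret : RetM R B)
    (q : J → Ex κ D → Fin d → ℤ) (h : J → V) (u : J → Y → ℝ)
    (hu : ∀ j, Amp (1 / (2 * ((Fintype.card J : ℝ) + 1) ^ 2)) B (u j))
    {ρ : Θ → (κ → ℕ) → ℝ} (hρ : GoodR P act ρ) (hρ1 : ∀ θ m, |ρ θ m| ≤ 1)
    {A : Type} [Fintype A] [DecidableEq A] (π : J → A) (rep : A → J)
    (hπ : ∀ a, π (rep a) = a) (hrep : ∀ j l, ¬ Dep (q j - q (rep (π j))) l)
    (hne : ∀ j j', π j ≠ π j' → ∃ l, Dep (q j' - q j) l) :
    ∀ᵐ θ ∂P, ∀ᵐ x ∂μ, CSw (fun m : κ → ℕ => ρ θ m * ∏ j, mf N (u j) (act.S (pv (q j) m) x))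
      (fun m => ∑ j, g.G (h j) (act.S (pv (q j) m) x)) := by
  have hcardA : Fintype.card A ≤ Fintype.card J :=
    Fintype.card_le_of_surjective π fun a => ⟨rep a, hπ a⟩
  have hev : ∀ j m, pv (q j) m = (q j - q (rep (π j))) 0 + pv (q (rep (π j))) m :=
    fun j m => pv_const (hrep j) m
  set c : J → Fin d → ℤ := fun j => (q j - q (rep (π j))) 0 with hc
  have hε1 : 1 / (2 * ((Fintype.card J : ℝ) + 1) ^ 2) < 1 := by
    have hn : (0 : ℝ) ≤ Fintype.card J := Nat.cast_nonneg _
    rw [div_lt_one (by positivity)]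
    nlinarith
  have hB'm : MeasurableSet (⋃ j, (R.S (c j)) ⁻¹' B) :=
    MeasurableSet.iUnion fun j => (R.mp (c j)).measurable hB
  have hνw : ∀ w, ν (R.S w ⁻¹' B) < ⊤ := fun w => by
    rw [(R.mp w).measure_preimage hB.nullMeasurableSet]; exact hνB
  have hνB' : ν (⋃ j, (R.S (c j)) ⁻¹' B) < ⊤ := by
    refine (measure_iUnion_fintype_le ν _).trans_lt ?_
    exact ENNReal.sum_lt_top.2 fun j _ => hνw _
  set U : A → Y → ℝ := fun a y =>
    ∏ j ∈ Finset.univ.filter (fun j => π j = a), u j (R.S (c j) y) with hU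
  have hUA : ∀ a, Amp (1 / (2 * ((Fintype.card A : ℝ) + 1))) (⋃ j, (R.S (c j)) ⁻¹' B) (U a) :=
    fun a => amp_U π hcardA (fun j => (R.mp (c j)).measurable) hu a
  filter_upwards [core_decR g act S hS hN R hNR q h (fun a => q (rep a)) U hUA hρ] with θ hdec
  have hcore := decouR g act S hS hSadd hBi hN R hNR hind q h hB'm hνB' (fun a => q (rep a)) U hUA
    (hρ1 θ) hdec
  have hcoll : ∀ᵐ x ∂μ, ∀ j j', π j ≠ π j' → Tendsto (fun M : κ → ℕ => avg M fun m =>
      if N x ((R.S (pv (q j) m)) ⁻¹' B ∩ (R.S (pv (q j') m)) ⁻¹' B) = 0 then (0 : ℝ) else 1)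
      atTop (𝓝 0) := by
    rw [ae_all_iff]
    intro j
    rw [ae_all_iff]
    intro j'
    by_cases hjj : π j = π j'
    · exact Eventually.of_forall fun x h => absurd hjj h
    · filter_upwards [coll_zeroM hN act R hNR hB hνB hret (q j) (q j') (hne j j' hjj)]
        with x hx _ using hx
  have hfin : ∀ᵐ x ∂μ, ∀ j m, N x (R.S (pv (q j) m) ⁻¹' B) < ⊤ := by
    rw [ae_all_iff]
    intro j
    rw [ae_all_iff]
    intro m
    exact hN.ae_lt_top ((R.mp _).measurable hB) (hνw _)
  filter_upwards [hcore, hcoll, hfin] with x hx1 hx2 hx3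
  set ind : J → J → (κ → ℕ) → ℝ := fun j j' m => if π j = π j' then 0 else
    (if N x ((R.S (pv (q j) m)) ⁻¹' B ∩ (R.S (pv (q j') m)) ⁻¹' B) = 0 then (0 : ℝ) else 1)
    with hind'
  set coll : (κ → ℕ) → ℝ := fun m => ∑ j, ∑ j', ind j j' m with hcolldef
  have hind0 : ∀ j j' m, 0 ≤ ind j j' m := by
    intro j j' m
    simp only [hind']
    split_ifs <;> norm_num
  have hcoll0 : Tendsto (fun M => avg M coll) atTop (𝓝 0) := by
    have h1 : ∀ j j', Tendsto (fun M => avg M (ind j j')) atTop (𝓝 0) := by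
      intro j j'
      by_cases hjj : π j = π j'
      · have h2 : ind j j' = fun _ => (0 : ℝ) := by
          funext m
          simp only [hind', if_pos hjj]
        rw [h2]
        have h3 : ∀ M : κ → ℕ, avg M (fun _ => (0 : ℝ)) = 0 := fun M => by simp [avg]
        simp only [h3]
        exact tendsto_const_nhds
      · have h2 := hx2 j j' hjj
        simpa only [hind', if_neg hjj] using h2
    have h2 : Tendsto (fun M => ∑ j, ∑ j', avg M (ind j j')) atTop (𝓝 (∑ _j : J, ∑ _j' : J, (0 : ℝ))) :=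
      tendsto_finsetSum _ fun j _ => tendsto_finsetSum _ fun j' _ => h1 j j'
    simp only [Finset.sum_const_zero] at h2
    refine h2.congr fun M => ?_
    rw [hcolldef, avg_fsum]
    exact Finset.sum_congr rfl fun j _ => (avg_fsum _ M _).symm
  have hw : ∀ m, |(∏ j, mf N (u j) (act.S (pv (q j) m) x)) -
      mf N (mix U fun a => R.S (pv (q (rep a)) m)) x| ≤ coll m := by
    intro m
    by_cases hcm : ∀ j j', π j ≠ π j' →
        N x ((R.S (pv (q j) m)) ⁻¹' B ∩ (R.S (pv (q j') m)) ⁻¹' B) = 0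
    · have h1 : ∏ j, mf N (u j) (act.S (pv (q j) m) x) =
          ∏ j, Real.exp (∫ y, Real.log (u j (R.S (pv (q j) m) y)) ∂(N x)) := by
        refine Finset.prod_congr rfl fun j _ => ?_
        rw [mf_map (R.mp _).measurable (fun x => hNR (pv (q j) m) x) (hu j).meas]
        rfl
      have h2 := weight_eq (N x) π (σ := fun j => R.S (pv (q j) m))
        (fun j => (R.mp _).measurable) hB hε1 hu (fun j => hx3 j m) hcm
      have h3 : mf N (mix U fun a => R.S (pv (q (rep a)) m)) x =
          Real.exp (∫ y, Real.log (1 + ∑ a,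
            ((∏ j ∈ Finset.univ.filter (fun j => π j = a), u j (R.S (pv (q j) m) y)) - 1)) ∂(N x)) := by
        unfold mf mix
        congr 1
        refine integral_congr_ae (Eventually.of_forall fun y => ?_)
        simp only [hU]
        congr 2
        refine Finset.sum_congr rfl fun a _ => ?_
        congr 1
        refine Finset.prod_congr rfl fun j hj => ?_
        rw [Finset.mem_filter] at hj
        rw [← R.add, ← hj.2, ← hev j m]
      rw [h1, h2, h3, sub_self, abs_zero]
      exact Finset.sum_nonneg fun j _ => Finset.sum_nonneg fun j' _ => hind0 j j' m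
    · push Not at hcm
      obtain ⟨j, j', hjj, hne'⟩ := hcm
      have h1 : (1 : ℝ) ≤ coll m := by
        have h2 : ind j j' m = 1 := by
          simp only [hind', if_neg hjj, if_neg hne']
        calc (1 : ℝ) = ind j j' m := h2.symm
          _ ≤ ∑ j', ind j j' m :=
            Finset.single_le_sum (f := fun j' => ind j j' m) (fun j' _ => hind0 j j' m)
              (Finset.mem_univ j')
          _ ≤ ∑ j, ∑ j', ind j j' m :=
            Finset.single_le_sum (f := fun j => ∑ j', ind j j' m)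
              (fun j _ => Finset.sum_nonneg fun j' _ => hind0 j j' m) (Finset.mem_univ j)
      refine le_trans ?_ h1
      have h3 : 0 ≤ ∏ j, mf N (u j) (act.S (pv (q j) m) x) :=
        Finset.prod_nonneg fun j _ => (mf_pos N _ _).le
      have h4 : ∏ j, mf N (u j) (act.S (pv (q j) m) x) ≤ 1 :=
        Finset.prod_le_one (fun j _ => (mf_pos N _ _).le) fun j _ =>
          mf_le_one N (fun y => by have := (hu j).pos hε1 y; exact this.le) (hu j).ub _
      have h5 := mf_pos N (mix U fun a => R.S (pv (q (rep a)) m)) x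
      have h6 : mf N (mix U fun a => R.S (pv (q (rep a)) m)) x ≤ 1 :=
        mf_le_one N (fun y => (mix_mem hUA _ y).1) (fun y => (mix_mem hUA _ y).2) _
      rw [abs_le]
      constructor <;> linarith
  have hfac : ∀ (r a b c e : ℝ), |r| ≤ 1 → |c| ≤ 1 → |a - b| ≤ e →
      |r * a * c - r * b * c| ≤ e := by
    intro r a b c e hr1 hc1 hab
    rw [← sub_mul, ← mul_sub, abs_mul, abs_mul]
    calc |r| * |a - b| * |c| ≤ 1 * |a - b| * 1 := by
          refine mul_le_mul (mul_le_mul_of_nonneg_right hr1 (abs_nonneg _)) hc1 (abs_nonneg _) ?_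
          positivity
      _ ≤ e := by rw [mul_one, one_mul]; exact hab
  exact ⟨Cvg_of_close (fun m => hfac _ _ _ _ _ (hρ1 θ m) (Real.abs_cos_le_one _) (hw m)) hcoll0 hx1.1,
    Cvg_of_close (fun m => hfac _ _ _ _ _ (hρ1 θ m) (Real.abs_sin_le_one _) (hw m)) hcoll0 hx1.2⟩

theorem exp_cvgR (g : GF V X μ) (act : MAct (Fin d → ℤ) X μ) (S : (Fin d → ℤ) → V →ₗ[ℝ] V)
    (hS : ∀ w v x, g.G (S w v) x = g.G v (act.S w x))
    (hSadd : ∀ w w' v, S (w + w') v = S w (S w' v))
    (hBi : ∀ w u v, g.B (S w u) (S w v) = g.B u v)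
    {ν : Measure Y} {N : X → Measure Y} (hN : IsPoisson μ ν N) (R : MAct (Fin d → ℤ) Y ν)
    (hNR : ∀ w x, N (act.S w x) = (N x).map (R.S w))
    (hind : Indep (⨆ v, MeasurableSpace.comap (g.G v) (borel ℝ))
      (MeasurableSpace.comap N inferInstance) μ)
    {B : Set Y} (hB : MeasurableSet B) (hνB : ν B < ⊤) (hret : RetM R B)
    (q : J → Ex κ D → Fin d → ℤ) (h : J → V) (u : J → Y → ℝ)
    (hu : ∀ j, Amp (1 / (2 * ((Fintype.card J : ℝ) + 1) ^ 2)) B (u j))
    {ρ : Θ → (κ → ℕ) → ℝ} (hρ : GoodR P act ρ) (hρ1 : ∀ θ m, |ρ θ m| ≤ 1) :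
    ∀ᵐ θ ∂P, ∀ᵐ x ∂μ, CSw (fun m : κ → ℕ => ρ θ m * ∏ j, mf N (u j) (act.S (pv (q j) m) x))
      (fun m => ∑ j, g.G (h j) (act.S (pv (q j) m) x)) := by
  classical
  let r : Setoid J :=
    { r := fun j j' => ∀ l, ¬ Dep (q j - q j') l
      iseqv := ⟨fun j l => by rw [sub_self]; exact not_dep_zero l,
        fun {j j'} h l => by rw [← neg_sub]; exact not_dep_neg (h l),
        fun {j j' j''} h h' l => by
          have e : q j - q j'' = (q j - q j') + (q j' - q j'') := by abel
          rw [e]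
          exact not_dep_add (h l) (h' l)⟩ }
  have : Finite (Quotient r) := Quotient.finite r
  let _ : Fintype (Quotient r) := Fintype.ofFinite _
  have hout : ∀ a : Quotient r, Quotient.mk r a.out = a := fun a => Quotient.out_eq a
  refine exp_cvg_auxR g act S hS hSadd hBi hN R hNR hind hB hνB hret q h u hu hρ hρ1
    (A := Quotient r) (Quotient.mk r) (fun a => a.out) hout ?_ ?_
  · intro j
    exact Quotient.exact (hout (Quotient.mk r j)).symm
  · intro j j' hjj
    by_contra hc
    push Not at hc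
    refine hjj (Quotient.sound ?_)
    intro l h
    refine hc l ?_
    by_contra h'
    refine not_dep_neg h' ?_
    rw [neg_sub]
    exact h

end Pool.Agent.Lib.Pf720ca
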