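import Pool.Agent.Lib.Pf720ca.GoodAff
import Pool.Agent.Lib.Pf720ca.GenZ
import Pool.Agent.Lib.Pf720pr.ConvW

/-!
# Independent products of affine, Gaussian, Poisson factors and phases: one variable
-/

set_option autoImplicit false
set_option linter.unusedSectionVars false

open MeasureTheory Filter Topology ProbabilityTheory
open scoped ENNReal ComplexConjugate

namespace Pool.Agent.Lib.Pf720ca

open Pool.Agent.Lib.Pf720ae Pool.Agent.Lib.Pf720pi Pool.Agent.Lib.Pf720gs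
open Pool.Agent.Lib.Pf720ae.Alg (cz integral_char)
open Pool.Agent.Lib.Pf720ae.Aff (affc linf evg Gam oprod pull evg_pull)
open Pool.Agent.Lib.Pf720po (IsPoisson N_pw permActS isPoisson_trim indep_trim gen_KP KP)
open Pool.Agent.Lib.Pf720mp (Ex mon exs eval_eq_sum_ex)
open Pool.Agent.Lib.Pf720pm (pv Dep IsPol PolR PolC cls isPol_cls polC_of_polR)
open Pool.Agent.Lib.Pf720pq (RetM exists_pvs polC_of_trim)
open Pool.Agent.Lib.Pf720pr (UGroup KW Pset ugroup_Pset isPh_trim IsPh isPh_one)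

section gamma

variable {Z : Type} [CommGroup Z] [TopologicalSpace Z]

lemma evg_zero (z : Z) : evg (0 : Gam Z) z = 1 := by
  change (1 : Circle) * 1 = 1
  rw [mul_one]

lemma evg_add (ψ ψ' : Gam Z) (z : Z) : evg (ψ + ψ') z = evg ψ z * evg ψ' z := by
  change (ψ.toMul.1 * ψ'.toMul.1) * (ψ.toMul.2 z * ψ'.toMul.2 z) = _
  rw [mul_mul_mul_comm]
  rfl

lemma evg_neg (ψ : Gam Z) (z : Z) : evg (-ψ) z = (evg ψ z)⁻¹ := by
  have h := evg_add ψ (-ψ) z
  rw [add_neg_cancel, evg_zero] at h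
  exact eq_inv_of_mul_eq_one_right h.symm

lemma continuous_evg (ψ : Gam Z) : Continuous (evg ψ) :=
  continuous_const.mul (map_continuous ψ.toMul.2)

end gamma

variable {V X Y : Type} [AddCommGroup V] [Module ℝ V]

/-- the products of affine characters and phases -/
def PuA {X Z : Type} [CommGroup Z] [TopologicalSpace Z] (𝒵 𝒜 : MeasurableSpace X)
    {mX : MeasurableSpace X} {μ : Measure X} {d : ℕ} (act : MAct (Fin d → ℤ) X μ) (π : X → Z) :
    Set (X → ℂ) :=
  {E | Measurable[𝒵 ⊔ 𝒜] E ∧ (∀ x, ‖E x‖ = 1) ∧ ∃ ψ : Gam Z, ∃ θ ∈ Pset 𝒜 act,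
    E =ᵐ[μ] fun x => ((evg ψ (π x) : Circle) : ℂ) * θ x}

lemma ugroup_PuA {X Z : Type} [CommGroup Z] [TopologicalSpace Z] {𝒵 𝒜 : MeasurableSpace X}
    {mX : MeasurableSpace X} {μ : Measure X} {d : ℕ} (act : MAct (Fin d → ℤ) X μ) (π : X → Z)
    (hP : 𝒵 ≤ mX) (hA : 𝒜 ≤ mX) : UGroup (PuA 𝒵 𝒜 act π) where
  meas E hE := hE.1.mono (sup_le hP hA) le_rfl
  norm E hE := hE.2.1
  one := ⟨measurable_const, fun _ => norm_one, 0, fun _ => 1, (ugroup_Pset act hA).one,
    Eventually.of_forall fun x => by simp [evg_zero]⟩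
  mul E hE E' hE' := by
    obtain ⟨h1, h2, ψ, θ, hθ, h3⟩ := hE
    obtain ⟨h1', h2', ψ', θ', hθ', h3'⟩ := hE'
    refine ⟨h1.mul h1', fun x => by rw [norm_mul, h2, h2', one_mul], ψ + ψ', _,
      (ugroup_Pset act hA).mul θ hθ θ' hθ', ?_⟩
    filter_upwards [h3, h3'] with x hx hx'
    rw [hx, hx', evg_add, Circle.coe_mul]
    ring
  cj E hE := by
    obtain ⟨h1, h2, ψ, θ, hθ, h3⟩ := hE
    refine ⟨Complex.continuous_conj.measurable.comp h1, fun x => by rw [Complex.norm_conj, h2],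
      -ψ, _, (ugroup_Pset act hA).cj θ hθ, ?_⟩
    filter_upwards [h3] with x hx
    rw [hx, evg_neg, map_mul, Circle.coe_inv_eq_conj]

/-- invariance -/
lemma puA_shift {X Z : Type} [CommGroup Z] [TopologicalSpace Z] [IsTopologicalGroup Z]
    {𝒵 𝒜 : MeasurableSpace X}
    {mX : MeasurableSpace X} {μ : Measure X} {d : ℕ} (act : MAct (Fin d → ℤ) X μ) (π : X → Z)
    (A : Fin d → affc Z)
    (heq : ∀ (ψ : Gam Z) (u : Fin d → ℤ), ∀ᵐ x ∂μ,
      evg ψ (π (act.S u x)) = evg ψ (((oprod A u : affc Z) : Equiv.Perm Z) (π x)))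
    (hPA : ∀ w, Measurable[𝒵 ⊔ 𝒜, 𝒵 ⊔ 𝒜] (act.S w)) (hAinv : ∀ w, Measurable[𝒜, 𝒜] (act.S w))
    {E : X → ℂ} (hE : E ∈ PuA 𝒵 𝒜 act π) (u : Fin d → ℤ) :
    (fun x => E (act.S u x)) ∈ PuA 𝒵 𝒜 act π := by
  obtain ⟨h1, h2, ψ, θ, hθ, h3⟩ := hE
  refine ⟨h1.comp (hPA u), fun x => h2 _, pull (oprod A u) ψ, fun x => θ (act.S u x),
    ⟨hθ.1.comp (hAinv u), fun x => hθ.2.1 _, hθ.2.2.shift u⟩, ?_⟩
  filter_upwards [(act.mp u).quasiMeasurePreserving.ae h3, heq ψ u] with x hx hx'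
  rw [hx, hx', evg_pull]

lemma aff_trimR {X Z : Type} (m 𝒵 𝒜 : MeasurableSpace X)
    {mX : MeasurableSpace X} {mY : MeasurableSpace Y} {μ : Measure X} [IsProbabilityMeasure μ]
    {d : ℕ}
    (g : GF V X μ) (act : MAct (Fin d → ℤ) X μ) (S : (Fin d → ℤ) → V →ₗ[ℝ] V)
    (hS : ∀ w v x, g.G (S w v) x = g.G v (act.S w x))
    (hSadd : ∀ w w' v, S (w + w') v = S w (S w' v))
    (hBi : ∀ w u v, g.B (S w u) (S w v) = g.B u v)
    {ν : Measure Y} {N : X → Measure Y} (hN : IsPoisson μ ν N) (R : MAct (Fin d → ℤ) Y ν)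
    (hNR : ∀ w x, N (act.S w x) = (N x).map (R.S w))
    (hind : Indep (⨆ v, MeasurableSpace.comap (g.G v) (borel ℝ))
      (MeasurableSpace.comap N inferInstance) μ)
    {B : ℕ → Set Y} (hBmono : Monotone B)
    (hB : ∀ r, MeasurableSet (B r)) (hνB : ∀ r, ν (B r) < ⊤) (hBU : ⋃ r, B r = Set.univ)
    (hret : ∀ r, RetM R (B r))
    [CommGroup Z] [TopologicalSpace Z] [IsTopologicalGroup Z] [CompactSpace Z] [T2Space Z]
    [MeasurableSpace Z] [BorelSpace Z] {lam : Measure Z} [IsProbabilityMeasure lam]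
    [lam.IsMulLeftInvariant] [lam.Regular] {π : X → Z} (hπ : MeasurePreserving π μ lam)
    (A : Fin d → affc Z) (hlin : ∀ i j z, linf (A i) (linf (A j) z) = linf (A j) (linf (A i) z))
    (hnil : Group.IsNilpotent (Subgroup.closure (Set.range fun i => ((A i : affc Z) : Equiv.Perm Z))))
    (heq : ∀ (u : Fin d → ℤ), ∀ᵐ x ∂μ,
      π (act.S u x) = ((oprod A u : affc Z) : Equiv.Perm Z) (π x))
    (h𝒵 : 𝒵 = ⨆ u : Fin d → ℤ, MeasurableSpace.comap (fun x => π (act.S u x)) inferInstance)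
    (hA : 𝒜 ≤ mX) (hZA : Indep 𝒵 𝒜 μ)
    (hindW : Indep (𝒵 ⊔ 𝒜) ((⨆ v, MeasurableSpace.comap (g.G v) (borel ℝ)) ⊔
      MeasurableSpace.comap N inferInstance) μ)
    (hAinv : ∀ w, Measurable[𝒜, 𝒜] (act.S w))
    (hAgen : 𝒜 ≤ ⨆ p : (Pset 𝒜 act) × Bool, MeasurableSpace.comap
      (fun x => if p.2 then (p.1.1 x).re else (p.1.1 x).im) (borel ℝ))
    (hm : m = ((⨆ v, MeasurableSpace.comap (g.G v) (borel ℝ)) ⊔
      MeasurableSpace.comap N inferInstance) ⊔ (𝒵 ⊔ 𝒜)) (hmX : m ≤ mX)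
    (hact : ∀ w, Measurable[m, m] (act.S w))
    (Q : (k : ℕ) → Set (Fin d → MvPolynomial (Fin k) ℤ)) :
    @PolR X m (μ.trim hmX) d {1} (cls Q) act.S m := by
  intro κ _ _ J _ _ e F hκ he hFm hF1
  obtain ⟨D, q, hq⟩ := exists_pvs fun j => (isPol_cls Q κ (e j) (he j)).1
  have hle1 : (⨆ v, MeasurableSpace.comap (g.G v) (borel ℝ)) ≤ m := by
    rw [hm]
    exact le_sup_left.trans le_sup_left
  have hle2 : MeasurableSpace.comap N inferInstance ≤ m := by
    rw [hm]
    exact le_sup_right.trans le_sup_left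
  have hleZ : 𝒵 ≤ m := by
    rw [hm]
    exact le_sup_left.trans le_sup_right
  have hle3 : 𝒜 ≤ m := by
    rw [hm]
    exact le_sup_right.trans le_sup_right
  have hgm : ∀ v, Measurable[m] (g.G v) := fun v =>
    (measurable_iSup_comap g.G v).mono hle1 le_rfl
  have hNm : Measurable[m] N := by
    rw [measurable_iff_comap_le]
    exact hle2
  have hprob : @IsProbabilityMeasure X m (μ.trim hmX) := by
    refine @IsProbabilityMeasure.mk X m _ ?_
    rw [trim_measurableSet_eq hmX (@MeasurableSet.univ X m)]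
    exact measure_univ
  have hN' := isPoisson_trim m hN hmX hNm
  -- the factor map
  have hπu : ∀ u, Measurable[𝒵] fun x => π (act.S u x) := by
    intro u
    rw [measurable_iff_comap_le, h𝒵]
    exact le_iSup (fun u : Fin d → ℤ =>
      MeasurableSpace.comap (fun x => π (act.S u x)) inferInstance) u
  have hπ𝒵 : Measurable[𝒵] π := by
    have h := hπu 0
    simp only [act.zero] at h
    exact h
  have hπm : Measurable[m] π := hπ𝒵.mono hleZ le_rfl
  have hπ' : @MeasurePreserving X Z m _ π (μ.trim hmX) lam := by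
    refine @MeasurePreserving.mk X Z m _ π (μ.trim hmX) lam hπm ?_
    refine Measure.ext fun s hs => ?_
    have h1 := @Measure.map_apply X Z m _ (μ.trim hmX) π hπm s hs
    rw [h1, trim_measurableSet_eq hmX (hπm hs), hπ.measure_preimage hs.nullMeasurableSet]
  -- the action on `m`
  set act' : @MAct (Fin d → ℤ) X _ m (μ.trim hmX) := trimAct m act hmX hact with hact'
  have heq' : ∀ (ψ : Gam Z) (u : Fin d → ℤ), ∀ᵐ x ∂(μ.trim hmX),
      evg ψ (π (act.S u x)) = evg ψ (((oprod A u : affc Z) : Equiv.Perm Z) (π x)) := by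
    intro ψ u
    have h1 : Measurable[m] fun x => ((evg ψ (π (act.S u x)) : Circle) : ℂ) :=
      (continuous_subtype_val.comp (continuous_evg ψ)).measurable.comp
        ((hπu u).mono hleZ le_rfl)
    have h2 : Measurable[m] fun x =>
        ((evg ψ (((oprod A u : affc Z) : Equiv.Perm Z) (π x)) : Circle) : ℂ) :=
      (continuous_subtype_val.comp ((continuous_evg ψ).comp (oprod A u).2.1)).measurable.comp hπm
    have h3 : MeasurableSet[m] {x | ((evg ψ (π (act.S u x)) : Circle) : ℂ) =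
        ((evg ψ (((oprod A u : affc Z) : Equiv.Perm Z) (π x)) : Circle) : ℂ)} :=
      @measurableSet_eq_fun X ℂ m _ _ _ _ h1 h2
    have h4 : ∀ᵐ x ∂μ, x ∈ {x | ((evg ψ (π (act.S u x)) : Circle) : ℂ) =
        ((evg ψ (((oprod A u : affc Z) : Equiv.Perm Z) (π x)) : Circle) : ℂ)} := by
      filter_upwards [heq u] with x hx
      show ((evg ψ (π (act.S u x)) : Circle) : ℂ) = _
      rw [hx]
    have h5 : ∀ᵐ x ∂(μ.trim hmX), x ∈ {x | ((evg ψ (π (act.S u x)) : Circle) : ℂ) =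
        ((evg ψ (((oprod A u : affc Z) : Equiv.Perm Z) (π x)) : Circle) : ℂ)} := by
      rw [ae_iff] at h4 ⊢
      have e : {a | ¬ a ∈ {x | ((evg ψ (π (act.S u x)) : Circle) : ℂ) =
          ((evg ψ (((oprod A u : affc Z) : Equiv.Perm Z) (π x)) : Circle) : ℂ)}} =
          {x | ((evg ψ (π (act.S u x)) : Circle) : ℂ) =
          ((evg ψ (((oprod A u : affc Z) : Equiv.Perm Z) (π x)) : Circle) : ℂ)}ᶜ := rfl
      rw [e] at h4 ⊢
      rw [trim_measurableSet_eq hmX (@MeasurableSet.compl X _ m h3)]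
      exact h4
    exact h5.mono fun x hx => Circle.coe_inj.1 hx
  have hZA' : ∀ w, Measurable[𝒵, 𝒵] (act.S w) := by
    intro w
    rw [measurable_iff_comap_le]
    conv_lhs => rw [h𝒵]
    rw [MeasurableSpace.comap_iSup]
    refine iSup_le fun u => ?_
    rw [MeasurableSpace.comap_comp]
    have e1 : (fun x => π (act.S u x)) ∘ act.S w = fun x => π (act.S (u + w) x) := by
      funext x
      simp only [Function.comp]
      rw [act.add]
    rw [e1, ← measurable_iff_comap_le]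
    exact hπu _
  have hPAinv : ∀ w, Measurable[𝒵 ⊔ 𝒜, 𝒵 ⊔ 𝒜] (act.S w) := by
    intro w
    rw [measurable_iff_comap_le, MeasurableSpace.comap_sup]
    exact sup_le_sup (hZA' w).comap_le (hAinv w).comap_le
  -- the phases
  set Pu : Set (X → ℂ) := @PuA X Z _ _ 𝒵 𝒜 m (μ.trim hmX) d act' π with hPu
  have hP' : @UGroup X m Pu := @ugroup_PuA X Z _ _ 𝒵 𝒜 m (μ.trim hmX) d act' π hleZ hle3
  have hle4 : (⨆ E : Pu, MeasurableSpace.comap E.1 (borel ℂ)) ≤ 𝒵 ⊔ 𝒜 := by
    refine iSup_le fun E => ?_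
    rw [← BorelSpace.measurable_eq (α := ℂ)]
    exact Measurable.comap_le E.2.1
  have hπcomap : MeasurableSpace.comap π inferInstance ≤ 𝒵 := hπ𝒵.comap_le
  have hgood : @GoodP X m (μ.trim hmX) d act' κ _ _ Pu :=
    @goodP_aff κ _ _ d Z _ _ _ _ _ lam _ X 𝒜 m (μ.trim hmX) hprob act'
      (fun χ hχ => integral_char χ hχ) π hπ' A hlin hnil heq' hle3
      (indep_trim m hmX (hπcomap.trans hleZ) hle3 (indep_of_indep_of_le_left hZA hπcomap))
      hAinv hκ Pu (fun E hE => hE.2.2)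
  have hχPu : ∀ (χ : Z →ₜ* Circle) (u : Fin d → ℤ),
      (fun x => ((χ (π (act.S u x)) : Circle) : ℂ)) ∈ Pu := by
    intro χ u
    have h9 : (fun x => ((evg (Additive.ofMul (1, χ) : Gam Z) (π x) : Circle) : ℂ)) ∈ Pu := by
      refine ⟨?_, fun x => Circle.norm_coe _, Additive.ofMul (1, χ), fun _ => 1,
        @UGroup.one X m _ (@ugroup_Pset X d 𝒜 m (μ.trim hmX) act' hle3), ?_⟩
      · exact ((continuous_subtype_val.comp (continuous_evg _)).measurable.comp
          hπ𝒵).mono le_sup_left le_rfl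
      · exact Eventually.of_forall fun x => by simp
    have h10 := @puA_shift X Z _ _ _ 𝒵 𝒜 m (μ.trim hmX) d act' π A heq' hPAinv hAinv _ h9 u
    have e1 : (fun x => ((χ (π (act.S u x)) : Circle) : ℂ)) =
        fun x => ((evg (Additive.ofMul (1, χ) : Gam Z) (π (act.S u x)) : Circle) : ℂ) := by
      funext x
      change ((χ (π (act.S u x)) : Circle) : ℂ) =
        (((1 : Circle) * χ (π (act.S u x)) : Circle) : ℂ)
      rw [one_mul]
    rw [e1]
    exact h10
  have hqm : ∀ u : Fin d → ℤ, @Measure.QuasiMeasurePreserving X Z _ m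
      (fun x => π (act.S u x)) (μ.trim hmX) lam := by
    intro u
    exact @MeasurePreserving.quasiMeasurePreserving X Z m _ _ _ _
      (@MeasurePreserving.comp X X Z m m _ (μ.trim hmX) (μ.trim hmX) lam π
        (act.S u) hπ' (@MAct.mp (Fin d → ℤ) X _ m (μ.trim hmX) act' u))
  obtain ⟨fu, hfu⟩ : ∃ fu : (Fin d → ℤ) → X → Z, fu = fun u x => π (act.S u x) := ⟨_, rfl⟩
  have h𝒵' : 𝒵 = ⨆ u : Fin d → ℤ, MeasurableSpace.comap (fu u) inferInstance := by
    rw [h𝒵, hfu]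
  have hχ' : ∀ (χ : Z →ₜ* Circle) (u : Fin d → ℤ),
      ((fun z => ((χ z : Circle) : ℂ)) ∘ fu u) ∈ Pu := by
    rw [hfu]
    exact hχPu
  have hqm' : ∀ u : Fin d → ℤ, @Measure.QuasiMeasurePreserving X Z _ m
      (fu u) (μ.trim hmX) lam := by
    rw [hfu]
    exact hqm
  have h1 := @realR V X Y _ _ m mY (μ.trim hmX) hprob κ _ _ d D J _ _ (g.trim m hmX hgm)
    act' S hS hSadd hBi ν N hN' R hNR
    (indep_trim m hmX hle1 hle2 hind) B hBmono hB hνB hret Pu hP'
    (fun E hE u => @puA_shift X Z _ _ _ 𝒵 𝒜 m (μ.trim hmX) d act' π A heq' hPAinv hAinv E hE u)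
    hgood
    (indep_trim m hmX (hle4.trans (sup_le hleZ hle3)) (sup_le hle1 hle2)
      (indep_of_indep_of_le_left hindW hle4)) ?_ q F hFm hF1
  · simp only [hq]
    exact h1
  intro D hD
  set mK : MeasurableSpace X := ⨆ i, MeasurableSpace.comap
    (@KW V X Y _ _ m mY (μ.trim hmX) (g.trim m hmX hgm) N B ν Pu i) (borel ℝ) with hmK
  have hKle : mK ≤ @eventuallyMeasurableSpace X mK (@ae X (@Measure X m) _ _ (μ.trim hmX)) _ :=
    fun s hs => ⟨s, hs, EventuallyEq.rfl⟩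
  have h3 : (⨆ v, MeasurableSpace.comap (g.G v) (borel ℝ)) ⊔
      MeasurableSpace.comap N inferInstance ≤
      @eventuallyMeasurableSpace X mK (@ae X (@Measure X m) _ _ (μ.trim hmX)) _ := by
    intro s hs
    obtain ⟨s', hs', hss'⟩ := @gen_KP V X Y _ _ m mY (μ.trim hmX) _ (g.trim m hmX hgm) ν N hN' B
      hBmono hB hνB hBU s hs
    refine ⟨s', ?_, hss'⟩
    have h4 : (⨆ i, MeasurableSpace.comap
        (@KP V X Y _ _ m mY (μ.trim hmX) (g.trim m hmX hgm) N B ν i) (borel ℝ)) ≤ mK :=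
      iSup_le fun i => le_iSup (fun i => MeasurableSpace.comap
        (@KW V X Y _ _ m mY (μ.trim hmX) (g.trim m hmX hgm) N B ν Pu i) (borel ℝ)) (Sum.inl i)
    exact h4 _ hs'
  have hPuK : ∀ E ∈ Pu, Measurable[mK] E := by
    intro E hE
    have hb : ∀ b : Bool, Measurable[mK] fun x => if b then (E x).re else (E x).im := by
      intro b
      rw [measurable_iff_comap_le, BorelSpace.measurable_eq (α := ℝ)]
      exact le_iSup (fun i => MeasurableSpace.comap
        (@KW V X Y _ _ m mY (μ.trim hmX) (g.trim m hmX hgm) N B ν Pu i) (borel ℝ))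
        (Sum.inr (⟨E, hE⟩, b))
    have h5 := hb true
    have h6 := hb false
    simp only [if_true, Bool.false_eq_true, if_false] at h5 h6
    exact measurable_of_re_im h5 h6
  have h5 : 𝒜 ≤ mK := by
    refine hAgen.trans (iSup_le fun p => ?_)
    have hmem : p.1.1 ∈ Pu := by
      refine ⟨p.1.2.1.mono le_sup_right le_rfl, p.1.2.2.1, 0, p.1.1, ⟨p.1.2.1, p.1.2.2.1,
        isPh_trim act hmX hact (p.1.2.1.mono hle3 le_rfl) p.1.2.2.2⟩, ?_⟩
      exact Eventually.of_forall fun x => by simp [evg_zero]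
    exact le_iSup (fun i => MeasurableSpace.comap
        (@KW V X Y _ _ m mY (μ.trim hmX) (g.trim m hmX hgm) N B ν Pu i) (borel ℝ))
        (Sum.inr (⟨p.1.1, hmem⟩, p.2))
  have h6 : 𝒵 ≤ @eventuallyMeasurableSpace X mK (@ae X (@Measure X m) _ _ (μ.trim hmX)) _ := by
    rw [h𝒵']
    refine iSup_le fun u => ?_
    rintro _ ⟨B₀, hB₀, rfl⟩
    obtain ⟨B₁, hB₁, hBB⟩ := exists_ch_set (lam := lam) hB₀
    refine ⟨fu u ⁻¹' B₁, ?_, ?_⟩
    · have h7 : @Measurable X Z mK (chSigma Z) (fu u) := by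
        rw [@measurable_iff_comap_le X Z mK (chSigma Z)]
        unfold chSigma
        rw [MeasurableSpace.comap_iSup]
        refine iSup_le fun χ => ?_
        rw [MeasurableSpace.comap_comp]
        have h11 := hPuK _ (hχ' χ u)
        rw [measurable_iff_comap_le, BorelSpace.measurable_eq (α := ℂ)] at h11
        exact h11
      exact h7 hB₁
    · exact @Measure.QuasiMeasurePreserving.preimage_ae_eq X Z m _ _ _ _ _ _ (hqm' u) hBB
  have hD' : MeasurableSet[((⨆ v, MeasurableSpace.comap (g.G v) (borel ℝ)) ⊔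
      MeasurableSpace.comap N inferInstance) ⊔ (𝒵 ⊔ 𝒜)] D := by
    rw [← hm]
    exact hD
  exact (sup_le h3 (sup_le h6 (h5.trans hKle))) D hD'

end Pool.Agent.Lib.Pf720ca
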