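import Pool.Agent.Lib.Pf720ca.ConvR

/-!
# Affine factors: all numbers of variables
-/

set_option autoImplicit false
set_option linter.unusedSectionVars false

open MeasureTheory Filter Topology ProbabilityTheory
open scoped ENNReal

namespace Pool.Agent.Lib.Pf720ca

open Pool.Agent.Lib.Pf720ae
open Pool.Agent.Lib.Pf720ae.Alg (exists_char)
open Pool.Agent.Lib.Pf720ae.Aff (conv_of_factor thmAffMaxM)
open Pool.Agent.Lib.Pf720pm (PolC factor_reduction)

variable {X Z : Type} [CommGroup Z] [TopologicalSpace Z] [IsTopologicalGroup Z] [CompactSpace Z]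
  [T2Space Z] [MeasurableSpace Z] [BorelSpace Z] {lam : Measure Z} [IsProbabilityMeasure lam]
  {mX : MeasurableSpace X} {μ : Measure X} [IsProbabilityMeasure μ] {d : ℕ}

/-- the affine factor, any number of variables -/
theorem aff_all [lam.IsHaarMeasure] [lam.Regular] (T : Fin d → Equiv.Perm X)
    (hT : ∀ i, Measurable (T i) ∧ Measurable (T i).symm ∧ MeasurePreserving (T i) μ μ)
    (hcomm : ∀ i i', T i * T i' = T i' * T i)
    (A : Fin d → Equiv.Perm Z) (hAc : ∀ i, Continuous (A i)) (a : Fin d → Z) (α : Fin d → Z →* Z)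
    (hAα : ∀ i z, A i z = a i * α i z) (π : X → Z) (hπ : MeasurePreserving π μ lam)
    (hπT : ∀ i, ∀ᵐ x ∂μ, π (T i x) = A i (π x)) :
    PolC μ T Set.univ (fun _ => Set.univ) (MeasurableSpace.comap π inferInstance) := by
  have hAcomm := comm_of_factor T hT hcomm A hAc π hπ hπT
  have hnil : Group.IsNilpotent (Subgroup.closure (Set.range A)) := by
    refine nilpotent_of_comm ?_
    rintro _ ⟨i, rfl⟩ _ ⟨j, rfl⟩
    exact hAcomm i j
  intro k' _ n' P' f' _ hf'
  have h1 : ∀ j, ∃ g : Z → ℂ, f' j =ᵐ[μ] g ∘ π ∧ MemLp g ⊤ lam := by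
    intro j
    obtain ⟨G, hG, hfG⟩ := (hf' j).2
    obtain ⟨h, hh, hhe⟩ := StronglyMeasurable.exists_eq_measurable_comp (f := π) hG
    have h2 : f' j =ᵐ[μ] h ∘ π := by
      rw [← hhe]
      exact hfG
    refine ⟨h, h2, ?_⟩
    rw [← hπ.map_eq]
    rw [memLp_map_measure_iff hh.aestronglyMeasurable hπ.measurable.aemeasurable]
    exact (hf' j).1.ae_eq h2
  choose g hfg hg using h1
  have h2 := thmAffMaxM (μ := lam) d k' n' (fun x hx => exists_char x hx) A hAc a α hAα
    (fun i i' z => lin_comm hAcomm hAα i i' z) hnil (fun i j => P' j i) g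
    (fun j => Or.inr ⟨hg j, fun i i' _ _ => hAcomm i i'⟩)
  exact conv_of_factor hπ T A hT hπT
    (fun j m i => MvPolynomial.eval (fun l => (m l : ℤ)) (P' j i)) f' g hfg h2

/-- the reduction to a factor -/
theorem reduce (T : Fin d → Equiv.Perm X)
    (hT : ∀ i, Measurable (T i) ∧ Measurable (T i).symm ∧ MeasurePreserving (T i) μ μ)
    (hcomm : ∀ i i', T i * T i' = T i' * T i) (K : Set ℕ) (hK : K = {1} ∨ K = Set.univ)
    (G : MeasurableSpace X) (h : PolC μ T K (fun _ => Set.univ) G) :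
    (∀ A : Set X, MeasurableSet[mX] A →
      Tendsto (fun N : ℕ => (∑ ω : Finset (Fin d → Fin N), Real.negMulLog
        (μ.real {x | ∀ u : Fin d → Fin N, pw T (fun i => ((u i : ℕ) : ℤ)) x ∈ A ↔ u ∈ ω})) /
          (N : ℝ) ^ d) atTop (𝓝 0) →
      ∃ D, MeasurableSet[G] D ∧ A =ᵐ[μ] D) → PolC μ T K (fun _ => Set.univ) mX := fun h1 =>
  (factor_reduction G T hT hcomm K hK (fun _ => Set.univ)
    (fun _ _ _ _ _ _ => Set.mem_univ _) _ rfl (fun A hA => h1 A hA.1 hA.2)).2 h

end Pool.Agent.Lib.Pf720ca
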