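import Pool.Agent.Lib.Pf720ca.ExpoR
import Pool.Agent.Lib.Pf720pr.MixedW

/-!
# Bounded functions of a Gaussian and a Poisson process and of an independent factor
-/

set_option autoImplicit false
set_option linter.unusedSectionVars false

open Finset MeasureTheory Filter Topology ProbabilityTheory
open scoped ENNReal ComplexConjugate

namespace Pool.Agent.Lib.Pf720ca

open Pool.Agent.Lib.Pf720ae Pool.Agent.Lib.Pf720gs
open Pool.Agent.Lib.Pf720po (IsPoisson Amp CSw mf mf_map mf_pos mf_le_one mix KP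
  measurable_mf ae_of_indep measurableSet_CSw_prod)
open Pool.Agent.Lib.Pf720mp (Ex mon mon_zero)
open Pool.Agent.Lib.Pf720pm (pv pv_add pv_sub pv_zero Dep pv_update IsPol)
open Pool.Agent.Lib.Pf720pq (RetM maxBdM)
open Pool.Agent.Lib.Pf720pr (UGroup KW prW measurable_ex measurable_prW abs_prW_le ex_neg
  ae_zero_of_orthW)

variable {V X Y : Type} [AddCommGroup V] [Module ℝ V] {mX : MeasurableSpace X}
  {mY : MeasurableSpace Y} {μ : Measure X}
  [IsProbabilityMeasure μ] {κ : Type} [Fintype κ] [DecidableEq κ] {d D : ℕ} {J : Type} [Fintype J]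
  [DecidableEq J]

/-- products of functions of `Pu` along polynomials are good random weights -/
def GoodP (act : MAct (Fin d → ℤ) X μ) (κ : Type) [Fintype κ] [DecidableEq κ]
    (Pu : Set (X → ℂ)) : Prop :=
  ∀ (J : Type) [Fintype J] [DecidableEq J] (D : ℕ) (q : J → Ex κ D → Fin d → ℤ) (E : J → X → ℂ),
    (∀ j, E j ∈ Pu) →
    GoodR μ act (fun (x : X) (m : κ → ℕ) => (∏ j, E j (act.S (pv (q j) m) x)).re) ∧
    GoodR μ act (fun (x : X) (m : κ → ℕ) => (∏ j, E j (act.S (pv (q j) m) x)).im)

/-- all the functions are products of phases and exponentials -/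
theorem baseR (g : GF V X μ) (act : MAct (Fin d → ℤ) X μ) (S : (Fin d → ℤ) → V →ₗ[ℝ] V)
    (hS : ∀ w v x, g.G (S w v) x = g.G v (act.S w x))
    (hSadd : ∀ w w' v, S (w + w') v = S w (S w' v))
    (hBi : ∀ w u v, g.B (S w u) (S w v) = g.B u v)
    {ν : Measure Y} {N : X → Measure Y} (hN : IsPoisson μ ν N) (R : MAct (Fin d → ℤ) Y ν)
    (hNR : ∀ w x, N (act.S w x) = (N x).map (R.S w))
    (hind : Indep (⨆ v, MeasurableSpace.comap (g.G v) (borel ℝ))
      (MeasurableSpace.comap N inferInstance) μ)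
    {B : Set Y} (hB : MeasurableSet B) (hνB : ν B < ⊤) (hret : RetM R B)
    {Pu : Set (X → ℂ)} (hP : UGroup Pu) (hPa : ∀ E ∈ Pu, ∀ u, (fun x => E (act.S u x)) ∈ Pu)
    (hgw : GoodP act κ Pu)
    (hindW : Indep (⨆ E : Pu, MeasurableSpace.comap E.1 (borel ℂ))
      ((⨆ v, MeasurableSpace.comap (g.G v) (borel ℝ)) ⊔ MeasurableSpace.comap N inferInstance) μ)
    (q : J → Ex κ D → Fin d → ℤ) (h : J → V) (u : J → Y → ℝ)
    (hu : ∀ j, Amp (1 / (2 * ((Fintype.card J : ℝ) + 1) ^ 2)) B (u j))
    (E : J → X → ℂ) (hE : ∀ j, E j ∈ Pu) :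
    ∀ᵐ x ∂μ, CSw (fun m : κ → ℕ => (∏ j, E j (act.S (pv (q j) m) x)).re *
        ∏ j, mf N (u j) (act.S (pv (q j) m) x))
      (fun m => ∑ j, g.G (h j) (act.S (pv (q j) m) x)) ∧
      CSw (fun m : κ → ℕ => (∏ j, E j (act.S (pv (q j) m) x)).im *
        ∏ j, mf N (u j) (act.S (pv (q j) m) x))
      (fun m => ∑ j, g.G (h j) (act.S (pv (q j) m) x)) := by
  -- the weights
  set w : X → (κ → ℕ) → ℂ := fun x m => ∏ j, E j (act.S (pv (q j) m) x) with hw
  set Pf : X → (κ → ℕ) → ℝ := fun x m => ∏ j, mf N (u j) (act.S (pv (q j) m) x) with hPf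
  set Sf : X → (κ → ℕ) → ℝ := fun x m => ∑ j, g.G (h j) (act.S (pv (q j) m) x) with hSf
  have hw1 : ∀ x m, ‖w x m‖ ≤ 1 := fun x m =>
    norm_prod_le_one _ _ fun j => (hP.norm _ (hE j) _).le
  have hstep : ∀ᵐ x ∂μ, ∀ᵐ x' ∂μ, CSw (fun m => (w x m).re * Pf x' m) (Sf x') ∧
      CSw (fun m => (w x m).im * Pf x' m) (Sf x') := by
    have h1 := exp_cvgR g act S hS hSadd hBi hN R hNR hind hB hνB hret q h u hu
      (hgw J D q E hE).1 (fun x m => (Complex.abs_re_le_norm _).trans (hw1 x m))
    have h2 := exp_cvgR g act S hS hSadd hBi hN R hNR hind hB hνB hret q h u hu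
      (hgw J D q E hE).2 (fun x m => (Complex.abs_im_le_norm _).trans (hw1 x m))
    filter_upwards [h1, h2] with x hx1 hx2
    filter_upwards [hx1, hx2] with x' h1 h2
    exact ⟨h1, h2⟩
  -- measurability
  have hEm : ∀ j (m : κ → ℕ), Measurable[⨆ E : Pu, MeasurableSpace.comap E.1 (borel ℂ)]
      fun x => E j (act.S (pv (q j) m) x) := by
    intro j m
    have h1 := hPa _ (hE j) (pv (q j) m)
    have h2 : Measurable[MeasurableSpace.comap (fun x => E j (act.S (pv (q j) m) x)) (borel ℂ)]
        fun x => E j (act.S (pv (q j) m) x) := by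
      rw [← BorelSpace.measurable_eq (α := ℂ)]
      exact comap_measurable _
    exact h2.mono (le_iSup (fun E : Pu => MeasurableSpace.comap E.1 (borel ℂ)) ⟨_, h1⟩) le_rfl
  have hwm : ∀ m : κ → ℕ, Measurable[⨆ E : Pu, MeasurableSpace.comap E.1 (borel ℂ)]
      fun x => w x m := by
    intro m
    exact Finset.measurable_fun_prod _ fun j _ => hEm j m
  have hle : (⨆ E : Pu, MeasurableSpace.comap E.1 (borel ℂ)) ≤ mX := by
    refine iSup_le fun E => ?_
    rw [← BorelSpace.measurable_eq (α := ℂ)]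
    exact (hP.meas E.1 E.2).comap_le
  have hF1 : Measurable[⨆ E : Pu, MeasurableSpace.comap E.1 (borel ℂ)] w :=
    (@measurable_pi_iff X (κ → ℕ) (fun _ => ℂ) (⨆ E : Pu, MeasurableSpace.comap E.1 (borel ℂ))
      _ w).2 hwm
  have hPfm : Measurable[MeasurableSpace.comap N inferInstance] Pf := by
    refine (@measurable_pi_iff X (κ → ℕ) (fun _ => ℝ) (MeasurableSpace.comap N inferInstance)
      _ Pf).2 fun m => ?_
    have e : (fun x => Pf x m) = (fun η : Measure Y => ∏ j,
        Real.exp (∫ y, Real.log (u j (R.S (pv (q j) m) y)) ∂η)) ∘ N := by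
      funext x
      simp only [hPf, Function.comp]
      refine Finset.prod_congr rfl fun j _ => ?_
      rw [mf_map (R.mp _).measurable (fun x => hNR (pv (q j) m) x) (hu j).meas]
      rfl
    rw [e]
    refine Measurable.comp ?_ (comap_measurable N)
    refine Finset.measurable_fun_prod _ fun j _ => ?_
    exact measurable_mf (N := fun η : Measure Y => η) measurable_id
      ((hu j).meas.comp (R.mp _).measurable) ((hu j).fin.subset (by
        rintro _ ⟨y, rfl⟩
        exact ⟨R.S (pv (q j) m) y, rfl⟩))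
  have hSfm : Measurable[⨆ v, MeasurableSpace.comap (g.G v) (borel ℝ)] Sf := by
    refine (@measurable_pi_iff X (κ → ℕ) (fun _ => ℝ)
      (⨆ v, MeasurableSpace.comap (g.G v) (borel ℝ)) _ Sf).2 fun m => ?_
    have e : (fun x => Sf x m) = g.G (∑ j, S (pv (q j) m) (h j)) := by
      funext x
      simp only [hSf, g.sum, hS]
    rw [e]
    have h2 : Measurable[MeasurableSpace.comap (g.G (∑ j, S (pv (q j) m) (h j))) (borel ℝ)]
        (g.G (∑ j, S (pv (q j) m) (h j))) := by
      rw [← BorelSpace.measurable_eq (α := ℝ)]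
      exact comap_measurable _
    exact h2.mono (le_iSup (fun v => MeasurableSpace.comap (g.G v) (borel ℝ)) _) le_rfl
  have hG1 : Measurable[(⨆ v, MeasurableSpace.comap (g.G v) (borel ℝ)) ⊔
      MeasurableSpace.comap N inferInstance] fun x => (Pf x, Sf x) :=
    (hPfm.mono le_sup_right le_rfl).prodMk (hSfm.mono le_sup_left le_rfl)
  have hle2 : (⨆ v, MeasurableSpace.comap (g.G v) (borel ℝ)) ⊔
      MeasurableSpace.comap N inferInstance ≤ mX :=
    sup_le (iSup_le fun v => comap_le_of_measurable (g.meas v)) hN.1.comap_le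
  have hindf : IndepFun w (fun x => (Pf x, Sf x)) μ := by
    rw [IndepFun_iff_Indep]
    exact indep_of_indep_of_le_right (indep_of_indep_of_le_left hindW hF1.comap_le) hG1.comap_le
  -- the measurable set
  have hset : MeasurableSet {p : ((κ → ℕ) → ℂ) × (((κ → ℕ) → ℝ) × ((κ → ℕ) → ℝ)) |
      CSw (fun m => (p.1 m).re * p.2.1 m) p.2.2 ∧ CSw (fun m => (p.1 m).im * p.2.1 m) p.2.2} := by
    have hA : Measurable fun p : ((κ → ℕ) → ℂ) × (((κ → ℕ) → ℝ) × ((κ → ℕ) → ℝ)) =>
        ((fun m => (p.1 m).re * p.2.1 m, p.2.2) : ((κ → ℕ) → ℝ) × ((κ → ℕ) → ℝ)) := by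
      refine Measurable.prodMk ?_ (measurable_snd.comp measurable_snd)
      refine measurable_pi_iff.2 fun m => ?_
      exact (Complex.measurable_re.comp ((measurable_pi_apply m).comp measurable_fst)).mul
        ((measurable_pi_apply m).comp (measurable_fst.comp measurable_snd))
    have hA' : Measurable fun p : ((κ → ℕ) → ℂ) × (((κ → ℕ) → ℝ) × ((κ → ℕ) → ℝ)) =>
        ((fun m => (p.1 m).im * p.2.1 m, p.2.2) : ((κ → ℕ) → ℝ) × ((κ → ℕ) → ℝ)) := by
      refine Measurable.prodMk ?_ (measurable_snd.comp measurable_snd)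
      refine measurable_pi_iff.2 fun m => ?_
      exact (Complex.measurable_im.comp ((measurable_pi_apply m).comp measurable_fst)).mul
        ((measurable_pi_apply m).comp (measurable_fst.comp measurable_snd))
    exact (hA (measurableSet_CSw_prod (κ := κ))).inter (hA' (measurableSet_CSw_prod (κ := κ)))
  exact ae_of_indep (hF1.mono hle le_rfl) (hG1.mono hle2 le_rfl) hindf hset hstep


/-- some of the functions are products of phases and exponentials, the others are real and
bounded -/
theorem mixedR (g : GF V X μ) (act : MAct (Fin d → ℤ) X μ) (S : (Fin d → ℤ) → V →ₗ[ℝ] V)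
    (hS : ∀ w v x, g.G (S w v) x = g.G v (act.S w x))
    (hSadd : ∀ w w' v, S (w + w') v = S w (S w' v))
    (hBi : ∀ w u v, g.B (S w u) (S w v) = g.B u v)
    {ν : Measure Y} {N : X → Measure Y} (hN : IsPoisson μ ν N) (R : MAct (Fin d → ℤ) Y ν)
    (hNR : ∀ w x, N (act.S w x) = (N x).map (R.S w))
    (hind : Indep (⨆ v, MeasurableSpace.comap (g.G v) (borel ℝ))
      (MeasurableSpace.comap N inferInstance) μ)
    {B : ℕ → Set Y} (hBmono : Monotone B)
    (hB : ∀ r, MeasurableSet (B r)) (hνB : ∀ r, ν (B r) < ⊤) (hret : ∀ r, RetM R (B r))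
    {Pu : Set (X → ℂ)} (hP : UGroup Pu) (hPa : ∀ E ∈ Pu, ∀ u, (fun x => E (act.S u x)) ∈ Pu)
    (hgw : GoodP act κ Pu)
    (hindW : Indep (⨆ E : Pu, MeasurableSpace.comap E.1 (borel ℂ))
      ((⨆ v, MeasurableSpace.comap (g.G v) (borel ℝ)) ⊔ MeasurableSpace.comap N inferInstance) μ)
    (hgen : ∀ D : Set X, MeasurableSet D →
      ∃ D', MeasurableSet[⨆ i, MeasurableSpace.comap (KW g N B ν Pu i) (borel ℝ)] D' ∧ D =ᵐ[μ] D')
    (q : J → Ex κ D → Fin d → ℤ) (s : Finset J) (f : J → X → ℂ)
    (hfs : ∀ j ∈ s, ∃ F : X → ℝ, Measurable F ∧ (∀ x, |F x| ≤ 1) ∧ ∀ x, f j x = F x)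
    (hfc : ∀ j ∉ s, ∃ E ∈ Pu, ∃ (v : V) (r : ℕ) (u : Y → ℝ),
      Amp (1 / (2 * ((Fintype.card J : ℝ) + 1) ^ 2)) (B r) u ∧
      ∀ x, f j x = E x * ex g v x * (mf N u x : ℂ)) :
    ∀ᵐ x ∂μ, Cvg (fun m : κ → ℕ => (∏ j, f j (act.S (pv (q j) m) x)).re) ∧
      Cvg (fun m : κ → ℕ => (∏ j, f j (act.S (pv (q j) m) x)).im) := by
  have hJ1 : (1 : ℝ) ≤ ((Fintype.card J : ℝ) + 1) ^ 2 := by
    have : (0 : ℝ) ≤ (Fintype.card J : ℝ) := Nat.cast_nonneg _
    nlinarith
  have hε : (0 : ℝ) < 1 / (2 * ((Fintype.card J : ℝ) + 1) ^ 2) := by positivity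
  have hε1 : 1 / (2 * ((Fintype.card J : ℝ) + 1) ^ 2) ≤ (1 : ℝ) / 2 := by
    rw [div_le_div_iff₀ (by positivity) (by norm_num)]
    linarith
  have hAmp0 : ∀ {B' : Set Y} {u : Y → ℝ}, Amp (1 / (2 * ((Fintype.card J : ℝ) + 1) ^ 2)) B' u →
      ∀ y, 0 ≤ u y := fun h y => by
    have := h.lb y
    linarith
  have hmf1 : ∀ {B' : Set Y} {u : Y → ℝ}, Amp (1 / (2 * ((Fintype.card J : ℝ) + 1) ^ 2)) B' u →
      ∀ x, |mf N u x| ≤ 1 := fun h x => by
    rw [abs_of_nonneg (mf_pos _ _ _).le]
    exact mf_le_one N (hAmp0 h) h.ub x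
  induction s using Finset.induction_on generalizing f with
  | empty =>
    choose E hE v r u hu hv using fun j => hfc j (Finset.notMem_empty j)
    obtain ⟨r₀, hr₀⟩ : ∃ r₀, ∀ j, r j ≤ r₀ :=
      ⟨Finset.univ.sup r, fun j => Finset.le_sup (f := r) (Finset.mem_univ j)⟩
    have h1 := baseR (κ := κ) g act S hS hSadd hBi hN R hNR hind (hB r₀) (hνB r₀) (hret r₀) hP hPa
      hgw hindW q v u (fun j => (hu j).mono le_rfl (hBmono (hr₀ j))) E hE
    filter_upwards [h1] with x hx
    have e : ∀ m : κ → ℕ, ∏ j, f j (act.S (pv (q j) m) x) =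
        (∏ j, E j (act.S (pv (q j) m) x)) *
        (((∏ j, mf N (u j) (act.S (pv (q j) m) x) : ℝ) : ℂ) *
        Complex.exp (((∑ j, g.G (v j) (act.S (pv (q j) m) x) : ℝ) : ℂ) * Complex.I)) := by
      intro m
      push_cast
      rw [Finset.sum_mul, Complex.exp_sum, ← Finset.prod_mul_distrib, ← Finset.prod_mul_distrib]
      refine Finset.prod_congr rfl fun j _ => ?_
      rw [hv j]
      unfold ex
      ring
    constructor
    · refine (hx.1.1.add (hx.2.2.smul (-1))).congr fun m => ?_
      rw [e, Complex.mul_re, Complex.re_ofReal_mul, Complex.im_ofReal_mul,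
        Complex.exp_ofReal_mul_I_re, Complex.exp_ofReal_mul_I_im]
      ring
    · refine (hx.1.2.add hx.2.1).congr fun m => ?_
      rw [e, Complex.mul_im, Complex.re_ofReal_mul, Complex.im_ofReal_mul,
        Complex.exp_ofReal_mul_I_re, Complex.exp_ofReal_mul_I_im]
      ring
  | insert a s ha ih =>
    obtain ⟨F, hFm, hF1, hF⟩ := hfs a (Finset.mem_insert_self _ _)
    have hf1 : ∀ j x, ‖f j x‖ ≤ 1 := by
      intro j x
      by_cases hj : j ∈ insert a s
      · obtain ⟨F', -, hF'1, hF'⟩ := hfs j hj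
        rw [hF', Complex.norm_real]
        exact hF'1 x
      · obtain ⟨E, hE, v, r, u, hu, hv⟩ := hfc j hj
        rw [hv, norm_mul, norm_mul, norm_ex, hP.norm E hE, one_mul, one_mul, Complex.norm_real]
        exact hmf1 hu x
    set Rm : X → (κ → ℕ) → ℂ := fun x m =>
      ∏ j ∈ Finset.univ.erase a, f j (act.S (pv (q j) m) x) with hRm
    have hR1 : ∀ x m, ‖Rm x m‖ ≤ 1 := fun x m => norm_prod_le_one _ _ fun j => hf1 j _
    -- replace the function `a` by a product of a phase and an exponential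
    have hchar : ∀ E ∈ Pu, ∀ (v : V) (r : ℕ) (u : Y → ℝ),
        Amp (1 / (2 * ((Fintype.card J : ℝ) + 1) ^ 2)) (B r) u → ∀ᵐ x ∂μ,
        Cvg (fun m : κ → ℕ => (E (act.S (pv (q a) m) x) * ex g v (act.S (pv (q a) m) x) *
          (mf N u (act.S (pv (q a) m) x) : ℂ) * Rm x m).re) ∧
        Cvg (fun m : κ → ℕ => (E (act.S (pv (q a) m) x) * ex g v (act.S (pv (q a) m) x) *
          (mf N u (act.S (pv (q a) m) x) : ℂ) * Rm x m).im) := by
      intro E hE v r u hu
      have h1 := ih (Function.update f a (fun x => E x * ex g v x * (mf N u x : ℂ))) (by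
        intro j hj
        have hja : j ≠ a := fun h => ha (h ▸ hj)
        rw [Function.update_of_ne hja]
        exact hfs j (Finset.mem_insert_of_mem hj)) (by
        intro j hj
        by_cases hja : j = a
        · subst hja
          exact ⟨E, hE, v, r, u, hu, fun x => by rw [Function.update_self]⟩
        · rw [Function.update_of_ne hja]
          exact hfc j fun h => (Finset.mem_insert.1 h).elim hja hj)
      have h2 : ∀ x (m : κ → ℕ), ∏ j, (Function.update f a
          (fun x => E x * ex g v x * (mf N u x : ℂ))) j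
          (act.S (pv (q j) m) x) = E (act.S (pv (q a) m) x) * ex g v (act.S (pv (q a) m) x) *
            (mf N u (act.S (pv (q a) m) x) : ℂ) * Rm x m := by
        intro x m
        rw [← Finset.mul_prod_erase Finset.univ _ (Finset.mem_univ a), Function.update_self]
        congr 1
        refine Finset.prod_congr rfl fun j hj => ?_
        rw [Function.update_of_ne (Finset.ne_of_mem_erase hj)]
      simp only [h2] at h1
      exact h1
    set Wt : X → Set ((κ → ℕ) → ℝ) := fun x => {fun m => (Rm x m).re, fun m => (Rm x m).im}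
      with hWt
    have hWt1 : ∀ x, ∀ w ∈ Wt x, ∀ m, |w m| ≤ 1 := by
      rintro x w (rfl | rfl) m
      · exact (Complex.abs_re_le_norm _).trans (hR1 x m)
      · exact (Complex.abs_im_le_norm _).trans (hR1 x m)
    set U : (κ → ℕ) → X → X := fun m x => act.S (pv (q a) m) x with hU
    have hMax : MaxBd μ U := maxBdM act (q a)
    have hUmp : ∀ m, MeasurePreserving (U m) μ μ := fun m => act.mp _
    have hgood : ∀ E ∈ Pu, ∀ (b : Bool) (v : V) (r : ℕ) (u : Y → ℝ),
        Amp (1 / (2 * ((Fintype.card J : ℝ) + 1) ^ 2)) (B r) u →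
        Cv μ U Wt (fun x => prW E g b v x * mf N u x) := by
      intro E hE b v r u hu
      filter_upwards [hchar E hE v r u hu, hchar _ (hP.cj E hE) (-v) r u hu] with x h1 h2
      have e1 := (h1.1.add h2.1).smul (1 / 2)
      have e2 := (h2.1.add (h1.1.smul (-1))).smul (1 / 2)
      have e3 := (h1.2.add h2.2).smul (1 / 2)
      have e4 := (h1.2.add (h2.2.smul (-1))).smul (1 / 2)
      rintro w (rfl | rfl)
      · cases b
        · refine e4.congr fun m => ?_
          simp only [ex_neg, Complex.mul_im, Complex.mul_re, Complex.ofReal_re, Complex.ofReal_im,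
            Complex.conj_re, Complex.conj_im, hU, prW]
          simp only [Bool.false_eq_true, if_false]
          ring
        · refine e1.congr fun m => ?_
          simp only [ex_neg, Complex.mul_re, Complex.mul_im, Complex.ofReal_re, Complex.ofReal_im,
            Complex.conj_re, Complex.conj_im, hU, prW]
          simp only [if_true]
          ring
      · cases b
        · refine e2.congr fun m => ?_
          simp only [ex_neg, Complex.mul_re, Complex.mul_im, Complex.ofReal_re, Complex.ofReal_im,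
            Complex.conj_re, Complex.conj_im, hU, prW]
          simp only [Bool.false_eq_true, if_false]
          ring
        · refine e3.congr fun m => ?_
          simp only [ex_neg, Complex.mul_im, Complex.mul_re, Complex.ofReal_re, Complex.ofReal_im,
            Complex.conj_re, Complex.conj_im, hU, prW]
          simp only [if_true]
          ring
    have hFL : MemLp F 2 μ := MemLp.of_bound hFm.aestronglyMeasurable 1
      (Eventually.of_forall fun x => by simpa using hF1 x)
    have hmain : Cv μ U Wt F := by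
      refine principle_max hMax hUmp hWt1 (fun φ hφm hφL hφ => ?_) F hFL
      have hφ1 : Integrable φ μ := hφL.integrable one_le_two
      have hm : ∀ E ∈ Pu, ∀ (b : Bool) (v : V) (r : ℕ) (u : Y → ℝ),
          Amp (1 / (2 * ((Fintype.card J : ℝ) + 1) ^ 2)) (B r) u →
          Measurable (fun x => prW E g b v x * mf N u x) ∧
          ∀ x, |prW E g b v x * mf N u x| ≤ 1 := by
        intro E hE b v r u hu
        refine ⟨(measurable_prW (hP.meas E hE) g b v).mul (measurable_mf hN.1 hu.meas hu.fin),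
          fun x => ?_⟩
        rw [abs_mul]
        exact mul_le_one₀ (abs_prW_le (hP.norm E hE) g b v x) (abs_nonneg _) (hmf1 hu x)
      have hzero : φ =ᵐ[μ] 0 := by
        refine ae_zero_of_orthW g hN hBmono hB hνB hP hgen hε hε1 hφ1 (fun E hE v r u hu => ?_)
        have h1 := hφ _ (hm E hE true v r u hu).1 (hm E hE true v r u hu).2
          (hgood E hE true v r u hu)
        have h2 := hφ _ (hm E hE false v r u hu).1 (hm E hE false v r u hu).2
          (hgood E hE false v r u hu)
        have hexm : Measurable (ex g v) := measurable_ex g v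
        have hint : Integrable (fun x => ((φ x : ℂ) * E x *
            Complex.exp ((g.G v x : ℂ) * Complex.I)) * ((mf N u x : ℝ) : ℂ)) μ := by
          refine (((hφ1.ofReal (𝕜 := ℂ)).mul_bdd (c := 1) (hP.meas E hE).aestronglyMeasurable
            (Eventually.of_forall fun x => (hP.norm E hE x).le)).mul_bdd (c := 1)
            hexm.aestronglyMeasurable (Eventually.of_forall fun x => (norm_ex g v x).le)).mul_bdd
            (c := 1) (Complex.measurable_ofReal.comp
              (measurable_mf hN.1 hu.meas hu.fin)).aestronglyMeasurable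
            (Eventually.of_forall fun x => ?_)
          rw [Complex.norm_real]
          exact hmf1 hu x
        have e : ∀ x, ((φ x : ℂ) * E x * Complex.exp ((g.G v x : ℂ) * Complex.I)) *
            ((mf N u x : ℝ) : ℂ) = ((φ x * mf N u x : ℝ) : ℂ) * (E x * ex g v x) := by
          intro x
          unfold ex
          push_cast
          ring
        apply Complex.ext
        · rw [← Complex.reCLM_apply, ← ContinuousLinearMap.integral_comp_comm _ hint]
          simp only [Complex.reCLM_apply, e, Complex.re_ofReal_mul, Complex.zero_re]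
          rw [← h1]
          refine integral_congr_ae (Eventually.of_forall fun x => ?_)
          simp only [prW, if_true]
          ring
        · rw [← Complex.imCLM_apply, ← ContinuousLinearMap.integral_comp_comm _ hint]
          simp only [Complex.imCLM_apply, e, Complex.im_ofReal_mul, Complex.zero_im]
          rw [← h2]
          refine integral_congr_ae (Eventually.of_forall fun x => ?_)
          simp only [prW, Bool.false_eq_true, if_false]
          ring
      exact Cv.congr hUmp hzero.symm Cv.zero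
    have hprod : ∀ x (m : κ → ℕ), ∏ j, f j (act.S (pv (q j) m) x) =
        (F (act.S (pv (q a) m) x) : ℂ) * Rm x m := by
      intro x m
      rw [← Finset.mul_prod_erase Finset.univ _ (Finset.mem_univ a), hF]
    filter_upwards [hmain] with x hx
    constructor
    · refine (hx _ (Set.mem_insert _ _)).congr fun m => ?_
      rw [hprod, Complex.re_ofReal_mul]
    · refine (hx _ (Set.mem_insert_of_mem _ rfl)).congr fun m => ?_
      rw [hprod, Complex.im_ofReal_mul]

theorem realR (g : GF V X μ) (act : MAct (Fin d → ℤ) X μ) (S : (Fin d → ℤ) → V →ₗ[ℝ] V)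
    (hS : ∀ w v x, g.G (S w v) x = g.G v (act.S w x))
    (hSadd : ∀ w w' v, S (w + w') v = S w (S w' v))
    (hBi : ∀ w u v, g.B (S w u) (S w v) = g.B u v)
    {ν : Measure Y} {N : X → Measure Y} (hN : IsPoisson μ ν N) (R : MAct (Fin d → ℤ) Y ν)
    (hNR : ∀ w x, N (act.S w x) = (N x).map (R.S w))
    (hind : Indep (⨆ v, MeasurableSpace.comap (g.G v) (borel ℝ))
      (MeasurableSpace.comap N inferInstance) μ)
    {B : ℕ → Set Y} (hBmono : Monotone B)
    (hB : ∀ r, MeasurableSet (B r)) (hνB : ∀ r, ν (B r) < ⊤) (hret : ∀ r, RetM R (B r))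
    {Pu : Set (X → ℂ)} (hP : UGroup Pu) (hPa : ∀ E ∈ Pu, ∀ u, (fun x => E (act.S u x)) ∈ Pu)
    (hgw : GoodP act κ Pu)
    (hindW : Indep (⨆ E : Pu, MeasurableSpace.comap E.1 (borel ℂ))
      ((⨆ v, MeasurableSpace.comap (g.G v) (borel ℝ)) ⊔ MeasurableSpace.comap N inferInstance) μ)
    (hgen : ∀ D : Set X, MeasurableSet D →
      ∃ D', MeasurableSet[⨆ i, MeasurableSpace.comap (KW g N B ν Pu i) (borel ℝ)] D' ∧ D =ᵐ[μ] D')
    (q : J → Ex κ D → Fin d → ℤ) (F : J → X → ℝ) (hFm : ∀ j, Measurable (F j))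
    (hF1 : ∀ j x, |F j x| ≤ 1) :
    ∀ᵐ x ∂μ, Cvg fun m : κ → ℕ => ∏ j, F j (act.S (pv (q j) m) x) := by
  have h1 := mixedR (κ := κ) g act S hS hSadd hBi hN R hNR hind hBmono hB hνB hret hP hPa hgw
    hindW hgen q Finset.univ (fun j x => (F j x : ℂ))
    (fun j _ => ⟨F j, hFm j, hF1 j, fun x => rfl⟩)
    (fun j hj => absurd (Finset.mem_univ j) hj)
  filter_upwards [h1] with x hx
  refine hx.1.congr fun m => ?_
  rw [← Complex.ofReal_prod, Complex.ofReal_re]

end Pool.Agent.Lib.Pf720ca
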